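import Mathlib

set_option autoImplicit false

/-! The abstract Picone argument (typed by helper95). -/

namespace Pool.Agent.Lib.MP_9c48c1_an.Disk

open MeasureTheory Set Filter Topology

theorem absPic0 {N N' R T w w' : ℝ → ℝ} {C C' ν k : ℝ}
    (hN : ∀ r ∈ Ioo (0:ℝ) 1, HasDerivAt N (N' r) r)
    (cN : ContinuousOn N (Icc 0 1)) (cR : ContinuousOn R (Icc 0 1)) (cT : ContinuousOn T (Icc 0 1))
    (h0 : ∀ r ∈ Ioo (0:ℝ) 1, 0 ≤ N r) (hR : ∀ r ∈ Ioo (0:ℝ) 1, 0 ≤ R r)
    (hCS : ∀ r ∈ Ioo (0:ℝ) 1, N' r ^ 2 ≤ 4 * N r * R r)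
    (hT : ∀ r ∈ Ioo (0:ℝ) 1, k * N r ≤ r ^ 2 * T r)
    (hC0 : ∀ r ∈ Ioo (0:ℝ) 1, N r ≤ C * r ^ 2) (hC1 : ∀ r ∈ Ioo (0:ℝ) 1, N r ≤ C * (1 - r) ^ 2)
    (hw : ∀ r ∈ Ioo (0:ℝ) 1, HasDerivAt w (w' r) r)
    (hw2 : ∀ r ∈ Ioo (0:ℝ) 1, w' r + w r ^ 2 + w r / r + ν ≤ k / r ^ 2)
    (hwC : ∀ r ∈ Ioo (0:ℝ) 1, |r * (1 - r) * w r| ≤ C') :
    ν * ∫ r in (0:ℝ)..1, N r * r ≤ ∫ r in (0:ℝ)..1, (R r + T r) * r := by
  set f : ℝ → ℝ := fun r => (R r + T r) * r - ν * (N r * r) with hf
  have cid : ContinuousOn (fun r : ℝ => r) (Icc 0 1) := continuousOn_id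
  have cf : ContinuousOn f (Icc 0 1) :=
    ((cR.add cT).mul cid).sub (continuousOn_const.mul (cN.mul cid))
  set F : ℝ → ℝ := fun x => ∫ t in (0:ℝ)..x, f t with hF
  have hF1 : F 1 = (∫ r in (0:ℝ)..1, (R r + T r) * r) - ν * ∫ r in (0:ℝ)..1, N r * r := by
    simp only [hF, hf]
    rw [intervalIntegral.integral_sub, intervalIntegral.integral_const_mul]
    · refine ContinuousOn.intervalIntegrable ?_
      rw [uIcc_of_le zero_le_one]
      exact (cR.add cT).mul cid
    · refine ContinuousOn.intervalIntegrable ?_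
      rw [uIcc_of_le zero_le_one]
      exact continuousOn_const.mul (cN.mul cid)
  have dF : ∀ r ∈ Ioo (0:ℝ) 1, HasDerivAt F (f r) r := by
    intro r hr
    refine intervalIntegral.integral_hasDerivAt_right ?_ ?_ ?_
    · refine ContinuousOn.intervalIntegrable (cf.mono ?_)
      rw [uIcc_of_le hr.1.le]
      exact Icc_subset_Icc le_rfl hr.2.le
    · exact (cf.mono Ioo_subset_Icc_self).stronglyMeasurableAtFilter isOpen_Ioo r hr
    · exact cf.continuousAt (Icc_mem_nhds hr.1 hr.2)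
  have cF : ContinuousOn F (Icc 0 1) := by
    have h1 : IntegrableOn f (uIcc 0 1) := by
      rw [uIcc_of_le zero_le_one]
      exact cf.integrableOn_Icc
    have h2 := intervalIntegral.continuousOn_primitive_interval h1
    rwa [uIcc_of_le (zero_le_one (α := ℝ))] at h2
  set g : ℝ → ℝ := fun r => F r - N r * r * w r with hg
  have dg : ∀ r ∈ Ioo (0:ℝ) 1, HasDerivAt g
      (f r - ((N' r * r + N r * 1) * w r + N r * r * w' r)) r := fun r hr =>
    (dF r hr).sub (((hN r hr).mul (hasDerivAt_id' r)).mul (hw r hr))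
  have mono : MonotoneOn g (Ioo 0 1) := by
    refine monotoneOn_of_deriv_nonneg (convex_Ioo 0 1) (fun r hr => (dg r hr).continuousAt.continuousWithinAt)
      (fun r hr => ?_) (fun r hr => ?_)
    · rw [interior_Ioo] at hr
      exact (dg r hr).differentiableAt.differentiableWithinAt
    · rw [interior_Ioo] at hr
      rw [(dg r hr).deriv]
      have hr0 := hr.1
      have e0 := h0 r hr
      have eR := hR r hr
      have eCS := hCS r hr
      have eT := hT r hr
      have ew := hw2 r hr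
      -- first bracket
      have b1 : 0 ≤ R r - N' r * w r + N r * w r ^ 2 := by
        have h1 : (N' r * w r) ^ 2 ≤ (R r + N r * w r ^ 2) ^ 2 := by
          nlinarith [mul_le_mul_of_nonneg_right eCS (sq_nonneg (w r)), sq_nonneg (R r - N r * w r ^ 2)]
        have h2 : 0 ≤ R r + N r * w r ^ 2 := by positivity
        have h3 := abs_le_of_sq_le_sq h1 h2
        linarith [(abs_le.1 h3).2]
      have b2 : 0 ≤ T r - k * N r / r ^ 2 := by
        rw [sub_nonneg, div_le_iff₀ (by positivity)]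
        linarith
      have b3 : 0 ≤ k / r ^ 2 - (w' r + w r ^ 2 + w r / r + ν) := by linarith
      have e1 : f r - ((N' r * r + N r * 1) * w r + N r * r * w' r) =
          r * (R r - N' r * w r + N r * w r ^ 2) + r * (T r - k * N r / r ^ 2) +
            r * N r * (k / r ^ 2 - (w' r + w r ^ 2 + w r / r + ν)) := by
        simp only [hf]
        field_simp
        ring
      rw [e1]
      positivity
  have hCnn : 0 ≤ C := by
    have h1 := hC0 (1 / 2) (by constructor <;> norm_num)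
    have h2 := h0 (1 / 2) (by constructor <;> norm_num)
    nlinarith
  have hC'nn : 0 ≤ C' := (abs_nonneg _).trans (hwC (1 / 2) (by constructor <;> norm_num))
  have lim0 : Tendsto (fun r => N r * r * w r) (𝓝[>] 0) (𝓝 0) := by
    have h1 : Tendsto (fun r : ℝ => 2 * C * C' * r ^ 2) (𝓝[>] 0) (𝓝 0) := by
      have : Tendsto (fun r : ℝ => 2 * C * C' * r ^ 2) (𝓝 0) (𝓝 (2 * C * C' * 0 ^ 2)) :=
        (continuous_const.mul (continuous_id.pow 2)).tendsto 0
      rw [show 2 * C * C' * (0:ℝ) ^ 2 = 0 by ring] at this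
      exact this.mono_left nhdsWithin_le_nhds
    refine squeeze_zero_norm' ?_ h1
    filter_upwards [Ioo_mem_nhdsGT (show (0:ℝ) < 1 / 2 by norm_num)] with r hr
    have hr' : r ∈ Ioo (0:ℝ) 1 := ⟨hr.1, hr.2.trans (by norm_num)⟩
    have h2 := hwC r hr'
    have h3 := hC0 r hr'
    have h4 := h0 r hr'
    rw [Real.norm_eq_abs, mul_assoc, abs_mul, abs_of_nonneg h4]
    rw [show r * (1 - r) * w r = (1 - r) * (r * w r) by ring, abs_mul,
      abs_of_pos (show 0 < 1 - r by linarith [hr'.2])] at h2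
    have h5 : |r * w r| ≤ 2 * C' := by
      nlinarith [abs_nonneg (r * w r), hr.2]
    calc N r * |r * w r| ≤ (C * r ^ 2) * (2 * C') :=
          mul_le_mul h3 h5 (abs_nonneg _) (by positivity)
      _ = 2 * C * C' * r ^ 2 := by ring
  have lim1 : Tendsto (fun r => N r * r * w r) (𝓝[<] 1) (𝓝 0) := by
    have h1 : Tendsto (fun r : ℝ => C * C' * (1 - r)) (𝓝[<] 1) (𝓝 0) := by
      have : Tendsto (fun r : ℝ => C * C' * (1 - r)) (𝓝 1) (𝓝 (C * C' * (1 - 1))) :=
        (continuous_const.mul (continuous_const.sub continuous_id)).tendsto 1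
      rw [show C * C' * (1 - 1 : ℝ) = 0 by ring] at this
      exact this.mono_left nhdsWithin_le_nhds
    refine squeeze_zero_norm' ?_ h1
    filter_upwards [Ioo_mem_nhdsLT (show (0:ℝ) < 1 by norm_num)] with r hr
    have h2 := hwC r hr
    have h3 := hC1 r hr
    have h4 := h0 r hr
    have h6 : 0 < 1 - r := by linarith [hr.2]
    rw [Real.norm_eq_abs, mul_assoc, abs_mul, abs_of_nonneg h4]
    rw [show r * (1 - r) * w r = (1 - r) * (r * w r) by ring, abs_mul, abs_of_pos h6] at h2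
    calc N r * |r * w r| ≤ (C * (1 - r) ^ 2) * |r * w r| :=
          mul_le_mul_of_nonneg_right h3 (abs_nonneg _)
      _ = C * (1 - r) * ((1 - r) * |r * w r|) := by ring
      _ ≤ C * (1 - r) * C' := mul_le_mul_of_nonneg_left h2 (by positivity)
      _ = C * C' * (1 - r) := by ring
  have g0 : Tendsto g (𝓝[>] 0) (𝓝 0) := by
    have h1 : Tendsto F (𝓝[>] 0) (𝓝 (F 0)) :=
      (cF 0 (by simp)).mono_left (nhdsWithin_le_of_mem (by
        exact Icc_mem_nhdsGT zero_lt_one))
    have h2 : F 0 = 0 := by simp [hF]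
    rw [h2] at h1
    simpa using h1.sub lim0
  have g1 : Tendsto g (𝓝[<] 1) (𝓝 (F 1)) := by
    have h1 : Tendsto F (𝓝[<] 1) (𝓝 (F 1)) :=
      (cF 1 (by simp)).mono_left (nhdsWithin_le_of_mem (by
        exact Icc_mem_nhdsLT zero_lt_one))
    simpa using h1.sub lim1
  have gnn : ∀ r ∈ Ioo (0:ℝ) 1, 0 ≤ g r := by
    intro r hr
    refine le_of_tendsto g0 ?_
    filter_upwards [Ioo_mem_nhdsGT hr.1] with s hs
    exact mono ⟨hs.1, hs.2.trans hr.2⟩ hr hs.2.le
  have key : 0 ≤ F 1 := by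
    refine ge_of_tendsto g1 ?_
    filter_upwards [Ioo_mem_nhdsLT (show (0:ℝ) < 1 by norm_num)] with r hr
    exact gnn r hr
  linarith

end Pool.Agent.Lib.MP_9c48c1_an.Disk
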