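import Mathlib
import Pool.Agent.Lib.MP_9c48c1_an.Rhomb
import Pool.Agent.Lib.MP_9c48c1_an.Defs

set_option autoImplicit false

/-! Definitions for the disk (`n = p = 2`). -/

namespace Pool.Agent.Lib.MP_9c48c1_an.Disk

open MeasureTheory Set Pool.Agent.Lib.MP_9c48c1_an

/-- `C^1` functions on the plane with compact support in the open unit disk. -/
def DAdm (G : ℝ × ℝ → ℝ) : Prop :=
  ContDiff ℝ 1 G ∧ HasCompactSupport G ∧ ∀ p ∈ tsupport G, p.1 ^ 2 + p.2 ^ 2 < 1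

/-- The Dirichlet energy. -/
noncomputable def sG (G : ℝ × ℝ → ℝ) : ℝ := q11 G + q22 G

/-- The bilinear form of the traceless symmetric matrix `(c, s; s, -c)`. -/
noncomputable def dJ (c s : ℝ) (G H : ℝ × ℝ → ℝ) : ℝ :=
  ∫ p, (c * (dx G p * dx H p - dy G p * dy H p) + s * (dx G p * dy H p + dy G p * dx H p))

/-- Polar coordinates of `G`, radial and tangential derivative. -/
noncomputable def gp (G : ℝ × ℝ → ℝ) (r θ : ℝ) : ℝ := G (r * Real.cos θ, r * Real.sin θ)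
noncomputable def gr (G : ℝ × ℝ → ℝ) (r θ : ℝ) : ℝ :=
  Real.cos θ * dx G (r * Real.cos θ, r * Real.sin θ) +
    Real.sin θ * dy G (r * Real.cos θ, r * Real.sin θ)
noncomputable def gt (G : ℝ × ℝ → ℝ) (r θ : ℝ) : ℝ :=
  -Real.sin θ * dx G (r * Real.cos θ, r * Real.sin θ) +
    Real.cos θ * dy G (r * Real.cos θ, r * Real.sin θ)

noncomputable def Nn (G : ℝ × ℝ → ℝ) (r : ℝ) : ℝ := ∫ θ in (-Real.pi)..Real.pi, gp G r θ ^ 2
noncomputable def Rr (G : ℝ × ℝ → ℝ) (r : ℝ) : ℝ := ∫ θ in (-Real.pi)..Real.pi, gr G r θ ^ 2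
noncomputable def Tt (G : ℝ × ℝ → ℝ) (r : ℝ) : ℝ := ∫ θ in (-Real.pi)..Real.pi, gt G r θ ^ 2

/-- The angular average as a function of the radius, and its derivative. -/
noncomputable def prof (G : ℝ × ℝ → ℝ) (r : ℝ) : ℝ :=
  (2 * Real.pi)⁻¹ * ∫ θ in (-Real.pi)..Real.pi, gp G r θ
noncomputable def prof' (G : ℝ × ℝ → ℝ) (r : ℝ) : ℝ :=
  (2 * Real.pi)⁻¹ * ∫ θ in (-Real.pi)..Real.pi, gr G r θ

/-- The angular average as a function on the plane. -/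
noncomputable def avg (G : ℝ × ℝ → ℝ) (p : ℝ × ℝ) : ℝ := prof G (Real.sqrt (p.1 ^ 2 + p.2 ^ 2))

/-- The open unit disk. -/
def disk : Set (E 2) := {x | x 0 ^ 2 + x 1 ^ 2 < 1}

/-- `λ_{1,p}(Ω)`, the infimum of the Rayleigh quotients of the admissible functions, for `p = 2`. -/
noncomputable def lambda1 (Ω : Set (E 2)) : ℝ :=
  sInf {c : ℝ | ∃ f : E 2 → ℝ, Adm Ω f ∧ f ≠ 0 ∧
    c = (∫ x, ‖gradient f x‖ ^ 2) / ∫ x, |f x| ^ 2}

end Pool.Agent.Lib.MP_9c48c1_an.Disk
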