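import Mathlib
import Pool.Agent.Lib.MP_9c48c1_an_disk.Defs
import Pool.Agent.Lib.MP_9c48c1_an_disk.A0

set_option autoImplicit false

/-! Picone, second angular mode (typed by helper95). -/

namespace Pool.Agent.Lib.MP_9c48c1_an.Disk

open MeasureTheory Set Pool.Agent.Lib.MP_9c48c1_an

theorem absPic2 {N N' R T : ℝ → ℝ} {C : ℝ}
    (hN : ∀ r ∈ Ioo (0:ℝ) 1, HasDerivAt N (N' r) r)
    (cN : ContinuousOn N (Icc 0 1)) (cR : ContinuousOn R (Icc 0 1)) (cT : ContinuousOn T (Icc 0 1))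
    (h0 : ∀ r ∈ Ioo (0:ℝ) 1, 0 ≤ N r) (hR : ∀ r ∈ Ioo (0:ℝ) 1, 0 ≤ R r)
    (hCS : ∀ r ∈ Ioo (0:ℝ) 1, N' r ^ 2 ≤ 4 * N r * R r)
    (hT : ∀ r ∈ Ioo (0:ℝ) 1, 4 * N r ≤ r ^ 2 * T r)
    (hC0 : ∀ r ∈ Ioo (0:ℝ) 1, N r ≤ C * r ^ 2) (hC1 : ∀ r ∈ Ioo (0:ℝ) 1, N r ≤ C * (1 - r) ^ 2) :
    96 / 5 * ∫ r in (0:ℝ)..1, N r * r ≤ ∫ r in (0:ℝ)..1, (R r + T r) * r := by
  have key : ∀ r ∈ Ioo (0:ℝ) 1, r ≠ 0 ∧ 0 < 1 - r ^ 2 ∧ 0 < 5 - 3 * r ^ 2 := by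
    intro r hr
    have h1 := hr.1
    have h2 := hr.2
    refine ⟨h1.ne', by nlinarith, by nlinarith⟩
  refine absPic0 (w := fun r => 2 * r⁻¹ - 2 * r / (1 - r ^ 2) - 6 * r / (5 - 3 * r ^ 2))
    (w' := fun r => 2 * (-(r ^ 2)⁻¹) - (2 * (1 - r ^ 2) - 2 * r * (0 - 2 * r)) / (1 - r ^ 2) ^ 2 -
      (6 * (5 - 3 * r ^ 2) - 6 * r * (0 - 3 * (2 * r))) / (5 - 3 * r ^ 2) ^ 2) (C' := 7) (k := 4)
    hN cN cR cT h0 hR hCS hT hC0 hC1 ?_ ?_ ?_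
  · intro r hr
    obtain ⟨a1, a2, a3⟩ := key r hr
    have d1 : HasDerivAt (fun r : ℝ => 2 * r) 2 r := by
      simpa using (hasDerivAt_id' r).const_mul (2:ℝ)
    have d3 : HasDerivAt (fun r : ℝ => 6 * r) 6 r := by
      simpa using (hasDerivAt_id' r).const_mul (6:ℝ)
    have d2 : HasDerivAt (fun r : ℝ => r ^ 2) (2 * r) r := by
      simpa using hasDerivAt_pow 2 r
    exact (((hasDerivAt_inv a1).const_mul (2:ℝ)).sub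
      (d1.div ((hasDerivAt_const r (1:ℝ)).sub d2) a2.ne')).sub
      (d3.div ((hasDerivAt_const r (5:ℝ)).sub (d2.const_mul (3:ℝ))) a3.ne')
  · intro r hr
    obtain ⟨a1, a2, a3⟩ := key r hr
    have a4 : 1 - r ^ 2 ≠ 0 := a2.ne'
    have a5 : 5 - 3 * r ^ 2 ≠ 0 := a3.ne'
    have e : 2 * (-(r ^ 2)⁻¹) - (2 * (1 - r ^ 2) - 2 * r * (0 - 2 * r)) / (1 - r ^ 2) ^ 2 -
      (6 * (5 - 3 * r ^ 2) - 6 * r * (0 - 3 * (2 * r))) / (5 - 3 * r ^ 2) ^ 2 +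
      (2 * r⁻¹ - 2 * r / (1 - r ^ 2) - 6 * r / (5 - 3 * r ^ 2)) ^ 2 +
      (2 * r⁻¹ - 2 * r / (1 - r ^ 2) - 6 * r / (5 - 3 * r ^ 2)) / r =
        4 / r ^ 2 - 96 / (5 - 3 * r ^ 2) := by
      obtain ⟨d, hd⟩ : ∃ d : ℝ, d = 5 - 3 * r ^ 2 := ⟨_, rfl⟩
      rw [← hd] at a5 ⊢
      field_simp
      rw [hd]
      ring
    have h1 : 96 / 5 ≤ 96 / (5 - 3 * r ^ 2) := by
      apply div_le_div_of_nonneg_left (by norm_num) a3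
      nlinarith [sq_nonneg r]
    linarith
  · intro r hr
    obtain ⟨a1, a2, a3⟩ := key r hr
    have hr1 := hr.1
    have hr2 := hr.2
    have a4 : 1 - r ^ 2 ≠ 0 := a2.ne'
    have a6 : 0 < 1 + r := by linarith
    have e : r * (1 - r) * (2 * r⁻¹ - 2 * r / (1 - r ^ 2) - 6 * r / (5 - 3 * r ^ 2)) =
        2 * (1 - r) - 2 * r ^ 2 / (1 + r) - 6 * r ^ 2 * (1 - r) / (5 - 3 * r ^ 2) := by
      have : 1 - r ^ 2 = (1 - r) * (1 + r) := by ring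
      rw [this]
      have b1 : 1 - r ≠ 0 := by linarith
      field_simp
    rw [e]
    have h1 : 0 ≤ 2 * r ^ 2 / (1 + r) := by positivity
    have h2 : 2 * r ^ 2 / (1 + r) ≤ 2 := by
      rw [div_le_iff₀ a6]; nlinarith
    have b1 : 0 < 1 - r := by linarith
    have h3 : 0 ≤ 6 * r ^ 2 * (1 - r) / (5 - 3 * r ^ 2) := by positivity
    have h4 : 6 * r ^ 2 * (1 - r) / (5 - 3 * r ^ 2) ≤ 3 := by
      rw [div_le_iff₀ a3]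
      have : r ^ 2 ≤ 1 := by nlinarith
      have : r ^ 2 * (1 - r) ≤ 1 := by nlinarith
      nlinarith
    rw [abs_le]
    constructor <;> linarith

end Pool.Agent.Lib.MP_9c48c1_an.Disk
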