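import Mathlib
import Pool.Agent.Lib.MP_9c48c1_an_disk.Defs

/-! Module B (helper69): the Wirtinger inequalities on the circle for even and odd functions. -/

set_option autoImplicit false

namespace Pool.Agent.Lib.MP_9c48c1_an.Disk

open MeasureTheory Set Filter Topology Pool.Agent.Lib.MP_9c48c1_an

/-- The Dirichlet inequality on a compact interval, with the constant of a larger interval. -/
lemma dirB_aux {g g' : ℝ → ℝ} (hg : ∀ x, HasDerivAt g (g' x) x) (hdc : Continuous g')
    {α β a' l' : ℝ} (hαβ : α ≤ β) (hl' : 0 < l') (ha : a' < α) (hb : β < a' + l')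
    (hgα : g α = 0) (hgβ : g β = 0) :
    (Real.pi / l') ^ 2 * ∫ x in α..β, g x ^ 2 ≤ ∫ x in α..β, g' x ^ 2 := by
  have hgc : Continuous g := continuous_iff_continuousAt.2 fun x => (hg x).continuousAt
  set κ := Real.pi / l' with hκ
  have hκpos : 0 < κ := div_pos Real.pi_pos hl'
  set θ : ℝ → ℝ := fun x => κ * (x - a') with hθ
  have hθr : ∀ x ∈ Icc α β, 0 < Real.sin (θ x) := by
    intro x hx
    apply Real.sin_pos_of_pos_of_lt_pi
    · exact mul_pos hκpos (by linarith [hx.1])
    · have : κ * (x - a') < κ * l' := by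
        apply mul_lt_mul_of_pos_left _ hκpos
        linarith [hx.2]
      calc κ * (x - a') < κ * l' := this
        _ = Real.pi := by rw [hκ]; field_simp
  set c : ℝ → ℝ := fun x => κ * (Real.cos (θ x) / Real.sin (θ x)) with hc
  have hθd : ∀ x, HasDerivAt θ κ x := by
    intro x
    have := ((hasDerivAt_id x).sub_const a').const_mul κ
    simpa [hθ] using this
  have hcd : ∀ x ∈ Icc α β, HasDerivAt c (-κ ^ 2 - c x ^ 2) x := by
    intro x hx
    have hs := (hθr x hx).ne'
    have h1 := ((Real.hasDerivAt_cos (θ x)).comp x (hθd x))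
    have h2 := ((Real.hasDerivAt_sin (θ x)).comp x (hθd x))
    have h3 : HasDerivAt c _ x := (h1.div h2 hs).const_mul κ
    refine h3.congr_deriv ?_
    simp only [Function.comp, hc]
    field_simp
  have hu : ∀ x ∈ uIcc α β, HasDerivAt (fun x => c x * g x ^ 2)
      ((-κ ^ 2 - c x ^ 2) * g x ^ 2 + c x * (2 * g x * g' x)) x := by
    intro x hx
    rw [uIcc_of_le hαβ] at hx
    have h1 : HasDerivAt (fun x => c x * g x ^ 2) _ x := (hcd x hx).mul ((hg x).pow 2)
    refine h1.congr_deriv ?_
    simp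
  have hcc : ContinuousOn c (Icc α β) := fun x hx => (hcd x hx).continuousAt.continuousWithinAt
  have hint : IntervalIntegrable (fun x => (-κ ^ 2 - c x ^ 2) * g x ^ 2 +
      c x * (2 * g x * g' x)) volume α β := by
    apply ContinuousOn.intervalIntegrable
    rw [uIcc_of_le hαβ]
    fun_prop
  have hFTC := intervalIntegral.integral_eq_sub_of_hasDerivAt hu hint
  rw [hgα, hgβ] at hFTC
  simp only [ne_eq, OfNat.ofNat_ne_zero, not_false_eq_true, zero_pow, mul_zero, sub_self] at hFTC
  have hint1 : IntervalIntegrable (fun x => g' x ^ 2) volume α β :=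
    (hdc.pow 2).intervalIntegrable _ _
  have hint2 : IntervalIntegrable (fun x => g x ^ 2) volume α β :=
    (hgc.pow 2).intervalIntegrable _ _
  have hkey : 0 ≤ ∫ x in α..β, (g' x ^ 2 - κ ^ 2 * g x ^ 2 -
      ((-κ ^ 2 - c x ^ 2) * g x ^ 2 + c x * (2 * g x * g' x))) := by
    apply intervalIntegral.integral_nonneg hαβ
    intro x _
    have : g' x ^ 2 - κ ^ 2 * g x ^ 2 - ((-κ ^ 2 - c x ^ 2) * g x ^ 2 +
        c x * (2 * g x * g' x)) = (g' x - c x * g x) ^ 2 := by ring
    rw [this]
    positivity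
  rw [intervalIntegral.integral_sub (hint1.sub (hint2.const_mul _)) hint, hFTC,
    intervalIntegral.integral_sub hint1 (hint2.const_mul _),
    intervalIntegral.integral_const_mul] at hkey
  linarith

/-- The Dirichlet inequality on a compact interval with the sharp constant. -/
lemma dirB {g g' : ℝ → ℝ} (hg : ∀ x, HasDerivAt g (g' x) x) (hdc : Continuous g')
    {a l : ℝ} (hl : 0 < l) (hga : g a = 0) (hgl : g (a + l) = 0) :
    (Real.pi / l) ^ 2 * ∫ x in a..(a + l), g x ^ 2 ≤ ∫ x in a..(a + l), g' x ^ 2 := by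
  have hkey : ∀ δ : ℝ, 0 < δ → (Real.pi / (l + 2 * δ)) ^ 2 * ∫ x in a..(a + l), g x ^ 2 ≤
      ∫ x in a..(a + l), g' x ^ 2 :=
    fun δ hδ => dirB_aux hg hdc (a' := a - δ) (by linarith) (by linarith) (by linarith)
      (by linarith) hga hgl
  have hlim : Tendsto (fun δ : ℝ => (Real.pi / (l + 2 * δ)) ^ 2 * ∫ x in a..(a + l), g x ^ 2)
      (𝓝[>] 0) (𝓝 ((Real.pi / l) ^ 2 * ∫ x in a..(a + l), g x ^ 2)) := by
    have h1 : ContinuousAt (fun δ : ℝ => (Real.pi / (l + 2 * δ)) ^ 2 *
        ∫ x in a..(a + l), g x ^ 2) 0 := by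
      apply ContinuousAt.mul _ continuousAt_const
      apply ContinuousAt.pow
      apply ContinuousAt.div continuousAt_const (by fun_prop)
      simpa using hl.ne'
    have h2 := h1.tendsto
    simp only [mul_zero, add_zero] at h2
    exact h2.mono_left nhdsWithin_le_nhds
  refine le_of_tendsto hlim ?_
  filter_upwards [self_mem_nhdsWithin] with δ hδ
  exact hkey δ hδ

/-- A continuous function which changes its sign under a translation has a zero. -/
lemma exists_zeroB {h : ℝ → ℝ} (hh : Continuous h) {T : ℝ} (hT : 0 < T)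
    (hs : ∀ t, h (t + T) = -h t) : ∃ a, h a = 0 := by
  have h0 : h T = -h 0 := by
    have := hs 0
    rwa [zero_add] at this
  rcases le_total (h 0) 0 with h1 | h1
  · obtain ⟨a, -, ha⟩ := intermediate_value_Icc hT.le hh.continuousOn
      (show (0 : ℝ) ∈ Icc (h 0) (h T) from ⟨h1, by rw [h0]; linarith⟩)
    exact ⟨a, ha⟩
  · obtain ⟨a, -, ha⟩ := intermediate_value_Icc' hT.le hh.continuousOn
      (show (0 : ℝ) ∈ Icc (h T) (h 0) from ⟨by rw [h0]; linarith, h1⟩)
    exact ⟨a, ha⟩

/-- The integral of a `π`-periodic function over the circle. -/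
lemma circle_two {f : ℝ → ℝ} (hf : Continuous f) (hp : Function.Periodic f Real.pi) (a : ℝ) :
    ∫ θ in (-Real.pi)..Real.pi, f θ = 2 * ∫ θ in a..(a + Real.pi), f θ := by
  have h1 : ∫ θ in (-Real.pi)..(-Real.pi + Real.pi), f θ = ∫ θ in a..(a + Real.pi), f θ :=
    hp.intervalIntegral_add_eq _ _
  have h2 : ∫ θ in (0 : ℝ)..(0 + Real.pi), f θ = ∫ θ in a..(a + Real.pi), f θ :=
    hp.intervalIntegral_add_eq _ _
  rw [neg_add_cancel] at h1
  rw [zero_add] at h2
  rw [← intervalIntegral.integral_add_adjacent_intervals (b := (0 : ℝ))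
    (hf.intervalIntegrable _ _) (hf.intervalIntegrable _ _), h1, h2]
  ring

theorem circle_even {g g' : ℝ → ℝ} (hg : ∀ θ, HasDerivAt g (g' θ) θ) (hc : Continuous g')
    (hp : ∀ θ, g (θ + Real.pi) = g θ) (hm : ∫ θ in (-Real.pi)..Real.pi, g θ = 0) :
    4 * ∫ θ in (-Real.pi)..Real.pi, g θ ^ 2 ≤ ∫ θ in (-Real.pi)..Real.pi, g' θ ^ 2 := by
  have hgc : Continuous g := continuous_iff_continuousAt.2 fun x => (hg x).continuousAt
  have hpi := Real.pi_pos
  have hp' : ∀ θ, g' (θ + Real.pi) = g' θ := by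
    intro θ
    have h1 : HasDerivAt (fun t => g (t + Real.pi)) (g' (θ + Real.pi)) θ :=
      (hg (θ + Real.pi)).comp_add_const θ Real.pi
    have h2 : (fun t => g (t + Real.pi)) = g := funext hp
    rw [h2] at h1
    exact h1.unique (hg θ)
  obtain ⟨a, ha⟩ := exists_zeroB (h := fun t => g (t + Real.pi / 2) - g t)
    (by fun_prop) (half_pos hpi) (by
      intro t
      show g (t + Real.pi / 2 + Real.pi / 2) - g (t + Real.pi / 2) =
        -(g (t + Real.pi / 2) - g t)
      rw [add_assoc, add_halves, hp]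
      ring)
  have ha' : g (a + Real.pi / 2) = g a := by linarith
  set c := g a with hcdef
  have hG : ∀ x, HasDerivAt (fun x => g x - c) (g' x) x := fun x => (hg x).sub_const c
  have hD1 := dirB hG hc (a := a) (l := Real.pi / 2) (half_pos hpi) (by simp [hcdef])
    (by show g (a + Real.pi / 2) - c = 0; rw [ha']; ring)
  have hD2 := dirB hG hc (a := a + Real.pi / 2) (l := Real.pi / 2) (half_pos hpi)
    (by show g (a + Real.pi / 2) - c = 0; rw [ha']; ring)
    (by
      show g (a + Real.pi / 2 + Real.pi / 2) - c = 0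
      rw [add_assoc, add_halves, hp]
      ring)
  have hk : (Real.pi / (Real.pi / 2)) ^ 2 = 4 := by
    have : Real.pi / (Real.pi / 2) = 2 := by field_simp
    rw [this]; norm_num
  rw [hk] at hD1 hD2
  rw [add_assoc, add_halves] at hD2
  have hcont2 : Continuous fun x => (g x - c) ^ 2 := by fun_prop
  have hcont3 : Continuous fun x => g' x ^ 2 := by fun_prop
  have hA : ∫ x in a..(a + Real.pi), (g x - c) ^ 2 =
      (∫ x in a..(a + Real.pi / 2), (g x - c) ^ 2) +
        ∫ x in (a + Real.pi / 2)..(a + Real.pi), (g x - c) ^ 2 :=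
    (intervalIntegral.integral_add_adjacent_intervals
      (hcont2.intervalIntegrable _ _) (hcont2.intervalIntegrable _ _)).symm
  have hB : ∫ x in a..(a + Real.pi), g' x ^ 2 =
      (∫ x in a..(a + Real.pi / 2), g' x ^ 2) +
        ∫ x in (a + Real.pi / 2)..(a + Real.pi), g' x ^ 2 :=
    (intervalIntegral.integral_add_adjacent_intervals
      (hcont3.intervalIntegrable _ _) (hcont3.intervalIntegrable _ _)).symm
  have hmain : 4 * ∫ x in a..(a + Real.pi), (g x - c) ^ 2 ≤
      ∫ x in a..(a + Real.pi), g' x ^ 2 := by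
    rw [hA, hB]
    linarith
  have hzero : ∫ x in a..(a + Real.pi), g x = 0 := by
    have h1 := circle_two hgc hp a
    rw [hm] at h1
    linarith
  have hexp : ∫ x in a..(a + Real.pi), (g x - c) ^ 2 =
      (∫ x in a..(a + Real.pi), g x ^ 2) + c ^ 2 * Real.pi := by
    have h1 : ∀ x, (g x - c) ^ 2 = g x ^ 2 - (2 * c) * g x + c ^ 2 := fun x => by ring
    simp_rw [h1]
    rw [intervalIntegral.integral_add, intervalIntegral.integral_sub,
      intervalIntegral.integral_const_mul, hzero, intervalIntegral.integral_const]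
    · simp only [smul_eq_mul]
      ring
    · exact (hgc.pow 2).intervalIntegrable _ _
    · exact (continuous_const.mul hgc).intervalIntegrable _ _
    · exact ((hgc.pow 2).sub (continuous_const.mul hgc)).intervalIntegrable _ _
    · exact continuous_const.intervalIntegrable _ _
  have e1 := circle_two (f := fun x => g x ^ 2) (hgc.pow 2) (fun x => by simp only [hp]) a
  have e2 := circle_two (f := fun x => g' x ^ 2) (hc.pow 2) (fun x => by simp only [hp']) a
  rw [e1, e2]
  rw [hexp] at hmain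
  have : 0 ≤ c ^ 2 * Real.pi := by positivity
  linarith

theorem circle_odd {g g' : ℝ → ℝ} (hg : ∀ θ, HasDerivAt g (g' θ) θ) (hc : Continuous g')
    (hp : ∀ θ, g (θ + Real.pi) = -g θ) :
    ∫ θ in (-Real.pi)..Real.pi, g θ ^ 2 ≤ ∫ θ in (-Real.pi)..Real.pi, g' θ ^ 2 := by
  have hgc : Continuous g := continuous_iff_continuousAt.2 fun x => (hg x).continuousAt
  have hpi := Real.pi_pos
  have hp' : ∀ θ, g' (θ + Real.pi) = -g' θ := by
    intro θ
    have h1 : HasDerivAt (fun t => g (t + Real.pi)) (g' (θ + Real.pi)) θ :=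
      (hg (θ + Real.pi)).comp_add_const θ Real.pi
    have h2 : (fun t => g (t + Real.pi)) = fun t => -g t := funext hp
    rw [h2] at h1
    exact h1.unique (hg θ).fun_neg
  obtain ⟨a, ha⟩ := exists_zeroB hgc hpi hp
  have hD := dirB hg hc (a := a) (l := Real.pi) hpi ha (by rw [hp, ha, neg_zero])
  rw [div_self hpi.ne', one_pow, one_mul] at hD
  have e1 := circle_two (f := fun x => g x ^ 2) (hgc.pow 2)
    (fun x => by simp only [hp, neg_sq]) a
  have e2 := circle_two (f := fun x => g' x ^ 2) (hc.pow 2)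
    (fun x => by simp only [hp', neg_sq]) a
  rw [e1, e2]
  linarith

end Pool.Agent.Lib.MP_9c48c1_an.Disk
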