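import Mathlib
import Pool.Agent.Lib.MP_9c48c1_an_disk.Defs

set_option autoImplicit false

/-! The Bessel function and the extremal of the disk. -/

namespace Pool.Agent.Lib.MP_9c48c1_an.Disk

open MeasureTheory Set Pool.Agent.Lib.MP_9c48c1_an

/-- The Bessel function `J_0`. -/
noncomputable def besselJ0 (x : ℝ) : ℝ :=
  ∑' k : ℕ, (-1) ^ k * (x / 2) ^ (2 * k) / (k.factorial : ℝ) ^ 2

/-- The first positive zero of `J_0`. -/
noncomputable def j01 : ℝ := sInf {x : ℝ | 0 < x ∧ besselJ0 x = 0}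

/-- The function `J_0(j |x|)` on the disk, `0` outside. -/
noncomputable def besselDisk : E 2 → ℝ := disk.indicator fun x => besselJ0 (j01 * ‖x‖)

/-- `bes (x ^ 2 / 4) = J_0 x`. -/
noncomputable def bes (t : ℝ) : ℝ := ∑' k : ℕ, (-1) ^ k * t ^ k / (k.factorial : ℝ) ^ 2

/-- The derivative of `bes`. -/
noncomputable def bes' (t : ℝ) : ℝ :=
  ∑' k : ℕ, (-1) ^ (k + 1) * t ^ k / ((k.factorial : ℝ) * ((k + 1).factorial : ℝ))

/-- The first positive zero of `bes`. -/
noncomputable def t0 : ℝ := sInf {t : ℝ | 0 < t ∧ bes t = 0}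

/-- The extremal function and its gradient in terms of `bes`. -/
noncomputable def extF : E 2 → ℝ := disk.indicator fun x => bes (t0 * ‖x‖ ^ 2)
noncomputable def extG : E 2 → E 2 :=
  disk.indicator fun x => (2 * t0 * bes' (t0 * ‖x‖ ^ 2)) • x

end Pool.Agent.Lib.MP_9c48c1_an.Disk
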