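import Mathlib
import Pool.Agent.Lib.MP_9c48c1_an_disk.Defs

set_option autoImplicit false

/-! Module C (seat 15): integration in polar coordinates over the unit disk. -/

namespace Pool.Agent.Lib.MP_9c48c1_an.Disk

open MeasureTheory Set Pool.Agent.Lib.MP_9c48c1_an

theorem polar_int {φ : ℝ × ℝ → ℝ} (hφ : Continuous φ)
    (hs : ∀ p : ℝ × ℝ, 1 ≤ p.1 ^ 2 + p.2 ^ 2 → φ p = 0) :
    ∫ p, φ p = ∫ r in (0:ℝ)..1,
      (∫ θ in (-Real.pi)..Real.pi, φ (r * Real.cos θ, r * Real.sin θ)) * r := by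
  rw [← integral_comp_polarCoord_symm φ, polarCoord_target]
  have hg : Continuous fun p : ℝ × ℝ => p.1 • φ (p.1 * Real.cos p.2, p.1 * Real.sin p.2) := by
    fun_prop
  have h1 : ∫ p in Ioi (0:ℝ) ×ˢ Ioo (-Real.pi) Real.pi, p.1 • φ (polarCoord.symm p) =
      ∫ p in Ioc (0:ℝ) 1 ×ˢ Ioo (-Real.pi) Real.pi,
        p.1 • φ (p.1 * Real.cos p.2, p.1 * Real.sin p.2) := by
    apply setIntegral_eq_of_subset_of_forall_sdiff_eq_zero
    · exact measurableSet_Ioi.prod measurableSet_Ioo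
    · exact prod_mono Ioc_subset_Ioi_self subset_rfl
    · rintro ⟨r, θ⟩ ⟨⟨hr, hθ⟩, h2⟩
      have hr' : 1 < r := by
        by_contra h
        exact h2 ⟨⟨hr, not_lt.1 h⟩, hθ⟩
      have h3 : φ (r * Real.cos θ, r * Real.sin θ) = 0 := by
        apply hs
        have : (r * Real.cos θ) ^ 2 + (r * Real.sin θ) ^ 2 = r ^ 2 := by
          nlinarith [Real.sin_sq_add_cos_sq θ]
        simp only [this]
        nlinarith
      simp [polarCoord_symm_apply, h3]
  rw [h1]
  have hint : IntegrableOn (fun p : ℝ × ℝ => p.1 • φ (p.1 * Real.cos p.2, p.1 * Real.sin p.2))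
      (Ioc (0:ℝ) 1 ×ˢ Ioo (-Real.pi) Real.pi) (volume.prod volume) := by
    have h2 : IntegrableOn (fun p : ℝ × ℝ => p.1 • φ (p.1 * Real.cos p.2, p.1 * Real.sin p.2))
        (Icc (0:ℝ) 1 ×ˢ Icc (-Real.pi) Real.pi) (volume.prod volume) :=
      hg.continuousOn.integrableOn_compact (isCompact_Icc.prod isCompact_Icc)
    exact h2.mono_set (prod_mono Ioc_subset_Icc_self Ioo_subset_Icc_self)
  have h3 := setIntegral_prod _ hint
  rw [Measure.volume_eq_prod, h3, intervalIntegral.integral_of_le zero_le_one]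
  apply setIntegral_congr_fun measurableSet_Ioc
  intro r hr
  simp only [smul_eq_mul]
  rw [integral_const_mul, mul_comm, intervalIntegral.integral_of_le (by linarith [Real.pi_pos]),
    integral_Ioc_eq_integral_Ioo]

end Pool.Agent.Lib.MP_9c48c1_an.Disk
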