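import Mathlib
import Pool.Agent.Lib.MP_9c48c1_an_disk.Defs
import Pool.Agent.Lib.MP_9c48c1_an_disk.C

set_option autoImplicit false

/-! Module D1 (seat 15): the integrals in polar coordinates. -/

namespace Pool.Agent.Lib.MP_9c48c1_an.Disk

open MeasureTheory Set Pool.Agent.Lib.MP_9c48c1_an

theorem zero_D1 {G : ℝ × ℝ → ℝ} (hG : DAdm G) (p : ℝ × ℝ) (hp : 1 ≤ p.1 ^ 2 + p.2 ^ 2) :
    G p = 0 ∧ dx G p = 0 ∧ dy G p = 0 := by
  have h1 : p ∉ tsupport G := fun h => absurd (hG.2.2 p h) (not_lt.2 hp)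
  have h2 : fderiv ℝ G p = 0 := by
    by_contra h
    exact h1 (support_fderiv_subset ℝ h)
  exact ⟨image_eq_zero_of_notMem_tsupport h1, by unfold dx; rw [h2]; rfl,
    by unfold dy; rw [h2]; rfl⟩

theorem qN_polar {G : ℝ × ℝ → ℝ} (hG : DAdm G) :
    qN G = ∫ r in (0:ℝ)..1, Nn G r * r := by
  have hc := hG.1.continuous
  exact polar_int (φ := fun p => G p ^ 2) (by fun_prop) fun p hp => by
    simp [(zero_D1 hG p hp).1]

theorem sG_polar {G : ℝ × ℝ → ℝ} (hG : DAdm G) :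
    sG G = ∫ r in (0:ℝ)..1, (Rr G r + Tt G r) * r := by
  have cx := continuous_dx hG.1
  have cy := continuous_dy hG.1
  have h1 : sG G = ∫ p, (dx G p ^ 2 + dy G p ^ 2) := by
    unfold sG q11 q22
    rw [integral_add (int_sq cx (hcs_dx hG.2.1)) (int_sq cy (hcs_dy hG.2.1))]
  rw [h1, polar_int (φ := fun p => dx G p ^ 2 + dy G p ^ 2) (by fun_prop) fun p hp => by
    simp [(zero_D1 hG p hp).2.1, (zero_D1 hG p hp).2.2]]
  congr 1
  ext r
  congr 1
  unfold Rr Tt
  have c1 : Continuous fun θ => gr G r θ ^ 2 := by unfold gr; fun_prop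
  have c2 : Continuous fun θ => gt G r θ ^ 2 := by unfold gt; fun_prop
  rw [← intervalIntegral.integral_add (c1.intervalIntegrable _ _) (c2.intervalIntegrable _ _)]
  congr 1
  ext θ
  unfold gr gt
  have h := Real.sin_sq_add_cos_sq θ
  set a := dx G (r * Real.cos θ, r * Real.sin θ)
  set b := dy G (r * Real.cos θ, r * Real.sin θ)
  linear_combination (-(a ^ 2) - b ^ 2) * h

end Pool.Agent.Lib.MP_9c48c1_an.Disk
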