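import Mathlib
import Pool.Agent.Lib.MP_9c48c1_an_disk.Defs

set_option autoImplicit false

/-! The angular average: first derivative in the radius (seat 5). -/

namespace Pool.Agent.Lib.MP_9c48c1_an.Disk

open MeasureTheory Set Pool.Agent.Lib.MP_9c48c1_an

theorem gp_cont {G : ℝ × ℝ → ℝ} (hG : DAdm G) :
    Continuous (fun q : ℝ × ℝ => gp G q.1 q.2) := by
  have h0 := hG.1.continuous
  unfold gp
  fun_prop

theorem gr_cont {G : ℝ × ℝ → ℝ} (hG : DAdm G) :
    Continuous (fun q : ℝ × ℝ => gr G q.1 q.2) := by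
  have h1 := continuous_dx hG.1
  have h2 := continuous_dy hG.1
  unfold gr
  fun_prop

theorem gr_bound {G : ℝ × ℝ → ℝ} (hG : DAdm G) :
    ∃ C : ℝ, ∀ r θ : ℝ, ‖gr G r θ‖ ≤ C := by
  obtain ⟨C1, h1⟩ := (hcs_dx hG.2.1).exists_bound_of_continuous (continuous_dx hG.1)
  obtain ⟨C2, h2⟩ := (hcs_dy hG.2.1).exists_bound_of_continuous (continuous_dy hG.1)
  refine ⟨C1 + C2, fun r θ => ?_⟩
  unfold gr
  refine (norm_add_le _ _).trans (add_le_add ?_ ?_)
  · rw [norm_mul]
    calc ‖Real.cos θ‖ * ‖dx G (r * Real.cos θ, r * Real.sin θ)‖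
        ≤ 1 * ‖dx G (r * Real.cos θ, r * Real.sin θ)‖ :=
          mul_le_mul_of_nonneg_right (by rw [Real.norm_eq_abs]; exact Real.abs_cos_le_one θ)
            (norm_nonneg _)
      _ ≤ C1 := by rw [one_mul]; exact h1 _
  · rw [norm_mul]
    calc ‖Real.sin θ‖ * ‖dy G (r * Real.cos θ, r * Real.sin θ)‖
        ≤ 1 * ‖dy G (r * Real.cos θ, r * Real.sin θ)‖ :=
          mul_le_mul_of_nonneg_right (by rw [Real.norm_eq_abs]; exact Real.abs_sin_le_one θ)
            (norm_nonneg _)
      _ ≤ C2 := by rw [one_mul]; exact h2 _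

theorem gp_deriv {G : ℝ × ℝ → ℝ} (hG : DAdm G) (r θ : ℝ) :
    HasDerivAt (fun r => gp G r θ) (gr G r θ) r := by
  have hc : HasDerivAt (fun r : ℝ => (r * Real.cos θ, r * Real.sin θ))
      (Real.cos θ, Real.sin θ) r := by
    have h1 : HasDerivAt (fun r : ℝ => r * Real.cos θ) (Real.cos θ) r := by
      simpa using (hasDerivAt_id r).mul_const (Real.cos θ)
    have h2 : HasDerivAt (fun r : ℝ => r * Real.sin θ) (Real.sin θ) r := by
      simpa using (hasDerivAt_id r).mul_const (Real.sin θ)
    exact h1.prodMk h2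
  have hd : HasFDerivAt G (fderiv ℝ G (r * Real.cos θ, r * Real.sin θ))
      (r * Real.cos θ, r * Real.sin θ) :=
    (hG.1.differentiable one_ne_zero _).hasFDerivAt
  have h := hd.comp_hasDerivAt r hc
  have he : gr G r θ = fderiv ℝ G (r * Real.cos θ, r * Real.sin θ)
      (Real.cos θ, Real.sin θ) := by
    have hv : ((Real.cos θ, Real.sin θ) : ℝ × ℝ) =
        Real.cos θ • ((1, 0) : ℝ × ℝ) + Real.sin θ • ((0, 1) : ℝ × ℝ) := by
      ext <;> simp
    rw [hv, map_add, map_smul, map_smul]
    simp only [gr, dx, dy, smul_eq_mul]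
  rw [he]
  exact h

theorem prof_deriv {G : ℝ × ℝ → ℝ} (hG : DAdm G) (r : ℝ) :
    HasDerivAt (prof G) (prof' G r) r := by
  obtain ⟨C, hC⟩ := gr_bound hG
  have hcp : ∀ x : ℝ, Continuous (fun θ => gp G x θ) := fun x =>
    (gp_cont hG).comp (Continuous.prodMk continuous_const continuous_id)
  have hcr : ∀ x : ℝ, Continuous (fun θ => gr G x θ) := fun x =>
    (gr_cont hG).comp (Continuous.prodMk continuous_const continuous_id)
  have h := intervalIntegral.hasDerivAt_integral_of_dominated_loc_of_deriv_le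
    (μ := volume) (a := -Real.pi) (b := Real.pi)
    (F := fun x θ => gp G x θ) (F' := fun x θ => gr G x θ) (x₀ := r) (s := Set.univ)
    (bound := fun _ => C) Filter.univ_mem
    (Filter.Eventually.of_forall fun x => (hcp x).aestronglyMeasurable)
    ((hcp r).intervalIntegrable _ _) (hcr r).aestronglyMeasurable
    (Filter.Eventually.of_forall fun t _ x _ => hC x t)
    intervalIntegrable_const
    (Filter.Eventually.of_forall fun t _ x _ => gp_deriv hG x t)
  exact h.2.const_mul _

theorem prof'_cont {G : ℝ × ℝ → ℝ} (hG : DAdm G) : Continuous (prof' G) := by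
  unfold prof'
  refine Continuous.mul continuous_const ?_
  apply intervalIntegral.continuous_parametric_intervalIntegral_of_continuous'
  exact gr_cont hG

theorem prof'_zero {G : ℝ × ℝ → ℝ} (hG : DAdm G) : prof' G 0 = 0 := by
  have _ := hG
  have h : (∫ θ in (-Real.pi)..Real.pi, gr G 0 θ) = 0 := by
    have h1 : (fun θ => gr G 0 θ) = fun θ =>
        Real.cos θ * dx G (0, 0) + Real.sin θ * dy G (0, 0) := by
      funext θ
      simp only [gr, zero_mul]
    have h2 : IntervalIntegrable (fun θ : ℝ => Real.cos θ * dx G (0, 0)) volume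
        (-Real.pi) Real.pi := (Real.continuous_cos.mul continuous_const).intervalIntegrable _ _
    have h3 : IntervalIntegrable (fun θ : ℝ => Real.sin θ * dy G (0, 0)) volume
        (-Real.pi) Real.pi := (Real.continuous_sin.mul continuous_const).intervalIntegrable _ _
    rw [h1, intervalIntegral.integral_add h2 h3,
      intervalIntegral.integral_mul_const, intervalIntegral.integral_mul_const,
      integral_cos, integral_sin]
    simp
  unfold prof'
  rw [h, mul_zero]

theorem prof_one {G : ℝ × ℝ → ℝ} (hG : DAdm G) : ∀ r : ℝ, 1 ≤ |r| → prof G r = 0 := by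
  intro r hr
  have h : ∀ θ : ℝ, gp G r θ = 0 := by
    intro θ
    unfold gp
    apply image_eq_zero_of_notMem_tsupport
    intro hmem
    have h1 := hG.2.2 _ hmem
    simp only at h1
    have h2 : (r * Real.cos θ) ^ 2 + (r * Real.sin θ) ^ 2 = r ^ 2 := by
      have := Real.cos_sq_add_sin_sq θ
      calc (r * Real.cos θ) ^ 2 + (r * Real.sin θ) ^ 2
          = r ^ 2 * (Real.cos θ ^ 2 + Real.sin θ ^ 2) := by ring
        _ = r ^ 2 := by rw [this, mul_one]
    have h3 : 1 ≤ r ^ 2 := by
      rw [← sq_abs]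
      nlinarith [abs_nonneg r]
    linarith
  unfold prof
  simp only [h, intervalIntegral.integral_zero, mul_zero]

end Pool.Agent.Lib.MP_9c48c1_an.Disk
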