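import Mathlib
import Pool.Agent.Lib.MP_9c48c1_an_disk.A1
import Pool.Agent.Lib.MP_9c48c1_an_disk.A2
import Pool.Agent.Lib.MP_9c48c1_an_disk.B
import Pool.Agent.Lib.MP_9c48c1_an_disk.D1
import Pool.Agent.Lib.MP_9c48c1_an_disk.G1

/-! Module D2 (double by helper69): the spectral gaps of the even and of the odd part. -/

set_option autoImplicit false

namespace Pool.Agent.Lib.MP_9c48c1_an.Disk

open MeasureTheory Set Pool.Agent.Lib.MP_9c48c1_an

theorem gt_cont69 {G : ℝ × ℝ → ℝ} (hG : DAdm G) :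
    Continuous (fun q : ℝ × ℝ => gt G q.1 q.2) := by
  have h1 : Continuous (dx G) := continuous_dx hG.1
  have h2 : Continuous (dy G) := continuous_dy hG.1
  unfold gt
  fun_prop

theorem gp_derivθ69 {G : ℝ × ℝ → ℝ} (hG : DAdm G) (r θ : ℝ) :
    HasDerivAt (fun t => gp G r t) (r * gt G r θ) θ := by
  have h1 : HasFDerivAt G (fderiv ℝ G (r * Real.cos θ, r * Real.sin θ))
      (r * Real.cos θ, r * Real.sin θ) :=
    (hG.1.differentiable one_ne_zero _).hasFDerivAt
  have h2 : HasDerivAt (fun t : ℝ => (r * Real.cos t, r * Real.sin t))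
      ((r * -Real.sin θ, r * Real.cos θ) : ℝ × ℝ) θ :=
    ((Real.hasDerivAt_cos θ).const_mul r).prodMk ((Real.hasDerivAt_sin θ).const_mul r)
  have h3 := h1.comp_hasDerivAt θ h2
  have h4 : fderiv ℝ G (r * Real.cos θ, r * Real.sin θ) (r * -Real.sin θ, r * Real.cos θ) =
      r * gt G r θ := by
    have h : ((r * -Real.sin θ, r * Real.cos θ) : ℝ × ℝ) =
        (r * -Real.sin θ) • ((1, 0) : ℝ × ℝ) + (r * Real.cos θ) • ((0, 1) : ℝ × ℝ) := by
      simp
    rw [h, map_add, map_smul, map_smul]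
    unfold gt dx dy
    simp only [smul_eq_mul]
    ring
  rw [h4] at h3
  exact h3

theorem par_cont69 {f : ℝ → ℝ → ℝ} (hf : Continuous (fun q : ℝ × ℝ => f q.1 q.2)) :
    Continuous (fun r => ∫ θ in (-Real.pi)..Real.pi, f r θ ^ 2) := by
  apply intervalIntegral.continuous_parametric_intervalIntegral_of_continuous'
  exact hf.pow 2

theorem sl69 {f : ℝ → ℝ → ℝ} (hf : Continuous (fun q : ℝ × ℝ => f q.1 q.2)) (r : ℝ) :
    Continuous (f r) := hf.comp (Continuous.prodMk continuous_const continuous_id)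

theorem sq_nonneg69 (f : ℝ → ℝ) : 0 ≤ ∫ θ in (-Real.pi)..Real.pi, f θ ^ 2 :=
  intervalIntegral.integral_nonneg (by linarith [Real.pi_pos]) fun _ _ => sq_nonneg _

/-- The Cauchy-Schwarz inequality. -/
theorem cs69 {f h : ℝ → ℝ} (hf : Continuous f) (hh : Continuous h) :
    (∫ θ in (-Real.pi)..Real.pi, 2 * (f θ * h θ)) ^ 2 ≤
      4 * (∫ θ in (-Real.pi)..Real.pi, f θ ^ 2) * ∫ θ in (-Real.pi)..Real.pi, h θ ^ 2 := by
  have hkey : ∀ t : ℝ, 0 ≤ (∫ θ in (-Real.pi)..Real.pi, f θ ^ 2) * (t * t) +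
      (∫ θ in (-Real.pi)..Real.pi, 2 * (f θ * h θ)) * t +
      ∫ θ in (-Real.pi)..Real.pi, h θ ^ 2 := by
    intro t
    have h1 : ∫ θ in (-Real.pi)..Real.pi, (t * f θ + h θ) ^ 2 =
        (∫ θ in (-Real.pi)..Real.pi, f θ ^ 2) * (t * t) +
          (∫ θ in (-Real.pi)..Real.pi, 2 * (f θ * h θ)) * t +
          ∫ θ in (-Real.pi)..Real.pi, h θ ^ 2 := by
      rw [← intervalIntegral.integral_mul_const, ← intervalIntegral.integral_mul_const,
        ← intervalIntegral.integral_add, ← intervalIntegral.integral_add]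
      · refine intervalIntegral.integral_congr fun θ _ => ?_
        show (t * f θ + h θ) ^ 2 = f θ ^ 2 * (t * t) + 2 * (f θ * h θ) * t + h θ ^ 2
        ring
      · exact Continuous.intervalIntegrable (by fun_prop) _ _
      · exact Continuous.intervalIntegrable (by fun_prop) _ _
      · exact Continuous.intervalIntegrable (by fun_prop) _ _
      · exact Continuous.intervalIntegrable (by fun_prop) _ _
    rw [← h1]
    exact sq_nonneg69 _
  have h2 := discrim_le_zero hkey
  unfold discrim at h2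
  linarith

/-- The mass on the circles is differentiable. -/
theorem Nn_deriv69 {G : ℝ × ℝ → ℝ} (hG : DAdm G) (r : ℝ) :
    HasDerivAt (Nn G) (∫ θ in (-Real.pi)..Real.pi, 2 * (gp G r θ * gr G r θ)) r := by
  obtain ⟨C, hC⟩ := gr_bound hG
  obtain ⟨K, hK⟩ := hG.2.1.exists_bound_of_continuous hG.1.continuous
  have hc : ∀ x : ℝ, Continuous (gp G x) := fun x => sl69 (gp_cont hG) x
  have hc' : ∀ x : ℝ, Continuous (gr G x) := fun x => sl69 (gr_cont hG) x
  have hK0 : 0 ≤ K := (norm_nonneg _).trans (hK 0)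
  exact (intervalIntegral.hasDerivAt_integral_of_dominated_loc_of_deriv_le
    (μ := volume) (F := fun x θ => gp G x θ ^ 2) (F' := fun x θ => 2 * (gp G x θ * gr G x θ))
    (x₀ := r) (s := univ) (a := -Real.pi) (b := Real.pi)
    (bound := fun _ => 2 * (K * C)) Filter.univ_mem
    (Filter.Eventually.of_forall fun x => ((hc x).pow 2).aestronglyMeasurable)
    (((hc r).pow 2).intervalIntegrable _ _)
    (continuous_const.mul ((hc r).mul (hc' r))).aestronglyMeasurable
    (Filter.Eventually.of_forall fun t _ x _ => by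
      rw [norm_mul, norm_mul, Real.norm_ofNat]
      exact mul_le_mul_of_nonneg_left (mul_le_mul (hK _) (hC x t) (norm_nonneg _) hK0)
        zero_le_two)
    (continuous_const.intervalIntegrable _ _)
    (Filter.Eventually.of_forall fun t _ x _ => by
      have h := (gp_deriv hG x t).pow 2
      refine h.congr_deriv ?_
      simp
      ring)).2

/-- A Lipschitz bound for the mass near a radius where `G` vanishes. -/
theorem Nn_lip69 {G : ℝ × ℝ → ℝ} (hG : DAdm G) : ∃ C : ℝ, ∀ r₀ : ℝ, (∀ θ, gp G r₀ θ = 0) →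
    ∀ r, Nn G r ≤ C * (r - r₀) ^ 2 := by
  obtain ⟨C, hC⟩ := gr_bound hG
  refine ⟨2 * Real.pi * C ^ 2, fun r₀ h0 r => ?_⟩
  have hC0 : 0 ≤ C := (norm_nonneg _).trans (hC 0 0)
  have h1 : ∀ θ, gp G r θ ^ 2 ≤ C ^ 2 * (r - r₀) ^ 2 := by
    intro θ
    have h2 : ‖gp G r θ - gp G r₀ θ‖ ≤ C * ‖r - r₀‖ :=
      Convex.norm_image_sub_le_of_norm_hasDerivWithin_le (s := univ)
        (f := fun x => gp G x θ) (f' := fun x => gr G x θ)
        (fun x _ => (gp_deriv hG x θ).hasDerivWithinAt) (fun x _ => hC x θ) convex_univ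
        (mem_univ _) (mem_univ _)
    rw [h0 θ, sub_zero, Real.norm_eq_abs, Real.norm_eq_abs] at h2
    rw [← sq_abs, ← sq_abs (r - r₀), ← mul_pow]
    exact pow_le_pow_left₀ (abs_nonneg _) h2 2
  have hc : Continuous (gp G r) := sl69 (gp_cont hG) r
  unfold Nn
  calc ∫ θ in (-Real.pi)..Real.pi, gp G r θ ^ 2
      ≤ ∫ _θ in (-Real.pi)..Real.pi, C ^ 2 * (r - r₀) ^ 2 := by
        apply intervalIntegral.integral_mono_on (by linarith [Real.pi_pos])
          ((hc.pow 2).intervalIntegrable _ _) (continuous_const.intervalIntegrable _ _)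
        intro θ _
        exact h1 θ
    _ = 2 * Real.pi * C ^ 2 * (r - r₀) ^ 2 := by
        rw [intervalIntegral.integral_const, smul_eq_mul]
        ring

theorem gp_one69 {G : ℝ × ℝ → ℝ} (hG : DAdm G) (θ : ℝ) : gp G 1 θ = 0 := by
  unfold gp
  refine image_eq_zero_of_notMem_tsupport fun h => ?_
  have h1 := hG.2.2 _ h
  have h2 := Real.sin_sq_add_cos_sq θ
  simp only at h1
  linarith

theorem gp_neg69 (G : ℝ × ℝ → ℝ) (r θ : ℝ) :
    gp G r (θ + Real.pi) = G (-(r * Real.cos θ, r * Real.sin θ)) := by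
  unfold gp
  rw [Real.cos_add_pi, Real.sin_add_pi]
  simp

theorem even_gap {G : ℝ × ℝ → ℝ} (hG : DAdm G) (he : ∀ p, G (-p) = G p)
    (hm : ∀ r, ∫ θ in (-Real.pi)..Real.pi, gp G r θ = 0) : 96 / 5 * qN G ≤ sG G := by
  obtain ⟨C, hC⟩ := Nn_lip69 hG
  have h00 : ∀ θ, gp G 0 θ = 0 := by
    intro θ
    have h1 := hm 0
    have h2 : ∀ t : ℝ, gp G 0 t = G (0, 0) := by
      intro t
      unfold gp
      rw [zero_mul, zero_mul]
    rw [h2]
    simp only [h2] at h1
    rw [intervalIntegral.integral_const, smul_eq_mul] at h1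
    have h3 : Real.pi - -Real.pi ≠ 0 := by linarith [Real.pi_pos]
    exact (mul_eq_zero.1 h1).resolve_left h3
  rw [qN_polar hG, sG_polar hG]
  refine absPic2 (N := Nn G) (R := Rr G) (T := Tt G) (C := C)
    (N' := fun r => ∫ θ in (-Real.pi)..Real.pi, 2 * (gp G r θ * gr G r θ))
    (fun r _ => Nn_deriv69 hG r) (par_cont69 (gp_cont hG)).continuousOn
    (par_cont69 (gr_cont hG)).continuousOn (par_cont69 (gt_cont69 hG)).continuousOn
    (fun r _ => sq_nonneg69 _) (fun r _ => sq_nonneg69 _)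
    (fun r _ => cs69 (sl69 (gp_cont hG) r) (sl69 (gr_cont hG) r)) ?_ ?_ ?_
  · intro r _
    have h := circle_even (g := gp G r) (g' := fun θ => r * gt G r θ)
      (fun θ => gp_derivθ69 hG r θ) (continuous_const.mul (sl69 (gt_cont69 hG) r))
      (fun θ => by rw [gp_neg69, he]; rfl) (hm r)
    have h1 : ∫ θ in (-Real.pi)..Real.pi, (r * gt G r θ) ^ 2 = r ^ 2 * Tt G r := by
      unfold Tt
      rw [← intervalIntegral.integral_const_mul]
      refine intervalIntegral.integral_congr fun θ _ => ?_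
      show (r * gt G r θ) ^ 2 = r ^ 2 * gt G r θ ^ 2
      ring
    rw [h1] at h
    exact h
  · intro r _
    have h := hC 0 h00 r
    rwa [sub_zero] at h
  · intro r _
    have h := hC 1 (gp_one69 hG) r
    have h1 : (r - 1) ^ 2 = (1 - r) ^ 2 := by ring
    rwa [h1] at h

theorem odd_gap {G : ℝ × ℝ → ℝ} (hG : DAdm G) (ho : ∀ p, G (-p) = -G p) :
    12 * qN G ≤ sG G := by
  obtain ⟨C, hC⟩ := Nn_lip69 hG
  have h00 : ∀ θ, gp G 0 θ = 0 := by
    intro θ
    unfold gp
    rw [zero_mul, zero_mul]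
    have h1 := ho (0, 0)
    have h2 : -((0, 0) : ℝ × ℝ) = (0, 0) := by simp
    rw [h2] at h1
    linarith
  rw [qN_polar hG, sG_polar hG]
  refine absPic1 (N := Nn G) (R := Rr G) (T := Tt G) (C := C)
    (N' := fun r => ∫ θ in (-Real.pi)..Real.pi, 2 * (gp G r θ * gr G r θ))
    (fun r _ => Nn_deriv69 hG r) (par_cont69 (gp_cont hG)).continuousOn
    (par_cont69 (gr_cont hG)).continuousOn (par_cont69 (gt_cont69 hG)).continuousOn
    (fun r _ => sq_nonneg69 _) (fun r _ => sq_nonneg69 _)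
    (fun r _ => cs69 (sl69 (gp_cont hG) r) (sl69 (gr_cont hG) r)) ?_ ?_ ?_
  · intro r _
    have h := circle_odd (g := gp G r) (g' := fun θ => r * gt G r θ)
      (fun θ => gp_derivθ69 hG r θ) (continuous_const.mul (sl69 (gt_cont69 hG) r))
      (fun θ => by rw [gp_neg69, ho]; rfl)
    have h1 : ∫ θ in (-Real.pi)..Real.pi, (r * gt G r θ) ^ 2 = r ^ 2 * Tt G r := by
      unfold Tt
      rw [← intervalIntegral.integral_const_mul]
      refine intervalIntegral.integral_congr fun θ _ => ?_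
      show (r * gt G r θ) ^ 2 = r ^ 2 * gt G r θ ^ 2
      ring
    rw [h1] at h
    exact h
  · intro r _
    have h := hC 0 h00 r
    rwa [sub_zero] at h
  · intro r _
    have h := hC 1 (gp_one69 hG) r
    have h1 : (r - 1) ^ 2 = (1 - r) ^ 2 := by ring
    rwa [h1] at h

end Pool.Agent.Lib.MP_9c48c1_an.Disk
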