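import Mathlib
import Pool.Agent.Lib.MP_9c48c1_an_disk.Defs
import Pool.Agent.Lib.MP_9c48c1_an_disk.A2

set_option autoImplicit false

/-! Module E (helper71): radial functions of mean zero. -/

namespace Pool.Agent.Lib.MP_9c48c1_an.Disk

open MeasureTheory Set Pool.Agent.Lib.MP_9c48c1_an Filter Topology

theorem meanZero {g g' : ℝ → ℝ} (hg : ∀ r, HasDerivAt g (g' r) r) (hc : Continuous g')
    (h0 : g' 0 = 0) (h1 : g 1 = 0) (hm : ∫ r in (0:ℝ)..1, g r * r = 0) :
    96 / 5 * ∫ r in (0:ℝ)..1, g r ^ 2 * r ≤ ∫ r in (0:ℝ)..1, g' r ^ 2 * r := by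
  have hgc : Continuous g := continuous_iff_continuousAt.2 fun r => (hg r).continuousAt
  set W : ℝ → ℝ := fun r => ∫ t in (0:ℝ)..r, (g t - g 0) * t with hW
  have hcw : Continuous fun t => (g t - g 0) * t := by fun_prop
  have hWd : ∀ r, HasDerivAt W ((g r - g 0) * r) r := fun r =>
    (hcw.integral_hasStrictDerivAt 0 r).hasDerivAt
  have hWc : Continuous W := continuous_iff_continuousAt.2 fun r => (hWd r).continuousAt
  set q : ℝ → ℝ := fun r => g r - g 0 - 2 * (W r / r ^ 2) with hq
  set k : ℝ → ℝ := fun r => q r / r with hk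
  have hW0 : W 0 = 0 := by simp [hW]
  have hq0 : q 0 = 0 := by simp [hq]
  have hqk : ∀ r, q r = k r * r := by
    intro r
    by_cases hr : r = 0
    · rw [hr, hq0, mul_zero]
    · rw [hk]
      field_simp
  have hqd : ∀ r, r ≠ 0 → HasDerivAt q (g' r - 2 * k r) r := by
    intro r hr
    have e1 : HasDerivAt (fun r : ℝ => r ^ 2) (2 * r) r := by
      simpa using hasDerivAt_pow 2 r
    have e2 := ((hg r).sub_const (g 0)).sub (((hWd r).div e1 (pow_ne_zero 2 hr)).const_mul 2)
    refine e2.congr_deriv ?_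
    simp only [hk, hq]
    field_simp
  -- continuity of k
  have hk0 : ContinuousAt k 0 := by
    have hk00 : k 0 = 0 := by simp [hk]
    rw [Metric.continuousAt_iff]
    intro ε hε
    have h2 := (hasDerivAt_iff_isLittleO.1 (hg 0)).def (show (0:ℝ) < ε / 6 by positivity)
    rw [Metric.eventually_nhds_iff] at h2
    obtain ⟨δ, hδ, hb⟩ := h2
    refine ⟨δ, hδ, ?_⟩
    intro r hr
    have hb' : ∀ t : ℝ, |t| < δ → |g t - g 0| ≤ ε / 6 * |t| := by
      intro t ht
      have := hb (show dist t 0 < δ by simpa [Real.dist_eq] using ht)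
      simpa [h0, Real.norm_eq_abs] using this
    have hr' : |r| < δ := by simpa [Real.dist_eq] using hr
    rw [hk00, Real.dist_eq, sub_zero]
    by_cases hr0 : r = 0
    · rw [hr0, hk00]; simpa using hε
    have hrp : 0 < |r| := abs_pos.2 hr0
    have hWb : |W r| ≤ ε / 6 * |r| ^ 2 * |r| := by
      have := intervalIntegral.norm_integral_le_of_norm_le_const
        (a := (0:ℝ)) (b := r) (f := fun t => (g t - g 0) * t) (C := ε / 6 * |r| ^ 2) (by
          intro t ht
          have htr : |t| ≤ |r| := by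
            rcases le_total 0 r with h | h
            · rw [uIoc_of_le h] at ht
              rw [abs_of_pos ht.1, abs_of_nonneg h]
              exact ht.2
            · rw [uIoc_of_ge h] at ht
              rw [abs_of_nonpos ht.2, abs_of_nonpos h]
              linarith [ht.1]
          have h3 := hb' t (lt_of_le_of_lt htr hr')
          rw [Real.norm_eq_abs, abs_mul]
          calc |g t - g 0| * |t| ≤ (ε / 6 * |t|) * |t| :=
                mul_le_mul_of_nonneg_right h3 (abs_nonneg _)
            _ ≤ (ε / 6 * |r|) * |r| := by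
                apply mul_le_mul _ htr (abs_nonneg _) (by positivity)
                exact mul_le_mul_of_nonneg_left htr (by positivity)
            _ = ε / 6 * |r| ^ 2 := by ring)
      rw [sub_zero, Real.norm_eq_abs] at this
      exact this
    have hqb : |q r| ≤ ε / 2 * |r| := by
      have h3 := hb' r hr'
      have h4 : |W r / r ^ 2| ≤ ε / 6 * |r| := by
        rw [abs_div, abs_pow, div_le_iff₀ (by positivity)]
        calc |W r| ≤ ε / 6 * |r| ^ 2 * |r| := hWb
          _ = ε / 6 * |r| * |r| ^ 2 := by ring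
      calc |q r| = |(g r - g 0) - 2 * (W r / r ^ 2)| := rfl
        _ ≤ |g r - g 0| + |2 * (W r / r ^ 2)| := abs_sub _ _
        _ = |g r - g 0| + 2 * |W r / r ^ 2| := by rw [abs_mul]; norm_num
        _ ≤ ε / 6 * |r| + 2 * (ε / 6 * |r|) := by linarith
        _ = ε / 2 * |r| := by ring
    calc |k r| = |q r| / |r| := by rw [hk]; exact abs_div _ _
      _ ≤ ε / 2 := by rw [div_le_iff₀ hrp]; exact hqb
      _ < ε := by linarith
  have hkc : Continuous k := by
    rw [continuous_iff_continuousAt]
    intro r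
    by_cases hr : r = 0
    · rw [hr]; exact hk0
    · exact (hqd r hr).continuousAt.div continuousAt_id hr
  have hqc : Continuous q := by
    have : q = fun r => k r * r := funext hqk
    rw [this]
    fun_prop
  have hq1 : q 1 = 0 := by
    have e1 : W 1 = - (g 0 / 2) := by
      have e2 : W 1 = (∫ t in (0:ℝ)..1, g t * t) - ∫ t in (0:ℝ)..1, g 0 * t := by
        rw [← intervalIntegral.integral_sub]
        · refine intervalIntegral.integral_congr fun t _ => ?_
          ring
        · exact (by fun_prop : Continuous fun t => g t * t).intervalIntegrable _ _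
        · exact (by fun_prop : Continuous fun t : ℝ => g 0 * t).intervalIntegrable _ _
      rw [e2, hm, intervalIntegral.integral_const_mul, integral_id]
      ring
    simp only [hq]
    rw [e1, h1]
    ring
  set p : ℝ → ℝ := fun r => g' r - 2 * k r with hp
  have hpc : Continuous p := by fun_prop
  -- first identity
  have I1 : ∫ r in (0:ℝ)..1, (g r ^ 2 * r - q r ^ 2 * r) = 0 := by
    have hS : ∀ r ∈ Ioo (0:ℝ) 1, HasDerivAt (fun r => (r * (g r - q r)) ^ 2 / 2)
        (g r ^ 2 * r - q r ^ 2 * r) r := by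
      intro r hr
      have e1 := ((((hasDerivAt_id r).mul ((hg r).sub (hqd r hr.1.ne'))).pow 2).div_const 2)
      refine e1.congr_deriv ?_
      have e2 := hqk r
      simp only [id, Pi.mul_apply, Pi.sub_apply]
      rw [e2]
      ring
    rw [intervalIntegral.integral_eq_sub_of_hasDerivAt_of_le zero_le_one
      (by fun_prop) hS (Continuous.intervalIntegrable (by fun_prop) _ _)]
    rw [hq1, h1]
    simp
  have I2 : ∫ r in (0:ℝ)..1, (g' r ^ 2 * r - (p r ^ 2 + 4 * k r ^ 2) * r) = 0 := by
    have hS : ∀ r ∈ Ioo (0:ℝ) 1, HasDerivAt (fun r => 2 * q r ^ 2)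
        (g' r ^ 2 * r - (p r ^ 2 + 4 * k r ^ 2) * r) r := by
      intro r hr
      have e1 := (((hqd r hr.1.ne').pow 2).const_mul 2)
      refine e1.congr_deriv ?_
      have e2 := hqk r
      simp only [hp]
      rw [e2]
      ring
    rw [intervalIntegral.integral_eq_sub_of_hasDerivAt_of_le zero_le_one
      (by fun_prop) hS (Continuous.intervalIntegrable (by fun_prop) _ _)]
    rw [hq1, hq0]
    simp
  rw [intervalIntegral.integral_sub (Continuous.intervalIntegrable (by fun_prop) _ _)
    (Continuous.intervalIntegrable (by fun_prop) _ _)] at I1 I2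
  -- bounds
  obtain ⟨M0, hM0⟩ := isCompact_Icc.exists_bound_of_continuousOn (s := Icc (0:ℝ) 1) hkc.continuousOn
  obtain ⟨M1, hM1⟩ := isCompact_Icc.exists_bound_of_continuousOn (s := Icc (0:ℝ) 1) hpc.continuousOn
  have key := absPic2 (N := fun r => q r ^ 2) (N' := fun r => 2 * q r * p r)
    (R := fun r => p r ^ 2) (T := fun r => 4 * k r ^ 2) (C := M0 ^ 2 + M1 ^ 2)
    (by
      intro r hr
      refine ((hqd r hr.1.ne').pow 2).congr_deriv ?_
      simp only [hp]
      ring)
    (by fun_prop) (by fun_prop) (by fun_prop)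
    (fun r _ => by positivity) (fun r _ => by positivity)
    (fun r _ => le_of_eq (by ring))
    (fun r _ => le_of_eq (by rw [hqk r]; ring))
    (by
      intro r hr
      have h2 := hM0 r ⟨hr.1.le, hr.2.le⟩
      rw [Real.norm_eq_abs] at h2
      have h3 : k r ^ 2 ≤ M0 ^ 2 := by
        rw [← sq_abs (k r)]
        exact pow_le_pow_left₀ (abs_nonneg _) h2 2
      show q r ^ 2 ≤ (M0 ^ 2 + M1 ^ 2) * r ^ 2
      rw [hqk r]
      nlinarith [sq_nonneg r, sq_nonneg M1, mul_nonneg (sq_nonneg M1) (sq_nonneg r),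
        mul_le_mul_of_nonneg_right h3 (sq_nonneg r)])
    (by
      intro r hr
      have h2 := Convex.norm_image_sub_le_of_norm_hasDerivWithin_le (f := q) (f' := p)
        (s := Icc r 1) (x := r) (y := 1) (C := M1)
        (fun t ht => (hqd t (lt_of_lt_of_le hr.1 ht.1).ne').hasDerivWithinAt)
        (fun t ht => hM1 t ⟨(lt_of_lt_of_le hr.1 ht.1).le, ht.2⟩) (convex_Icc r 1)
        ⟨le_refl _, hr.2.le⟩ ⟨hr.2.le, le_refl _⟩
      rw [hq1, zero_sub, norm_neg, Real.norm_eq_abs, Real.norm_eq_abs,
        abs_of_pos (by linarith [hr.2] : (0:ℝ) < 1 - r)] at h2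
      have h3 : q r ^ 2 ≤ (M1 * (1 - r)) ^ 2 := by
        rw [← sq_abs (q r)]
        exact pow_le_pow_left₀ (abs_nonneg _) h2 2
      show q r ^ 2 ≤ (M0 ^ 2 + M1 ^ 2) * (1 - r) ^ 2
      nlinarith [mul_nonneg (sq_nonneg M0) (sq_nonneg (1 - r))])
  linarith

end Pool.Agent.Lib.MP_9c48c1_an.Disk
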