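import Mathlib
import Pool.Agent.Lib.MP_9c48c1_an_disk.Defs
import Pool.Agent.Lib.MP_9c48c1_an_disk.E

set_option autoImplicit false

/-! Module F of the disk: the radial inequality (helper76). -/

namespace Pool.Agent.Lib.MP_9c48c1_an.Disk

open MeasureTheory Set Pool.Agent.Lib.MP_9c48c1_an

namespace F

/-- A linear combination of continuous functions is integrated term by term. -/
theorem lin (n : ℕ) (f : Fin n → ℝ → ℝ) (hf : ∀ i, Continuous (f i)) (a : Fin n → ℝ) :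
    ∫ r in (0:ℝ)..1, ∑ i, a i * f i r = ∑ i, a i * ∫ r in (0:ℝ)..1, f i r := by
  rw [intervalIntegral.integral_finsetSum]
  · refine Finset.sum_congr rfl fun i _ => ?_
    rw [intervalIntegral.integral_const_mul]
  · intro i _
    exact (continuous_const.mul (hf i)).intervalIntegrable _ _

theorem lin5 {f0 f1 f2 f3 f4 : ℝ → ℝ} (h0 : Continuous f0) (h1 : Continuous f1)
    (h2 : Continuous f2) (h3 : Continuous f3) (h4 : Continuous f4) (a0 a1 a2 a3 a4 : ℝ)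
    {h : ℝ → ℝ} (hh : ∀ r, h r = a0 * f0 r + a1 * f1 r + a2 * f2 r + a3 * f3 r + a4 * f4 r) :
    ∫ r in (0:ℝ)..1, h r = a0 * (∫ r in (0:ℝ)..1, f0 r) + a1 * (∫ r in (0:ℝ)..1, f1 r) +
      a2 * (∫ r in (0:ℝ)..1, f2 r) + a3 * (∫ r in (0:ℝ)..1, f3 r) +
      a4 * (∫ r in (0:ℝ)..1, f4 r) := by
  have key := lin 5 ![f0, f1, f2, f3, f4] (by
    intro i; fin_cases i <;> assumption) ![a0, a1, a2, a3, a4]
  simp only [Fin.sum_univ_succ, Fin.sum_univ_zero] at key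
  have e : ∫ r in (0:ℝ)..1, h r = ∫ r in (0:ℝ)..1,
      (a0 * f0 r + (a1 * f1 r + (a2 * f2 r + (a3 * f3 r + (a4 * f4 r + 0))))) := by
    congr 1; funext r; rw [hh]; ring
  rw [e]
  refine (Eq.trans ?_ key).trans ?_
  · rfl
  · show a0 * (∫ r in (0:ℝ)..1, f0 r) + (a1 * (∫ r in (0:ℝ)..1, f1 r) +
      (a2 * (∫ r in (0:ℝ)..1, f2 r) + (a3 * (∫ r in (0:ℝ)..1, f3 r) +
      (a4 * (∫ r in (0:ℝ)..1, f4 r) + 0)))) = _
    ring

theorem ipow (n : ℕ) : ∫ r in (0:ℝ)..1, r ^ n = 1 / ((n : ℝ) + 1) := by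
  rw [integral_pow]; simp

end F

open F in
theorem radialIneq {F F' : ℝ → ℝ} (hF : ∀ r, HasDerivAt F (F' r) r) (hc : Continuous F')
    (h0 : F' 0 = 0) (h1 : F 1 = 0) :
    931 / 50 * ∫ r in (0:ℝ)..1, F r ^ 2 * r ≤
      23 / 10 * (∫ r in (0:ℝ)..1, F' r ^ 2 * r) + 16 * (∫ r in (0:ℝ)..1, F r * r) ^ 2 := by
  have hFc : Continuous F := continuous_iff_continuousAt.2 fun r => (hF r).continuousAt
  -- the moments
  have c1 : Continuous fun r : ℝ => F r * r := by fun_prop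
  have c3 : Continuous fun r : ℝ => F r * r ^ 3 := by fun_prop
  have c5 : Continuous fun r : ℝ => F r * r ^ 5 := by fun_prop
  have cFF : Continuous fun r : ℝ => F r ^ 2 * r := by fun_prop
  have cGG : Continuous fun r : ℝ => F' r ^ 2 * r := by fun_prop
  have cH1 : Continuous fun r : ℝ => F' r * r ^ 2 := by fun_prop
  have cH2 : Continuous fun r : ℝ => F' r * r ^ 4 := by fun_prop
  obtain ⟨J0, hJ0⟩ : ∃ J, J = ∫ r in (0:ℝ)..1, F r * r := ⟨_, rfl⟩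
  obtain ⟨J2, hJ2⟩ : ∃ J, J = ∫ r in (0:ℝ)..1, F r * r ^ 3 := ⟨_, rfl⟩
  obtain ⟨J4, hJ4⟩ : ∃ J, J = ∫ r in (0:ℝ)..1, F r * r ^ 5 := ⟨_, rfl⟩
  obtain ⟨A, hA⟩ : ∃ J, J = ∫ r in (0:ℝ)..1, F r ^ 2 * r := ⟨_, rfl⟩
  obtain ⟨D, hD⟩ : ∃ J, J = ∫ r in (0:ℝ)..1, F' r ^ 2 * r := ⟨_, rfl⟩
  obtain ⟨K2, hK2⟩ : ∃ J, J = ∫ r in (0:ℝ)..1, F' r * r ^ 2 := ⟨_, rfl⟩
  obtain ⟨K4, hK4⟩ : ∃ J, J = ∫ r in (0:ℝ)..1, F' r * r ^ 4 := ⟨_, rfl⟩
  obtain ⟨m, hm⟩ : ∃ m : ℝ, J0 = 43 / 300 * m := ⟨300 / 43 * J0, by ring⟩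
  -- integration by parts
  have parts : ∀ n : ℕ, (∫ r in (0:ℝ)..1, F' r * r ^ (n + 1)) =
      -((n : ℝ) + 1) * ∫ r in (0:ℝ)..1, F r * r ^ n := by
    intro n
    have hd : ∀ r ∈ Set.uIcc (0:ℝ) 1, HasDerivAt (fun r => F r * r ^ (n + 1))
        (F' r * r ^ (n + 1) + F r * (((n : ℝ) + 1) * r ^ n)) r := by
      intro r _
      have := (hF r).mul (hasDerivAt_pow (n + 1) r)
      refine this.congr_deriv ?_
      push_cast
      simp
    have hi : IntervalIntegrable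
        (fun r => F' r * r ^ (n + 1) + F r * (((n : ℝ) + 1) * r ^ n)) volume 0 1 := by
      apply Continuous.intervalIntegrable
      fun_prop
    have key := intervalIntegral.integral_eq_sub_of_hasDerivAt hd hi
    rw [h1, zero_mul, zero_pow (Nat.succ_ne_zero n), mul_zero, sub_zero,
      intervalIntegral.integral_add] at key
    · have e : (∫ r in (0:ℝ)..1, F r * (((n : ℝ) + 1) * r ^ n)) =
          ((n : ℝ) + 1) * ∫ r in (0:ℝ)..1, F r * r ^ n := by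
        rw [← intervalIntegral.integral_const_mul]
        congr 1; funext r; ring
      rw [e] at key
      linarith
    · apply Continuous.intervalIntegrable
      fun_prop
    · apply Continuous.intervalIntegrable
      fun_prop
  have hp1 : K2 = -2 * J0 := by
    have := parts 1
    rw [hK2, hJ0]
    simpa [show (1:ℝ) + 1 = 2 by norm_num] using this
  have hp3 : K4 = -4 * J2 := by
    have := parts 3
    rw [hK4, hJ2]
    simpa [show (3:ℝ) + 1 = 4 by norm_num] using this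
  -- the comparison function
  let g : ℝ → ℝ := fun r => F r - m * (17 / 25 - r ^ 2 + 8 / 25 * r ^ 4)
  let g' : ℝ → ℝ := fun r => F' r - m * (-2 * r + 32 / 25 * r ^ 3)
  have hg : ∀ r, HasDerivAt g (g' r) r := by
    intro r
    have hφ : HasDerivAt (fun r : ℝ => 17 / 25 - r ^ 2 + 8 / 25 * r ^ 4)
        (-2 * r + 32 / 25 * r ^ 3) r := by
      have h2 := hasDerivAt_pow 2 r
      have h4 := (hasDerivAt_pow 4 r).const_mul (8 / 25 : ℝ)
      refine ((h2.const_sub (17 / 25 : ℝ)).add h4).congr_deriv ?_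
      push_cast
      ring
    exact (hF r).sub (hφ.const_mul m)
  have hgc : Continuous g' := by
    show Continuous fun r => F' r - m * (-2 * r + 32 / 25 * r ^ 3)
    fun_prop
  have hg0 : g' 0 = 0 := by
    show F' 0 - m * (-2 * 0 + 32 / 25 * 0 ^ 3) = 0
    rw [h0]; ring
  have hg1 : g 1 = 0 := by
    show F 1 - m * (17 / 25 - 1 ^ 2 + 8 / 25 * 1 ^ 4) = 0
    rw [h1]; ring
  have i1 : ∫ r in (0:ℝ)..1, r ^ 1 = 1 / 2 := by rw [ipow]; norm_num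
  have i3 : ∫ r in (0:ℝ)..1, r ^ 3 = 1 / 4 := by rw [ipow]; norm_num
  have i5 : ∫ r in (0:ℝ)..1, r ^ 5 = 1 / 6 := by rw [ipow]; norm_num
  have i7 : ∫ r in (0:ℝ)..1, r ^ 7 = 1 / 8 := by rw [ipow]; norm_num
  have i9 : ∫ r in (0:ℝ)..1, r ^ 9 = 1 / 10 := by rw [ipow]; norm_num
  -- a polynomial integral
  have poly : ∀ b0 b2 b4 b6 b8 : ℝ, (∫ r in (0:ℝ)..1,
      (b0 * r ^ 1 + b2 * r ^ 3 + b4 * r ^ 5 + b6 * r ^ 7 + b8 * r ^ 9)) =
      b0 / 2 + b2 / 4 + b4 / 6 + b6 / 8 + b8 / 10 := by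
    intro b0 b2 b4 b6 b8
    rw [lin5 (continuous_pow 1) (continuous_pow 3) (continuous_pow 5) (continuous_pow 7)
      (continuous_pow 9) b0 b2 b4 b6 b8 (fun r => rfl), i1, i3, i5, i7, i9]
    ring
  have hgm : ∫ r in (0:ℝ)..1, g r * r = 0 := by
    have := lin5 c1 (continuous_pow 1) (continuous_pow 3) (continuous_pow 5) (continuous_pow 7)
      1 (-m * (17 / 25)) m (-m * (8 / 25)) 0 (h := fun r => g r * r) (by
        intro r
        show (F r - m * (17 / 25 - r ^ 2 + 8 / 25 * r ^ 4)) * r = _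
        ring)
    rw [this, ← hJ0, i1, i3, i5, i7, hm]
    ring
  have key := meanZero hg hgc hg0 hg1 hgm
  -- the quadratic expansions
  have quad : ∀ k b0 b2 b4 : ℝ, (∫ r in (0:ℝ)..1,
      (k * F r + m * (b0 + b2 * r ^ 2 + b4 * r ^ 4)) ^ 2 * r) =
      k ^ 2 * A + 2 * k * m * (b0 * J0 + b2 * J2 + b4 * J4) +
      m ^ 2 * (b0 ^ 2 / 2 + 2 * b0 * b2 / 4 + (b2 ^ 2 + 2 * b0 * b4) / 6 + 2 * b2 * b4 / 8 +
        b4 ^ 2 / 10) := by
    intro k b0 b2 b4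
    have cp : Continuous fun r : ℝ => (b0 ^ 2 * r ^ 1 + (2 * b0 * b2) * r ^ 3 +
      (b2 ^ 2 + 2 * b0 * b4) * r ^ 5 + (2 * b2 * b4) * r ^ 7 + b4 ^ 2 * r ^ 9) := by fun_prop
    rw [lin5 cFF c1 c3 c5 cp (k ^ 2) (2 * k * m * b0) (2 * k * m * b2) (2 * k * m * b4) (m ^ 2)
      (by intro r; ring), poly, ← hA, ← hJ0, ← hJ2, ← hJ4]
    ring
  have e1 : (∫ r in (0:ℝ)..1, g r ^ 2 * r) =
      A - 2 * m * (17 / 25 * J0 - J2 + 8 / 25 * J4) + m ^ 2 * (379 / 6250) := by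
    have := quad 1 (-(17 / 25)) 1 (-(8 / 25))
    have e : (∫ r in (0:ℝ)..1, g r ^ 2 * r) = ∫ r in (0:ℝ)..1,
      (1 * F r + m * (-(17 / 25) + 1 * r ^ 2 + -(8 / 25) * r ^ 4)) ^ 2 * r := by
      congr 1; funext r
      show (F r - m * (17 / 25 - r ^ 2 + 8 / 25 * r ^ 4)) ^ 2 * r = _
      ring
    rw [e, this]
    ring
  have e2 : (∫ r in (0:ℝ)..1, g' r ^ 2 * r) =
      D - 2 * m * (-2 * K2 + 32 / 25 * K4) + m ^ 2 * (659 / 1875) := by
    have cp : Continuous fun r : ℝ => (0 * r ^ 1 + 4 * r ^ 3 +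
      (-(128 / 25)) * r ^ 5 + (32 / 25) ^ 2 * r ^ 7 + 0 * r ^ 9) := by fun_prop
    rw [lin5 cGG cH1 cH2 cp (continuous_pow 1) 1 (4 * m) (-2 * m * (32 / 25)) (m ^ 2) 0
      (by
        intro r
        show (F' r - m * (-2 * r + 32 / 25 * r ^ 3)) ^ 2 * r = _
        ring), poly, ← hD, ← hK2, ← hK4]
    ring
  have e3 : 0 ≤ ∫ r in (0:ℝ)..1, (1277 / 50 * F r + m * (-(141023 / 7500) + 4048 / 125 * r ^ 2 +
      -(8832 / 625) * r ^ 4)) ^ 2 * r := by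
    apply intervalIntegral.integral_nonneg (by norm_num)
    intro r hr
    exact mul_nonneg (sq_nonneg _) hr.1
  rw [quad] at e3
  rw [e1, e2, hp1, hp3, hm] at key
  rw [hm] at e3
  rw [← hA, ← hD, ← hJ0, hm]
  nlinarith [key, e3, sq_nonneg m]

end Pool.Agent.Lib.MP_9c48c1_an.Disk
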