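import Mathlib
import Pool.Agent.Lib.MP_9c48c1_an_disk.Defs
import Pool.Agent.Lib.MP_9c48c1_an_disk.G1

set_option autoImplicit false

/-! The angular average as a function on the plane (seat 5). -/

namespace Pool.Agent.Lib.MP_9c48c1_an.Disk

open MeasureTheory Set Pool.Agent.Lib.MP_9c48c1_an Filter Topology

/-- The Euclidean norm of a point of the plane. -/
noncomputable def rho (p : ℝ × ℝ) : ℝ := Real.sqrt (p.1 ^ 2 + p.2 ^ 2)

theorem rho_cont : Continuous rho := by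
  unfold rho
  fun_prop

theorem rho_zero : rho 0 = 0 := by simp [rho]

theorem rho_pos {p : ℝ × ℝ} (hp : p ≠ 0) : 0 < rho p := by
  unfold rho
  apply Real.sqrt_pos.2
  by_contra h
  apply hp
  have h1 : p.1 ^ 2 + p.2 ^ 2 = 0 := le_antisymm (not_lt.1 h) (by positivity)
  have h2 : p.1 = 0 := by nlinarith [sq_nonneg p.1, sq_nonneg p.2]
  have h3 : p.2 = 0 := by nlinarith [sq_nonneg p.1, sq_nonneg p.2]
  exact Prod.ext h2 h3

theorem abs_fst_le (p : ℝ × ℝ) : |p.1| ≤ rho p := by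
  unfold rho
  apply Real.abs_le_sqrt
  nlinarith [sq_nonneg p.2]

theorem abs_snd_le (p : ℝ × ℝ) : |p.2| ≤ rho p := by
  unfold rho
  apply Real.abs_le_sqrt
  nlinarith [sq_nonneg p.1]

theorem rho_le (p : ℝ × ℝ) : rho p ≤ 2 * ‖p‖ := by
  unfold rho
  apply Real.sqrt_le_iff.2
  have h1 : |p.1| ≤ ‖p‖ := by
    rw [← Real.norm_eq_abs]; exact norm_fst_le p
  have h2 : |p.2| ≤ ‖p‖ := by
    rw [← Real.norm_eq_abs]; exact norm_snd_le p
  refine ⟨by positivity, ?_⟩
  rw [← sq_abs p.1, ← sq_abs p.2]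
  nlinarith [abs_nonneg p.1, abs_nonneg p.2, norm_nonneg p]

theorem div_rho_le (p : ℝ × ℝ) (a : ℝ) (ha : |a| ≤ rho p) : |a / rho p| ≤ 1 := by
  have h7 : 0 ≤ rho p := Real.sqrt_nonneg _
  rw [abs_div, abs_of_nonneg h7]
  exact div_le_one_of_le₀ ha h7

/-- The derivative of the average. -/
noncomputable def LL' (G : ℝ × ℝ → ℝ) (p : ℝ × ℝ) : ℝ × ℝ →L[ℝ] ℝ :=
  (prof' G (rho p) * (p.1 / rho p)) • ContinuousLinearMap.fst ℝ ℝ ℝ +
    (prof' G (rho p) * (p.2 / rho p)) • ContinuousLinearMap.snd ℝ ℝ ℝ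

theorem coef_cont {G : ℝ × ℝ → ℝ} (hG : DAdm G) (a : ℝ × ℝ → ℝ) (ha : Continuous a)
    (hb : ∀ p, |a p| ≤ rho p) :
    Continuous (fun p => prof' G (rho p) * (a p / rho p)) := by
  have hc := (prof'_cont hG).comp rho_cont
  rw [continuous_iff_continuousAt]
  intro p
  by_cases hp : p = 0
  · subst hp
    have h0 : prof' G (rho 0) * (a 0 / rho 0) = 0 := by
      rw [rho_zero, prof'_zero hG, zero_mul]
    show Tendsto (fun p => prof' G (rho p) * (a p / rho p)) (𝓝 0)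
      (𝓝 (prof' G (rho 0) * (a 0 / rho 0)))
    rw [h0]
    have h1 : Tendsto (fun p => |prof' G (rho p)|) (𝓝 0) (𝓝 0) := by
      have h2 : Tendsto (fun p => |prof' G (rho p)|) (𝓝 0) (𝓝 |prof' G (rho 0)|) :=
        (hc.abs).continuousAt
      rw [rho_zero, prof'_zero hG, abs_zero] at h2
      exact h2
    refine squeeze_zero_norm (fun p => ?_) h1
    rw [Real.norm_eq_abs, abs_mul]
    calc |prof' G (rho p)| * |a p / rho p| ≤ |prof' G (rho p)| * 1 :=
          mul_le_mul_of_nonneg_left (div_rho_le p _ (hb p)) (abs_nonneg _)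
      _ = |prof' G (rho p)| := mul_one _
  · exact hc.continuousAt.mul
      (ha.continuousAt.div rho_cont.continuousAt (rho_pos hp).ne')

theorem LL'_cont {G : ℝ × ℝ → ℝ} (hG : DAdm G) : Continuous (LL' G) := by
  unfold LL'
  exact ((coef_cont hG (fun p => p.1) continuous_fst abs_fst_le).smul continuous_const).add
    ((coef_cont hG (fun p => p.2) continuous_snd abs_snd_le).smul continuous_const)

theorem avg_hasFDerivAt {G : ℝ × ℝ → ℝ} (hG : DAdm G) (p : ℝ × ℝ) :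
    HasFDerivAt (avg G) (LL' G p) p := by
  by_cases hp : p = 0
  · subst hp
    have h0 : LL' G 0 = 0 := by
      unfold LL'
      rw [rho_zero, prof'_zero hG]
      simp
    rw [h0, hasFDerivAt_iff_isLittleO_nhds_zero]
    have h1 := (hasDerivAt_iff_isLittleO_nhds_zero.1 (prof_deriv hG 0))
    rw [prof'_zero hG] at h1
    have h2 : Tendsto rho (𝓝 (0 : ℝ × ℝ)) (𝓝 0) := by
      have := rho_cont.continuousAt (x := (0 : ℝ × ℝ))
      unfold ContinuousAt at this
      rw [rho_zero] at this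
      exact this
    have h3 := h1.comp_tendsto h2
    have h4 : rho =O[𝓝 (0 : ℝ × ℝ)] (fun h : ℝ × ℝ => h) := by
      apply Asymptotics.IsBigO.of_bound 2
      refine Eventually.of_forall fun h => ?_
      have h7 : 0 ≤ rho h := Real.sqrt_nonneg _
      rw [Real.norm_eq_abs, abs_of_nonneg h7]
      exact rho_le h
    refine (h3.trans_isBigO h4).congr_left fun h => ?_
    simp only [Function.comp_apply, smul_zero, sub_zero, zero_add,
      zero_apply]
    have h5 : avg G h = prof G (rho h) := rfl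
    have h6 : avg G 0 = prof G 0 := by
      show prof G (rho 0) = _
      rw [rho_zero]
    rw [h5, h6]
  · have hq : HasFDerivAt (fun p : ℝ × ℝ => p.1 ^ 2 + p.2 ^ 2)
        ((2 * p.1) • ContinuousLinearMap.fst ℝ ℝ ℝ +
          (2 * p.2) • ContinuousLinearMap.snd ℝ ℝ ℝ) p := by
      have h1 := (hasFDerivAt_fst (𝕜 := ℝ) (p := p)).pow 2
      have h2 := (hasFDerivAt_snd (𝕜 := ℝ) (p := p)).pow 2
      have h3 := h1.add h2
      refine h3.congr_fderiv ?_
      ext <;> simp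
    have hpos := rho_pos hp
    have hne : p.1 ^ 2 + p.2 ^ 2 ≠ 0 := by
      intro h
      unfold rho at hpos
      rw [h, Real.sqrt_zero] at hpos
      exact lt_irrefl _ hpos
    have hs := hq.sqrt hne
    have hc := (prof_deriv hG (rho p)).comp_hasFDerivAt p hs
    refine hc.congr_fderiv ?_
    unfold LL'
    have he : Real.sqrt (p.1 ^ 2 + p.2 ^ 2) = rho p := rfl
    rw [he]
    ext
    · simp
      left
      field_simp
    · simp
      left
      field_simp

theorem avg_fderiv {G : ℝ × ℝ → ℝ} (hG : DAdm G) (p : ℝ × ℝ) :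
    fderiv ℝ (avg G) p = LL' G p := (avg_hasFDerivAt hG p).fderiv

theorem rho_polar (r θ : ℝ) (hr : 0 < r) : rho (r * Real.cos θ, r * Real.sin θ) = r := by
  unfold rho
  have h2 : (r * Real.cos θ) ^ 2 + (r * Real.sin θ) ^ 2 = r ^ 2 := by
    have := Real.cos_sq_add_sin_sq θ
    calc (r * Real.cos θ) ^ 2 + (r * Real.sin θ) ^ 2
        = r ^ 2 * (Real.cos θ ^ 2 + Real.sin θ ^ 2) := by ring
      _ = r ^ 2 := by rw [this, mul_one]
  simp only
  rw [h2]
  exact Real.sqrt_sq hr.le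

theorem avg_dx {G : ℝ × ℝ → ℝ} (hG : DAdm G) (r θ : ℝ) (hr : 0 < r) :
    dx (avg G) (r * Real.cos θ, r * Real.sin θ) = prof' G r * Real.cos θ := by
  unfold dx
  rw [avg_fderiv hG]
  unfold LL'
  rw [rho_polar r θ hr]
  simp
  left
  field_simp

theorem avg_dy {G : ℝ × ℝ → ℝ} (hG : DAdm G) (r θ : ℝ) (hr : 0 < r) :
    dy (avg G) (r * Real.cos θ, r * Real.sin θ) = prof' G r * Real.sin θ := by
  unfold dy
  rw [avg_fderiv hG]
  unfold LL'
  rw [rho_polar r θ hr]
  simp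
  left
  field_simp

theorem avg_DAdm {G : ℝ × ℝ → ℝ} (hG : DAdm G) : DAdm (avg G) := by
  have hR : ∃ R : ℝ, R < 1 ∧ ∀ p ∈ tsupport G, p.1 ^ 2 + p.2 ^ 2 ≤ R := by
    rcases (tsupport G).eq_empty_or_nonempty with h | h
    · refine ⟨0, one_pos, fun p hp => ?_⟩
      rw [h] at hp
      exact absurd hp (Set.notMem_empty p)
    · have hcont : ContinuousOn (fun p : ℝ × ℝ => p.1 ^ 2 + p.2 ^ 2) (tsupport G) := by
        fun_prop
      obtain ⟨q, hq, hmax⟩ := hG.2.1.isCompact.exists_isMaxOn h hcont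
      exact ⟨q.1 ^ 2 + q.2 ^ 2, hG.2.2 q hq, fun p hp => hmax hp⟩
  obtain ⟨R, hR1, hR2⟩ := hR
  have hzero : ∀ p : ℝ × ℝ, R < p.1 ^ 2 + p.2 ^ 2 → avg G p = 0 := by
    intro p hp
    have h : ∀ θ : ℝ, gp G (Real.sqrt (p.1 ^ 2 + p.2 ^ 2)) θ = 0 := by
      intro θ
      unfold gp
      apply image_eq_zero_of_notMem_tsupport
      intro hmem
      have h1 := hR2 _ hmem
      simp only at h1
      have h2 : (Real.sqrt (p.1 ^ 2 + p.2 ^ 2) * Real.cos θ) ^ 2 +
          (Real.sqrt (p.1 ^ 2 + p.2 ^ 2) * Real.sin θ) ^ 2 = p.1 ^ 2 + p.2 ^ 2 := by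
        have h3 := Real.cos_sq_add_sin_sq θ
        have h4 := Real.sq_sqrt (show 0 ≤ p.1 ^ 2 + p.2 ^ 2 by positivity)
        calc (Real.sqrt (p.1 ^ 2 + p.2 ^ 2) * Real.cos θ) ^ 2 +
          (Real.sqrt (p.1 ^ 2 + p.2 ^ 2) * Real.sin θ) ^ 2
            = Real.sqrt (p.1 ^ 2 + p.2 ^ 2) ^ 2 * (Real.cos θ ^ 2 + Real.sin θ ^ 2) := by ring
          _ = p.1 ^ 2 + p.2 ^ 2 := by rw [h3, h4, mul_one]
      linarith
    unfold avg prof
    simp only [h, intervalIntegral.integral_zero, mul_zero]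
  have hsub : tsupport (avg G) ⊆ {p : ℝ × ℝ | p.1 ^ 2 + p.2 ^ 2 ≤ R} := by
    apply closure_minimal
    · intro p hp
      by_contra h
      exact hp (hzero p (not_le.1 h))
    · exact isClosed_le (by fun_prop) continuous_const
  refine ⟨contDiff_one_iff_hasFDerivAt.2 ⟨LL' G, LL'_cont hG, avg_hasFDerivAt hG⟩, ?_, ?_⟩
  · refine HasCompactSupport.intro (K := Set.Icc (-1 : ℝ) 1 ×ˢ Set.Icc (-1 : ℝ) 1)
      (isCompact_Icc.prod isCompact_Icc) fun p hp => ?_
    apply hzero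
    by_contra h
    apply hp
    have h1 := not_lt.1 h
    refine ⟨abs_le.1 ?_, abs_le.1 ?_⟩
    · rw [← sq_le_one_iff_abs_le_one]
      nlinarith [sq_nonneg p.2]
    · rw [← sq_le_one_iff_abs_le_one]
      nlinarith [sq_nonneg p.1]
  · intro p hp
    exact lt_of_le_of_lt (hsub hp) hR1

end Pool.Agent.Lib.MP_9c48c1_an.Disk
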