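import Mathlib
import Pool.Agent.Lib.MP_9c48c1_an_disk.Defs
import Pool.Agent.Lib.MP_9c48c1_an_disk.C
import Pool.Agent.Lib.MP_9c48c1_an_disk.D1
import Pool.Agent.Lib.MP_9c48c1_an_disk.G1
import Pool.Agent.Lib.MP_9c48c1_an_disk.G2

set_option autoImplicit false

/-! The angular average: mass, energy, integral, bilinear form (helper4). -/

namespace Pool.Agent.Lib.MP_9c48c1_an.Disk

open MeasureTheory Set Pool.Agent.Lib.MP_9c48c1_an

theorem avg_polar_h4 (G : ℝ × ℝ → ℝ) {r : ℝ} (θ : ℝ) (hr : 0 ≤ r) :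
    avg G (r * Real.cos θ, r * Real.sin θ) = prof G r := by
  unfold avg
  have h : (r * Real.cos θ) ^ 2 + (r * Real.sin θ) ^ 2 = r ^ 2 := by
    have := Real.sin_sq_add_cos_sq θ
    linear_combination r ^ 2 * this
  simp only [h, Real.sqrt_sq hr]

theorem dx_out_h4 {G : ℝ × ℝ → ℝ} (hG : DAdm G) {p : ℝ × ℝ} (hp : 1 ≤ p.1 ^ 2 + p.2 ^ 2) :
    dx G p = 0 := by
  have h : p ∉ tsupport G := fun h => absurd (hG.2.2 p h) (not_lt.2 hp)
  unfold dx
  rw [fderiv_of_notMem_tsupport ℝ h]
  rfl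

theorem dy_out_h4 {G : ℝ × ℝ → ℝ} (hG : DAdm G) {p : ℝ × ℝ} (hp : 1 ≤ p.1 ^ 2 + p.2 ^ 2) :
    dy G p = 0 := by
  have h : p ∉ tsupport G := fun h => absurd (hG.2.2 p h) (not_lt.2 hp)
  unfold dy
  rw [fderiv_of_notMem_tsupport ℝ h]
  rfl

theorem avg_qN {G : ℝ × ℝ → ℝ} (hG : DAdm G) :
    qN (avg G) = 2 * Real.pi * ∫ r in (0:ℝ)..1, prof G r ^ 2 * r := by
  rw [qN_polar (avg_DAdm hG), ← intervalIntegral.integral_const_mul]
  refine intervalIntegral.integral_congr ?_
  intro r hr
  rw [uIcc_of_le zero_le_one] at hr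
  have h : ∀ θ : ℝ, gp (avg G) r θ = prof G r := fun θ => avg_polar_h4 G θ hr.1
  simp only [Nn, h, intervalIntegral.integral_const, smul_eq_mul]
  ring

theorem avg_sG {G : ℝ × ℝ → ℝ} (hG : DAdm G) :
    sG (avg G) = 2 * Real.pi * ∫ r in (0:ℝ)..1, prof' G r ^ 2 * r := by
  rw [sG_polar (avg_DAdm hG), ← intervalIntegral.integral_const_mul]
  refine intervalIntegral.integral_congr ?_
  intro r hr
  rw [uIcc_of_le zero_le_one] at hr
  rcases hr.1.eq_or_lt with h0 | h0
  · simp [← h0]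
  · have h1 : ∀ θ : ℝ, gr (avg G) r θ = prof' G r := by
      intro θ
      unfold gr
      rw [avg_dx hG r θ h0, avg_dy hG r θ h0]
      have := Real.sin_sq_add_cos_sq θ
      linear_combination prof' G r * this
    have h2 : ∀ θ : ℝ, gt (avg G) r θ = 0 := by
      intro θ
      unfold gt
      rw [avg_dx hG r θ h0, avg_dy hG r θ h0]
      ring
    simp only [Rr, Tt, h1, h2, intervalIntegral.integral_const, smul_eq_mul]
    ring

theorem avg_int {G : ℝ × ℝ → ℝ} (hG : DAdm G) :
    ∫ p, avg G p = 2 * Real.pi * ∫ r in (0:ℝ)..1, prof G r * r := by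
  have hA := avg_DAdm hG
  rw [polar_int hA.1.continuous (fun p hp => image_eq_zero_of_notMem_tsupport
    (fun h => absurd (hA.2.2 p h) (not_lt.2 hp))), ← intervalIntegral.integral_const_mul]
  refine intervalIntegral.integral_congr ?_
  intro r hr
  rw [uIcc_of_le zero_le_one] at hr
  have h : ∀ θ : ℝ, avg G (r * Real.cos θ, r * Real.sin θ) = prof G r :=
    fun θ => avg_polar_h4 G θ hr.1
  simp only [h, intervalIntegral.integral_const, smul_eq_mul]
  ring

theorem avg_dJ {G : ℝ × ℝ → ℝ} (hG : DAdm G) (c s : ℝ) : dJ c s (avg G) (avg G) = 0 := by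
  have hA := avg_DAdm hG
  have hcx := continuous_dx hA.1
  have hcy := continuous_dy hA.1
  unfold dJ
  rw [polar_int (φ := fun p => c * (dx (avg G) p * dx (avg G) p - dy (avg G) p * dy (avg G) p) +
    s * (dx (avg G) p * dy (avg G) p + dy (avg G) p * dx (avg G) p)) (by fun_prop) (by
      intro p hp
      simp only [dx_out_h4 hA hp, dy_out_h4 hA hp]
      ring)]
  refine (intervalIntegral.integral_congr (g := fun _ => (0:ℝ)) ?_).trans (by simp)
  intro r hr
  rw [uIcc_of_le zero_le_one] at hr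
  rcases hr.1.eq_or_lt with h0 | h0
  · simp [← h0]
  · have h1 : ∀ θ : ℝ, c * (dx (avg G) (r * Real.cos θ, r * Real.sin θ) *
        dx (avg G) (r * Real.cos θ, r * Real.sin θ) -
        dy (avg G) (r * Real.cos θ, r * Real.sin θ) *
        dy (avg G) (r * Real.cos θ, r * Real.sin θ)) +
        s * (dx (avg G) (r * Real.cos θ, r * Real.sin θ) *
        dy (avg G) (r * Real.cos θ, r * Real.sin θ) +
        dy (avg G) (r * Real.cos θ, r * Real.sin θ) *
        dx (avg G) (r * Real.cos θ, r * Real.sin θ)) =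
        (prof' G r ^ 2 * c) * (Real.cos θ ^ 2 - Real.sin θ ^ 2) +
        (2 * prof' G r ^ 2 * s) * (Real.sin θ * Real.cos θ) := by
      intro θ
      rw [avg_dx hG r θ h0, avg_dy hG r θ h0]
      ring
    simp only [h1]
    rw [intervalIntegral.integral_add
      (Continuous.intervalIntegrable (by fun_prop) _ _)
      (Continuous.intervalIntegrable (by fun_prop) _ _),
      intervalIntegral.integral_const_mul, intervalIntegral.integral_const_mul,
      integral_cos_sq_sub_sin_sq, integral_sin_mul_cos₁]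
    simp

end Pool.Agent.Lib.MP_9c48c1_an.Disk
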