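import Mathlib
import Pool.Agent.Lib.MP_9c48c1_an_disk.Defs
import Pool.Agent.Lib.MP_9c48c1_an_disk.C
import Pool.Agent.Lib.MP_9c48c1_an_disk.D1
import Pool.Agent.Lib.MP_9c48c1_an_disk.G1
import Pool.Agent.Lib.MP_9c48c1_an_disk.G2

set_option autoImplicit false

/-! The splitting into the angular average and the rest (helper4). -/

namespace Pool.Agent.Lib.MP_9c48c1_an.Disk

open MeasureTheory Set Pool.Agent.Lib.MP_9c48c1_an

theorem gp_per_h4 (G : ℝ × ℝ → ℝ) (r : ℝ) : Function.Periodic (gp G r) (2 * Real.pi) := by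
  intro θ
  unfold gp
  rw [Real.cos_add_two_pi, Real.sin_add_two_pi]

theorem prof_neg_h4 (G : ℝ × ℝ → ℝ) (r : ℝ) : prof G (-r) = prof G r := by
  unfold prof
  congr 1
  have h : ∀ θ : ℝ, gp G (-r) θ = gp G r (θ + Real.pi) := by
    intro θ
    unfold gp
    rw [Real.cos_add_pi, Real.sin_add_pi]
    congr 1
    ext <;> simp
  simp only [h]
  rw [intervalIntegral.integral_comp_add_right (fun θ => gp G r θ)]
  have h2 := (gp_per_h4 G r).intervalIntegral_add_eq (-Real.pi) 0
  have e1 : -Real.pi + 2 * Real.pi = Real.pi := by ring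
  have e2 : (0:ℝ) + 2 * Real.pi = Real.pi + Real.pi := by ring
  rw [e1, e2] at h2
  rw [neg_add_cancel, h2]

theorem prof_abs_h4 (G : ℝ × ℝ → ℝ) (r : ℝ) : prof G |r| = prof G r := by
  rcases abs_choice r with h | h
  · rw [h]
  · rw [h, prof_neg_h4]

theorem avg_polar_all_h4 (G : ℝ × ℝ → ℝ) (r θ : ℝ) :
    avg G (r * Real.cos θ, r * Real.sin θ) = prof G r := by
  unfold avg
  have h : (r * Real.cos θ) ^ 2 + (r * Real.sin θ) ^ 2 = r ^ 2 := by
    have := Real.sin_sq_add_cos_sq θ
    linear_combination r ^ 2 * this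
  simp only [h, Real.sqrt_sq_eq_abs, prof_abs_h4]

theorem rest_mean {G : ℝ × ℝ → ℝ} (hG : DAdm G) (r : ℝ) :
    ∫ θ in (-Real.pi)..Real.pi, gp (fun p => G p - avg G p) r θ = 0 := by
  have hGc := hG.1.continuous
  have h : ∀ θ : ℝ, gp (fun p => G p - avg G p) r θ = gp G r θ - prof G r := by
    intro θ
    change G (r * Real.cos θ, r * Real.sin θ) - avg G (r * Real.cos θ, r * Real.sin θ) = _
    rw [avg_polar_all_h4]
    rfl
  simp only [h]
  rw [intervalIntegral.integral_sub
    (Continuous.intervalIntegrable (by unfold gp; fun_prop) _ _)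
    (Continuous.intervalIntegrable (by fun_prop) _ _),
    intervalIntegral.integral_const]
  unfold prof
  have := Real.pi_pos.ne'
  simp only [smul_eq_mul]
  field_simp
  ring

theorem rest_gr_mean_h4 {G : ℝ × ℝ → ℝ} (hG : DAdm G) {r : ℝ} (hr : 0 < r) :
    ∫ θ in (-Real.pi)..Real.pi, gr (fun p => G p - avg G p) r θ = 0 := by
  have hA := avg_DAdm hG
  have hcx := continuous_dx hG.1
  have hcy := continuous_dy hG.1
  have h : ∀ θ : ℝ, gr (fun p => G p - avg G p) r θ = gr G r θ - prof' G r := by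
    intro θ
    have e1 : ∀ p, dx (fun p => G p - avg G p) p = dx G p - dx (avg G) p := by
      intro p
      unfold dx
      rw [fderiv_fun_sub (hG.1.differentiable one_ne_zero _) (hA.1.differentiable one_ne_zero _)]
      rfl
    have e2 : ∀ p, dy (fun p => G p - avg G p) p = dy G p - dy (avg G) p := by
      intro p
      unfold dy
      rw [fderiv_fun_sub (hG.1.differentiable one_ne_zero _) (hA.1.differentiable one_ne_zero _)]
      rfl
    unfold gr
    rw [e1, e2, avg_dx hG r θ hr, avg_dy hG r θ hr]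
    have := Real.sin_sq_add_cos_sq θ
    linear_combination (-prof' G r) * this
  simp only [h]
  rw [intervalIntegral.integral_sub
    (Continuous.intervalIntegrable (by unfold gr; fun_prop) _ _)
    (Continuous.intervalIntegrable (by fun_prop) _ _),
    intervalIntegral.integral_const]
  unfold prof'
  have := Real.pi_pos.ne'
  simp only [smul_eq_mul]
  field_simp
  ring

theorem int_h4 {φ : ℝ × ℝ → ℝ} (hφ : Continuous φ)
    (hs : ∀ p : ℝ × ℝ, 1 ≤ p.1 ^ 2 + p.2 ^ 2 → φ p = 0) : Integrable φ := by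
  refine hφ.integrable_of_hasCompactSupport ?_
  refine HasCompactSupport.of_support_subset_isCompact
    ((isCompact_Icc (a := (-1:ℝ)) (b := 1)).prod (isCompact_Icc (a := (-1:ℝ)) (b := 1))) ?_
  intro p hp
  have h1 : p.1 ^ 2 + p.2 ^ 2 < 1 := by
    by_contra hcon
    exact hp (hs p (not_lt.1 hcon))
  refine ⟨⟨?_, ?_⟩, ⟨?_, ?_⟩⟩ <;> nlinarith [sq_nonneg p.1, sq_nonneg p.2]

theorem zero_h4 {G : ℝ × ℝ → ℝ} (hG : DAdm G) {p : ℝ × ℝ} (hp : 1 ≤ p.1 ^ 2 + p.2 ^ 2) :
    G p = 0 := image_eq_zero_of_notMem_tsupport (fun h => absurd (hG.2.2 p h) (not_lt.2 hp))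

theorem dx0_h4 {G : ℝ × ℝ → ℝ} (hG : DAdm G) {p : ℝ × ℝ} (hp : 1 ≤ p.1 ^ 2 + p.2 ^ 2) :
    dx G p = 0 := by
  have h : p ∉ tsupport G := fun h => absurd (hG.2.2 p h) (not_lt.2 hp)
  unfold dx
  rw [fderiv_of_notMem_tsupport ℝ h]
  rfl

theorem dy0_h4 {G : ℝ × ℝ → ℝ} (hG : DAdm G) {p : ℝ × ℝ} (hp : 1 ≤ p.1 ^ 2 + p.2 ^ 2) :
    dy G p = 0 := by
  have h : p ∉ tsupport G := fun h => absurd (hG.2.2 p h) (not_lt.2 hp)
  unfold dy
  rw [fderiv_of_notMem_tsupport ℝ h]
  rfl

theorem qN_split {G : ℝ × ℝ → ℝ} (hG : DAdm G) :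
    qN G = qN (avg G) + qN (fun p => G p - avg G p) := by
  have hA := avg_DAdm hG
  have hGc := hG.1.continuous
  have hAc := hA.1.continuous
  have hcross : ∫ p, avg G p * (G p - avg G p) = 0 := by
    rw [polar_int (φ := fun p => avg G p * (G p - avg G p)) (by fun_prop) (by
      intro p hp
      simp only [zero_h4 hA hp, zero_mul])]
    refine (intervalIntegral.integral_congr (g := fun _ => (0:ℝ)) ?_).trans (by simp)
    intro r _
    have h1 : ∀ θ : ℝ, avg G (r * Real.cos θ, r * Real.sin θ) *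
        (G (r * Real.cos θ, r * Real.sin θ) - avg G (r * Real.cos θ, r * Real.sin θ)) =
        prof G r * gp (fun p => G p - avg G p) r θ := by
      intro θ
      change _ = prof G r * (G (r * Real.cos θ, r * Real.sin θ) -
        avg G (r * Real.cos θ, r * Real.sin θ))
      rw [avg_polar_all_h4]
    simp only [h1]
    rw [intervalIntegral.integral_const_mul, rest_mean hG r]
    ring
  have i1 : Integrable (fun p => avg G p ^ 2) := int_h4 (by fun_prop) (by
    intro p hp; simp [zero_h4 hA hp])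
  have i2 : Integrable (fun p => (G p - avg G p) ^ 2) := int_h4 (by fun_prop) (by
    intro p hp; simp [zero_h4 hA hp, zero_h4 hG hp])
  have i3 : Integrable (fun p => 2 * (avg G p * (G p - avg G p))) := int_h4 (by fun_prop) (by
    intro p hp; simp [zero_h4 hA hp])
  unfold qN
  have e : ∀ p : ℝ × ℝ, G p ^ 2 = (avg G p ^ 2 + (G p - avg G p) ^ 2) +
      2 * (avg G p * (G p - avg G p)) := fun p => by ring
  simp only [e]
  have k1 : Integrable (fun p => avg G p ^ 2 + (G p - avg G p) ^ 2) := i1.add i2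
  rw [integral_add k1 i3, integral_add i1 i2, integral_const_mul, hcross]
  ring

theorem sG_split {G : ℝ × ℝ → ℝ} (hG : DAdm G) :
    sG G = sG (avg G) + sG (fun p => G p - avg G p) := by
  have hA := avg_DAdm hG
  have e1 : ∀ p, dx (fun p => G p - avg G p) p = dx G p - dx (avg G) p := by
    intro p
    unfold dx
    rw [fderiv_fun_sub (hG.1.differentiable one_ne_zero _) (hA.1.differentiable one_ne_zero _)]
    rfl
  have e2 : ∀ p, dy (fun p => G p - avg G p) p = dy G p - dy (avg G) p := by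
    intro p
    unfold dy
    rw [fderiv_fun_sub (hG.1.differentiable one_ne_zero _) (hA.1.differentiable one_ne_zero _)]
    rfl
  have hcx := continuous_dx hG.1
  have hcy := continuous_dy hG.1
  have hax := continuous_dx hA.1
  have hay := continuous_dy hA.1
  have hcross : ∫ p, (dx (avg G) p * (dx G p - dx (avg G) p) +
      dy (avg G) p * (dy G p - dy (avg G) p)) = 0 := by
    rw [polar_int (φ := fun p => dx (avg G) p * (dx G p - dx (avg G) p) +
      dy (avg G) p * (dy G p - dy (avg G) p)) (by fun_prop) (by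
      intro p hp
      simp only [dx0_h4 hA hp, dy0_h4 hA hp, zero_mul, add_zero])]
    refine (intervalIntegral.integral_congr (g := fun _ => (0:ℝ)) ?_).trans (by simp)
    intro r hr
    rw [uIcc_of_le zero_le_one] at hr
    rcases hr.1.eq_or_lt with h0 | h0
    · simp [← h0]
    · have h1 : ∀ θ : ℝ, dx (avg G) (r * Real.cos θ, r * Real.sin θ) *
          (dx G (r * Real.cos θ, r * Real.sin θ) - dx (avg G) (r * Real.cos θ, r * Real.sin θ)) +
          dy (avg G) (r * Real.cos θ, r * Real.sin θ) *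
          (dy G (r * Real.cos θ, r * Real.sin θ) - dy (avg G) (r * Real.cos θ, r * Real.sin θ)) =
          prof' G r * gr (fun p => G p - avg G p) r θ := by
        intro θ
        unfold gr
        rw [e1, e2, avg_dx hG r θ h0, avg_dy hG r θ h0]
        ring
      simp only [h1]
      rw [intervalIntegral.integral_const_mul, rest_gr_mean_h4 hG h0]
      ring
  have i1 : Integrable (fun p => dx (avg G) p ^ 2) := int_h4 (by fun_prop) (by
    intro p hp; simp [dx0_h4 hA hp])
  have i2 : Integrable (fun p => dy (avg G) p ^ 2) := int_h4 (by fun_prop) (by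
    intro p hp; simp [dy0_h4 hA hp])
  have i3 : Integrable (fun p => (dx G p - dx (avg G) p) ^ 2) := int_h4 (by fun_prop) (by
    intro p hp; simp [dx0_h4 hA hp, dx0_h4 hG hp])
  have i4 : Integrable (fun p => (dy G p - dy (avg G) p) ^ 2) := int_h4 (by fun_prop) (by
    intro p hp; simp [dy0_h4 hA hp, dy0_h4 hG hp])
  have i5 : Integrable (fun p => dx (avg G) p * (dx G p - dx (avg G) p) +
      dy (avg G) p * (dy G p - dy (avg G) p)) := int_h4 (by fun_prop) (by
    intro p hp; simp [dx0_h4 hA hp, dy0_h4 hA hp])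
  have j1 : Integrable (fun p => dx G p ^ 2) := int_h4 (by fun_prop) (by
    intro p hp; simp [dx0_h4 hG hp])
  have j2 : Integrable (fun p => dy G p ^ 2) := int_h4 (by fun_prop) (by
    intro p hp; simp [dy0_h4 hG hp])
  unfold sG q11 q22
  simp only [e1, e2]
  rw [← integral_add j1 j2]
  have e : ∀ p : ℝ × ℝ, dx G p ^ 2 + dy G p ^ 2 =
      ((dx (avg G) p ^ 2 + dy (avg G) p ^ 2) +
        ((dx G p - dx (avg G) p) ^ 2 + (dy G p - dy (avg G) p) ^ 2)) +
      2 * (dx (avg G) p * (dx G p - dx (avg G) p) +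
        dy (avg G) p * (dy G p - dy (avg G) p)) := fun p => by ring
  simp only [e]
  have k1 : Integrable (fun p => dx (avg G) p ^ 2 + dy (avg G) p ^ 2) := i1.add i2
  have k2 : Integrable (fun p => (dx G p - dx (avg G) p) ^ 2 + (dy G p - dy (avg G) p) ^ 2) :=
    i3.add i4
  have k3 : Integrable (fun p => (dx (avg G) p ^ 2 + dy (avg G) p ^ 2) +
      ((dx G p - dx (avg G) p) ^ 2 + (dy G p - dy (avg G) p) ^ 2)) := k1.add k2
  have k4 : Integrable (fun p => 2 * (dx (avg G) p * (dx G p - dx (avg G) p) +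
      dy (avg G) p * (dy G p - dy (avg G) p))) := i5.const_mul 2
  rw [integral_add k3 k4, integral_add k1 k2, integral_add i1 i2, integral_add i3 i4,
    integral_const_mul, hcross]
  ring

end Pool.Agent.Lib.MP_9c48c1_an.Disk
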