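import Mathlib
import Pool.Agent.Lib.MP_9c48c1_an_disk.Defs

set_option autoImplicit false

/-! Module I (helper92): Cauchy - Schwarz for the traceless form on the disk. -/

namespace Pool.Agent.Lib.MP_9c48c1_an.Disk

open MeasureTheory Set Pool.Agent.Lib.MP_9c48c1_an

namespace IAux

/-- the open unit disk in the plane of pairs -/
def Dd : Set (ℝ × ℝ) := {p | p.1 ^ 2 + p.2 ^ 2 < 1}

theorem meas_Dd : MeasurableSet Dd :=
  (isOpen_lt (by fun_prop) continuous_const).measurableSet

theorem Dd_sub : Dd ⊆ Icc ((-1, -1) : ℝ × ℝ) (1, 1) := by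
  rintro ⟨x, y⟩ h
  simp only [Dd, mem_ofPred_eq] at h
  refine ⟨⟨?_, ?_⟩, ⟨?_, ?_⟩⟩ <;> simp only <;> nlinarith [sq_nonneg x, sq_nonneg y]

theorem int_Dd {f : ℝ × ℝ → ℝ} (hf : Continuous f) : IntegrableOn f Dd :=
  (hf.continuousOn.integrableOn_compact isCompact_Icc).mono_set Dd_sub

theorem add_D {f g : ℝ × ℝ → ℝ} (hf : Continuous f) (hg : Continuous g) :
    ∫ p in Dd, (f p + g p) = (∫ p in Dd, f p) + ∫ p in Dd, g p :=
  integral_add (int_Dd hf) (int_Dd hg)

theorem zero_off {G : ℝ × ℝ → ℝ} (hG : DAdm G) {p : ℝ × ℝ} (hp : p ∉ Dd) :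
    G p = 0 ∧ dx G p = 0 ∧ dy G p = 0 := by
  have h1 : p ∉ tsupport G := fun h => hp (hG.2.2 p h)
  have h2 : fderiv ℝ G p = 0 := fderiv_of_notMem_tsupport ℝ h1
  exact ⟨image_eq_zero_of_notMem_tsupport h1, by simp [dx, h2], by simp [dy, h2]⟩

theorem ibp {H : ℝ × ℝ → ℝ} (hH : DAdm H) (L : (ℝ × ℝ) →L[ℝ] ℝ) (v : ℝ × ℝ) :
    ∫ p, L p * fderiv ℝ H p v = -(L v * ∫ p, H p) := by
  have hc := hH.1.continuous
  have hd : Continuous fun p => fderiv ℝ H p v :=
    (hH.1.continuous_fderiv one_ne_zero).clm_apply continuous_const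
  have hs : HasCompactSupport fun p => fderiv ℝ H p v := hH.2.1.fderiv_apply ℝ v
  have hLd : ∀ p, fderiv ℝ (fun p => L p) p v = L v := by
    intro p
    rw [show (fun p => L p) = ⇑L from rfl, L.fderiv]
  have h := integral_mul_fderiv_eq_neg_fderiv_mul_of_integrable (μ := (volume : Measure (ℝ × ℝ)))
    (f := fun p => L p) (g := H) (v := v) ?_ ?_ ?_ ?_ ?_
  · rw [h]
    simp only [hLd]
    rw [integral_const_mul]
  · simp only [hLd]
    exact (hc.integrable_of_hasCompactSupport hH.2.1).const_mul _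
  · exact (L.continuous.mul hd).integrable_of_hasCompactSupport hs.mul_left
  · exact (L.continuous.mul hc).integrable_of_hasCompactSupport hH.2.1.mul_left
  · exact fun x _ => L.differentiable x
  · exact fun x _ => hH.1.differentiable one_ne_zero x

theorem disk_moment : ∫ p in Dd, (p.1 ^ 2 + p.2 ^ 2) = Real.pi / 2 := by
  rw [← integral_indicator meas_Dd, ← integral_comp_polarCoord_symm]
  have h1 : ∫ q in polarCoord.target, q.1 • Dd.indicator (fun p : ℝ × ℝ => p.1 ^ 2 + p.2 ^ 2)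
      (polarCoord.symm q) =
      ∫ q in Ioi (0 : ℝ) ×ˢ Ioo (-Real.pi) Real.pi,
        (Iio (1 : ℝ)).indicator (fun r => r ^ 3) q.1 * (fun _ : ℝ => (1 : ℝ)) q.2 := by
    rw [polarCoord_target]
    refine setIntegral_congr_fun (measurableSet_Ioi.prod measurableSet_Ioo) ?_
    rintro ⟨r, θ⟩ ⟨hr, -⟩
    simp only [mem_Ioi] at hr
    have h2 : (r * Real.cos θ) ^ 2 + (r * Real.sin θ) ^ 2 = r ^ 2 := by
      have := Real.cos_sq_add_sin_sq θ
      nlinarith
    simp only [polarCoord_symm_apply, smul_eq_mul, mul_one]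
    by_cases hr1 : r < 1
    · rw [indicator_of_mem (show (r * Real.cos θ, r * Real.sin θ) ∈ Dd by
        simp only [Dd, mem_ofPred_eq, h2]; nlinarith), indicator_of_mem (show r ∈ Iio (1 : ℝ) from hr1)]
      simp only [h2]
      ring
    · rw [indicator_of_notMem (show (r * Real.cos θ, r * Real.sin θ) ∉ Dd by
        simp only [Dd, mem_ofPred_eq, h2]; nlinarith), indicator_of_notMem (show r ∉ Iio (1 : ℝ) from hr1)]
      ring
  rw [h1, Measure.volume_eq_prod, setIntegral_prod_mul (fun r => (Iio (1 : ℝ)).indicator (fun r => r ^ 3) r)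
    (fun _ : ℝ => (1 : ℝ))]
  have h3 : ∫ r in Ioi (0 : ℝ), (Iio (1 : ℝ)).indicator (fun r => r ^ 3) r = 1 / 4 := by
    rw [setIntegral_indicator measurableSet_Iio, Ioi_inter_Iio, ← integral_Ioc_eq_integral_Ioo,
      ← intervalIntegral.integral_of_le (by norm_num), integral_pow]
    norm_num
  have h4 : ∫ _ in Ioo (-Real.pi) Real.pi, (1 : ℝ) = 2 * Real.pi := by
    simp only [integral_const, MeasurableSet.univ, measureReal_restrict_apply, univ_inter, smul_eq_mul,
      mul_one]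
    rw [Real.volume_real_Ioo_of_le (by linarith [Real.pi_pos])]
    ring
  rw [h3, h4]
  ring

theorem set_eq {F : ℝ × ℝ → ℝ} (h : ∀ p, p ∉ Dd → F p = 0) : ∫ p in Dd, F p = ∫ p, F p :=
  setIntegral_eq_integral_of_forall_compl_eq_zero h

/-- the square integral of `grad G - a x` over the disk -/
theorem sq_int {G : ℝ × ℝ → ℝ} (hG : DAdm G) (a : ℝ) :
    ∫ p in Dd, ((dx G p - a * p.1) ^ 2 + (dy G p - a * p.2) ^ 2) =
      sG G + 4 * a * (∫ p, G p) + a ^ 2 * (Real.pi / 2) := by
  have cx := continuous_dx hG.1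
  have cy := continuous_dy hG.1
  have sx := hcs_dx hG.2.1
  have sy := hcs_dy hG.2.1
  have e1 : ∀ p : ℝ × ℝ, (dx G p - a * p.1) ^ 2 + (dy G p - a * p.2) ^ 2 =
      (dx G p ^ 2 + dy G p ^ 2) + ((-2 * a) * (p.1 * dx G p + p.2 * dy G p) + a ^ 2 * (p.1 ^ 2 + p.2 ^ 2)) := by
    intro p; ring
  simp only [e1]
  rw [add_D (f := fun p => dx G p ^ 2 + dy G p ^ 2) (g := fun p =>
      (-2 * a) * (p.1 * dx G p + p.2 * dy G p) + a ^ 2 * (p.1 ^ 2 + p.2 ^ 2)) (by fun_prop) (by fun_prop),
    add_D (f := fun p => (-2 * a) * (p.1 * dx G p + p.2 * dy G p)) (g := fun p =>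
      a ^ 2 * (p.1 ^ 2 + p.2 ^ 2)) (by fun_prop) (by fun_prop), integral_const_mul,
    integral_const_mul, disk_moment]
  have h1 : ∫ p in Dd, (dx G p ^ 2 + dy G p ^ 2) = sG G := by
    rw [set_eq (fun p hp => by obtain ⟨-, h2, h3⟩ := zero_off hG hp; rw [h2, h3]; ring)]
    rw [integral_add (int_sq cx sx) (int_sq cy sy)]
    rfl
  have h2 : ∫ p in Dd, (p.1 * dx G p + p.2 * dy G p) = -2 * ∫ p, G p := by
    rw [set_eq (fun p hp => by obtain ⟨-, h2, h3⟩ := zero_off hG hp; rw [h2, h3]; ring)]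
    have i1 : Integrable fun p : ℝ × ℝ => p.1 * dx G p :=
      (continuous_fst.mul cx).integrable_of_hasCompactSupport sx.mul_left
    have i2 : Integrable fun p : ℝ × ℝ => p.2 * dy G p :=
      (continuous_snd.mul cy).integrable_of_hasCompactSupport sy.mul_left
    rw [integral_add i1 i2]
    have b1 := ibp hG (ContinuousLinearMap.fst ℝ ℝ ℝ) (1, 0)
    have b2 := ibp hG (ContinuousLinearMap.snd ℝ ℝ ℝ) (0, 1)
    simp only [ContinuousLinearMap.coe_fst', ContinuousLinearMap.coe_snd', one_mul] at b1 b2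
    change (∫ p : ℝ × ℝ, p.1 * fderiv ℝ G p (1, 0)) + (∫ p : ℝ × ℝ, p.2 * fderiv ℝ G p (0, 1)) = _
    rw [b1, b2]
    ring
  rw [h1, h2]
  ring

theorem cross_rep {G H : ℝ × ℝ → ℝ} (hG : DAdm G) (hH : DAdm H) (c s a : ℝ) :
    dJ c s G H = ∫ p in Dd, ((c * (dx G p - a * p.1) + s * (dy G p - a * p.2)) * dx H p +
      (s * (dx G p - a * p.1) - c * (dy G p - a * p.2)) * dy H p) := by
  have cx := continuous_dx hG.1
  have cy := continuous_dy hG.1
  have kx := continuous_dx hH.1
  have ky := continuous_dy hH.1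
  have sx := hcs_dx hH.2.1
  have sy := hcs_dy hH.2.1
  rw [set_eq (fun p hp => by obtain ⟨-, h2, h3⟩ := zero_off hH hp; rw [h2, h3]; ring)]
  have e1 : ∀ p : ℝ × ℝ, (c * (dx G p - a * p.1) + s * (dy G p - a * p.2)) * dx H p +
      (s * (dx G p - a * p.1) - c * (dy G p - a * p.2)) * dy H p =
      (c * (dx G p * dx H p - dy G p * dy H p) + s * (dx G p * dy H p + dy G p * dx H p)) +
      ((-a * c) * (p.1 * dx H p) + ((-a * s) * (p.2 * dx H p) + ((-a * s) * (p.1 * dy H p) +
        (a * c) * (p.2 * dy H p)))) := by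
    intro p; ring
  simp only [e1]
  have i0 : Integrable fun p : ℝ × ℝ =>
      (c * (dx G p * dx H p - dy G p * dy H p) + s * (dx G p * dy H p + dy G p * dx H p)) := by
    refine Continuous.integrable_of_hasCompactSupport (by fun_prop) ?_
    exact (((sx.mul_left (f := dx G)).sub (sy.mul_left (f := dy G))).mul_left (f := fun _ => c)).add
      (((sy.mul_left (f := dx G)).add (sx.mul_left (f := dy G))).mul_left (f := fun _ => s))
  have i1 : Integrable fun p : ℝ × ℝ => p.1 * dx H p :=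
    (continuous_fst.mul kx).integrable_of_hasCompactSupport sx.mul_left
  have i2 : Integrable fun p : ℝ × ℝ => p.2 * dx H p :=
    (continuous_snd.mul kx).integrable_of_hasCompactSupport sx.mul_left
  have i3 : Integrable fun p : ℝ × ℝ => p.1 * dy H p :=
    (continuous_fst.mul ky).integrable_of_hasCompactSupport sy.mul_left
  have i4 : Integrable fun p : ℝ × ℝ => p.2 * dy H p :=
    (continuous_snd.mul ky).integrable_of_hasCompactSupport sy.mul_left
  have j1 : Integrable fun p : ℝ × ℝ => (-a * c) * (p.1 * dx H p) := i1.const_mul _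
  have j2 : Integrable fun p : ℝ × ℝ => (-a * s) * (p.2 * dx H p) := i2.const_mul _
  have j3 : Integrable fun p : ℝ × ℝ => (-a * s) * (p.1 * dy H p) := i3.const_mul _
  have j4 : Integrable fun p : ℝ × ℝ => (a * c) * (p.2 * dy H p) := i4.const_mul _
  have j34 : Integrable fun p : ℝ × ℝ => (-a * s) * (p.1 * dy H p) + (a * c) * (p.2 * dy H p) := j3.add j4
  have j234 : Integrable fun p : ℝ × ℝ => (-a * s) * (p.2 * dx H p) + ((-a * s) * (p.1 * dy H p) +
    (a * c) * (p.2 * dy H p)) := j2.add j34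
  have j1234 : Integrable fun p : ℝ × ℝ => (-a * c) * (p.1 * dx H p) + ((-a * s) * (p.2 * dx H p) +
    ((-a * s) * (p.1 * dy H p) + (a * c) * (p.2 * dy H p))) := j1.add j234
  rw [integral_add i0 j1234, integral_add j1 j234, integral_add j2 j34, integral_add j3 j4,
    integral_const_mul, integral_const_mul, integral_const_mul, integral_const_mul]
  have b1 := ibp hH (ContinuousLinearMap.fst ℝ ℝ ℝ) (1, 0)
  have b2 := ibp hH (ContinuousLinearMap.snd ℝ ℝ ℝ) (1, 0)
  have b3 := ibp hH (ContinuousLinearMap.fst ℝ ℝ ℝ) (0, 1)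
  have b4 := ibp hH (ContinuousLinearMap.snd ℝ ℝ ℝ) (0, 1)
  simp only [ContinuousLinearMap.coe_fst', ContinuousLinearMap.coe_snd', one_mul, zero_mul] at b1 b2 b3 b4
  change _ = dJ c s G H + (-a * c * (∫ p : ℝ × ℝ, p.1 * fderiv ℝ H p (1, 0)) +
    (-a * s * (∫ p : ℝ × ℝ, p.2 * fderiv ℝ H p (1, 0)) +
    (-a * s * (∫ p : ℝ × ℝ, p.1 * fderiv ℝ H p (0, 1)) + a * c * (∫ p : ℝ × ℝ, p.2 * fderiv ℝ H p (0, 1)))))
  rw [b1, b2, b3, b4]
  ring

end IAux

open IAux

theorem X_nonneg {G : ℝ × ℝ → ℝ} (hG : DAdm G) : 0 ≤ sG G - 8 / Real.pi * (∫ p, G p) ^ 2 := by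
  have h := sq_int hG (-4 * (∫ p, G p) / Real.pi)
  have h0 : 0 ≤ ∫ p in Dd, ((dx G p - (-4 * (∫ p, G p) / Real.pi) * p.1) ^ 2 +
      (dy G p - (-4 * (∫ p, G p) / Real.pi) * p.2) ^ 2) :=
    integral_nonneg fun p => by positivity
  rw [h] at h0
  have hpi := Real.pi_pos
  have e : sG G + 4 * (-4 * (∫ p, G p) / Real.pi) * (∫ p, G p) +
      (-4 * (∫ p, G p) / Real.pi) ^ 2 * (Real.pi / 2) = sG G - 8 / Real.pi * (∫ p, G p) ^ 2 := by
    field_simp
    ring
  rwa [e] at h0

theorem cross_bound {G H : ℝ × ℝ → ℝ} (hG : DAdm G) (hH : DAdm H) {c s : ℝ} (hcs : c ^ 2 + s ^ 2 = 1) :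
    dJ c s G H ^ 2 ≤ sG H * (sG G - 8 / Real.pi * (∫ p, G p) ^ 2) := by
  have hpi := Real.pi_pos
  set a : ℝ := -4 * (∫ p, G p) / Real.pi with ha
  have cx := continuous_dx hG.1
  have cy := continuous_dy hG.1
  have kx := continuous_dx hH.1
  have ky := continuous_dy hH.1
  have e : sG G + 4 * a * (∫ p, G p) + a ^ 2 * (Real.pi / 2) = sG G - 8 / Real.pi * (∫ p, G p) ^ 2 := by
    rw [ha]
    field_simp
    ring
  have hU := sq_int hG a
  rw [e] at hU
  have hC := cross_rep hG hH c s a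
  have hS : ∫ p in Dd, (dx H p ^ 2 + dy H p ^ 2) = sG H := by
    have h := sq_int hH 0
    simpa using h
  have key : ∀ t : ℝ, 0 ≤ sG H * (t * t) + 2 * dJ c s G H * t + (sG G - 8 / Real.pi * (∫ p, G p) ^ 2) := by
    intro t
    have h0 : 0 ≤ ∫ p in Dd, (((c * (dx G p - a * p.1) + s * (dy G p - a * p.2)) + t * dx H p) ^ 2 +
        ((s * (dx G p - a * p.1) - c * (dy G p - a * p.2)) + t * dy H p) ^ 2) :=
      integral_nonneg fun p => by positivity
    have e2 : ∀ p : ℝ × ℝ, ((c * (dx G p - a * p.1) + s * (dy G p - a * p.2)) + t * dx H p) ^ 2 +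
        ((s * (dx G p - a * p.1) - c * (dy G p - a * p.2)) + t * dy H p) ^ 2 =
        ((dx G p - a * p.1) ^ 2 + (dy G p - a * p.2) ^ 2) +
        ((2 * t) * ((c * (dx G p - a * p.1) + s * (dy G p - a * p.2)) * dx H p +
          (s * (dx G p - a * p.1) - c * (dy G p - a * p.2)) * dy H p) +
          (t ^ 2) * (dx H p ^ 2 + dy H p ^ 2)) := by
      intro p
      linear_combination ((dx G p - a * p.1) ^ 2 + (dy G p - a * p.2) ^ 2) * hcs
    simp only [e2] at h0
    rw [add_D (f := fun p => (dx G p - a * p.1) ^ 2 + (dy G p - a * p.2) ^ 2) (g := fun p =>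
        (2 * t) * ((c * (dx G p - a * p.1) + s * (dy G p - a * p.2)) * dx H p +
          (s * (dx G p - a * p.1) - c * (dy G p - a * p.2)) * dy H p) +
          (t ^ 2) * (dx H p ^ 2 + dy H p ^ 2)) (by fun_prop) (by fun_prop),
      add_D (f := fun p => (2 * t) * ((c * (dx G p - a * p.1) + s * (dy G p - a * p.2)) * dx H p +
          (s * (dx G p - a * p.1) - c * (dy G p - a * p.2)) * dy H p)) (g := fun p =>
          (t ^ 2) * (dx H p ^ 2 + dy H p ^ 2)) (by fun_prop) (by fun_prop), integral_const_mul,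
      integral_const_mul, hU, hS, ← hC] at h0
    linarith
  have hd := discrim_le_zero key
  rw [discrim] at hd
  nlinarith

theorem diag_bound {H : ℝ × ℝ → ℝ} (hH : DAdm H) {c s : ℝ} (hcs : c ^ 2 + s ^ 2 = 1) :
    |dJ c s H H| ≤ sG H := by
  have kx := continuous_dx hH.1
  have ky := continuous_dy hH.1
  have sx := hcs_dx hH.2.1
  have sy := hcs_dy hH.2.1
  have h1 : sG H = ∫ p, (dx H p ^ 2 + dy H p ^ 2) := by
    rw [integral_add (int_sq kx sx) (int_sq ky sy)]
    rfl
  rw [h1, dJ]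
  refine (abs_integral_le_integral_abs).trans ?_
  have hi : Integrable fun p => dx H p ^ 2 + dy H p ^ 2 := (int_sq kx sx).add (int_sq ky sy)
  refine integral_mono_of_nonneg (Filter.Eventually.of_forall fun p => abs_nonneg _) hi
    (Filter.Eventually.of_forall fun p => ?_)
  simp only
  have h2 : (c * (dx H p * dx H p - dy H p * dy H p) + s * (dx H p * dy H p + dy H p * dx H p)) ^ 2 ≤
      (dx H p ^ 2 + dy H p ^ 2) ^ 2 := by
    have h3 : (c * (dx H p * dx H p - dy H p * dy H p) + s * (dx H p * dy H p + dy H p * dx H p)) ^ 2 +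
        (s * (dx H p * dx H p - dy H p * dy H p) - c * (dx H p * dy H p + dy H p * dx H p)) ^ 2 =
        (dx H p ^ 2 + dy H p ^ 2) ^ 2 := by
      linear_combination ((dx H p ^ 2 + dy H p ^ 2) ^ 2) * hcs
    nlinarith [sq_nonneg (s * (dx H p * dx H p - dy H p * dy H p) - c * (dx H p * dy H p + dy H p * dx H p))]
  exact abs_le_of_sq_le_sq h2 (by positivity)

theorem dJ_add {G H : ℝ × ℝ → ℝ} (hG : DAdm G) (hH : DAdm H) (c s : ℝ) :
    dJ c s (fun p => G p + H p) (fun p => G p + H p) =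
      dJ c s G G + 2 * dJ c s G H + dJ c s H H := by
  have cx := continuous_dx hG.1
  have cy := continuous_dy hG.1
  have kx := continuous_dx hH.1
  have ky := continuous_dy hH.1
  have gx := hcs_dx hG.2.1
  have gy := hcs_dy hG.2.1
  have sx := hcs_dx hH.2.1
  have sy := hcs_dy hH.2.1
  have ex : ∀ p, dx (fun p => G p + H p) p = dx G p + dx H p := by
    intro p
    simp only [dx]
    rw [fderiv_fun_add (hG.1.differentiable one_ne_zero p) (hH.1.differentiable one_ne_zero p)]
    rfl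
  have ey : ∀ p, dy (fun p => G p + H p) p = dy G p + dy H p := by
    intro p
    simp only [dy]
    rw [fderiv_fun_add (hG.1.differentiable one_ne_zero p) (hH.1.differentiable one_ne_zero p)]
    rfl
  have int_gen : ∀ {A B : ℝ × ℝ → ℝ}, Continuous (dx A) → Continuous (dy A) → Continuous (dx B) →
      Continuous (dy B) → HasCompactSupport (dx B) → HasCompactSupport (dy B) →
      Integrable fun p => (c * (dx A p * dx B p - dy A p * dy B p) + s * (dx A p * dy B p + dy A p * dx B p)) := by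
    intro A B h1 h2 h3 h4 h5 h6
    refine Continuous.integrable_of_hasCompactSupport (by fun_prop) ?_
    exact (((h5.mul_left (f := dx A)).sub (h6.mul_left (f := dy A))).mul_left (f := fun _ => c)).add
      (((h6.mul_left (f := dx A)).add (h5.mul_left (f := dy A))).mul_left (f := fun _ => s))
  have i1 := int_gen (A := G) (B := G) cx cy cx cy gx gy
  have i2 := int_gen (A := G) (B := H) cx cy kx ky sx sy
  have i3 := int_gen (A := H) (B := H) kx ky kx ky sx sy
  have i2' : Integrable fun p => 2 * (c * (dx G p * dx H p - dy G p * dy H p) +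
      s * (dx G p * dy H p + dy G p * dx H p)) := i2.const_mul 2
  have i12 : Integrable fun p => (c * (dx G p * dx G p - dy G p * dy G p) +
      s * (dx G p * dy G p + dy G p * dx G p)) + 2 * (c * (dx G p * dx H p - dy G p * dy H p) +
      s * (dx G p * dy H p + dy G p * dx H p)) := i1.add i2'
  simp only [dJ]
  rw [← integral_const_mul, ← integral_add i1 i2', ← integral_add i12 i3]
  congr 1
  funext p
  rw [ex, ey]
  ring

end Pool.Agent.Lib.MP_9c48c1_an.Disk
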