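import Mathlib
import Pool.Agent.Lib.MP_9c48c1_an_disk.Defs

set_option autoImplicit false

/-! Module J (helper86): the two algebraic steps. -/

namespace Pool.Agent.Lib.MP_9c48c1_an.Disk

open MeasureTheory Set Pool.Agent.Lib.MP_9c48c1_an

/-- The even case when `lam` is between `564/100` and `29/5`. -/
theorem alg_even_aux {lam n0 n1 s0 s1 X D01 D11 c0 : ℝ} (hn0 : 0 ≤ n0) (hn1 : 0 ≤ n1)
    (hlam : lam ≤ 29 / 5) (hlam0 : 564 / 100 ≤ lam) (h0 : lam * n0 ≤ s0) (h1 : 96 / 5 * n1 ≤ s1)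
    (hX : X ≤ 33 / 10 * s0 - 931 / 50 * n0) (hD01 : D01 ^ 2 ≤ s1 * X)
    (hD11 : |D11| ≤ s1) (hc0 : 2467 / 1000 ≤ c0) (hc1 : c0 ≤ 2468 / 1000)
    (hst : 4 * c0 * (n0 + n1) * (s0 + s1) - 4 * c0 ^ 2 * (n0 + n1) ^ 2 ≤
      (s0 + s1) ^ 2 - (2 * D01 + D11) ^ 2) :
    (2 * D01 + D11) ^ 2 ≤ (s0 + s1) * (s0 + s1 - lam * (n0 + n1)) := by
  have hs1 : 0 ≤ s1 := le_trans (by positivity) h1
  have hs0 : 0 ≤ s0 := le_trans (by nlinarith) h0
  have hn : 0 ≤ n0 + n1 := by linarith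
  by_cases hcase : 4 * c0 ^ 2 * (n0 + n1) ≤ (4 * c0 - lam) * (s0 + s1)
  · have h := mul_le_mul_of_nonneg_left hcase hn
    nlinarith
  · push Not at hcase
    -- `e ≤ 0.185 n`
    have hpos : 0 < 4 * c0 - lam := by linarith
    have he : (s0 + s1) - lam * (n0 + n1) ≤ 185 / 1000 * (n0 + n1) := by
      by_contra hcon
      push Not at hcon
      -- (4c0-lam)(s0+s1) > (4c0 - lam)(lam + 0.185) n ≥ 4c0^2 n
      have h2 : (4 * c0 - lam) * ((lam + 185 / 1000) * (n0 + n1)) ≤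
          (4 * c0 - lam) * (s0 + s1) := by
        apply mul_le_mul_of_nonneg_left _ hpos.le
        linarith
      have h3 : 4 * c0 ^ 2 ≤ (4 * c0 - lam) * (lam + 185 / 1000) := by
        -- (2c0 - lam)^2 ≤ 0.185 (4c0 - lam)
        nlinarith [mul_nonneg (sub_nonneg.mpr hlam) (sub_nonneg.mpr hlam0),
          mul_nonneg (sub_nonneg.mpr hc0) (sub_nonneg.mpr hc1),
          mul_nonneg (sub_nonneg.mpr hlam) (sub_nonneg.mpr hc0),
          mul_nonneg (sub_nonneg.mpr hlam) (sub_nonneg.mpr hc1)]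
      have h4 := mul_le_mul_of_nonneg_right h3 hn
      linarith
    have he1 : 697 / 1000 * s1 ≤ s1 - lam * n1 := by
      have : lam * n1 ≤ 29 / 5 * n1 := mul_le_mul_of_nonneg_right hlam hn1
      linarith
    have hs1n0 : s1 ≤ 270 / 1000 * n0 := by
      linarith
    have hD : (2 * D01 + D11) ^ 2 ≤ 56 / 10 * D01 ^ 2 + 35 / 10 * D11 ^ 2 := by
      nlinarith [sq_nonneg (4 * D01 - 5 * D11)]
    have hD11' : D11 ^ 2 ≤ s1 ^ 2 := by
      rw [← sq_abs D11]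
      exact pow_le_pow_left₀ (abs_nonneg _) hD11 2
    have he0 : 0 ≤ s0 - lam * n0 := by linarith
    have hX' : X ≤ 33 / 10 * (s0 - lam * n0) + 52 / 100 * n0 := by
      have : lam * n0 ≤ 29 / 5 * n0 := mul_le_mul_of_nonneg_right hlam hn0
      linarith
    have hsX : s1 * X ≤ s1 * (33 / 10 * (s0 - lam * n0) + 52 / 100 * n0) :=
      mul_le_mul_of_nonneg_left hX' hs1
    set e0 := s0 - lam * n0 with he0d
    set e1 := s1 - lam * n1 with he1d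
    have hP1 : s1 * e0 ≤ 270 / 1000 * n0 * e0 := mul_le_mul_of_nonneg_right hs1n0 he0
    have hP2 : s1 * s1 ≤ s1 * (270 / 1000 * n0) := mul_le_mul_of_nonneg_left hs1n0 hs1
    have hL : (2 * D01 + D11) ^ 2 ≤
        (56 / 10 * (33 / 10) * (270 / 1000)) * n0 * e0
          + (56 / 10 * (52 / 100) + 35 / 10 * (270 / 1000)) * n0 * s1 := by
      nlinarith
    have he0e1 : 0 ≤ e0 + e1 := by
      have : 0 ≤ e1 := le_trans (by positivity) he1
      linarith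
    have hs0' : 564 / 100 * n0 ≤ s0 := by
      have : 564 / 100 * n0 ≤ lam * n0 := mul_le_mul_of_nonneg_right hlam0 hn0
      linarith
    have hR1 : 564 / 100 * n0 * (e0 + e1) ≤ (s0 + s1) * (e0 + e1) :=
      mul_le_mul_of_nonneg_right (by linarith) he0e1
    have hR2 : n0 * (697 / 1000 * s1) ≤ n0 * e1 := mul_le_mul_of_nonneg_left he1 hn0
    have hR3 : 0 ≤ n0 * e0 := mul_nonneg hn0 he0
    have hR4 : 0 ≤ n0 * s1 := mul_nonneg hn0 hs1
    have hfin : (s0 + s1) * (s0 + s1 - lam * (n0 + n1)) = (s0 + s1) * (e0 + e1) := by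
      rw [he0d, he1d]; ring
    rw [hfin]
    nlinarith

theorem alg_even {lam n0 n1 s0 s1 X D01 D11 c0 : ℝ} (hn0 : 0 ≤ n0) (hn1 : 0 ≤ n1)
    (hlam : lam ≤ 29 / 5) (hlam0 : 0 ≤ lam) (h0 : lam * n0 ≤ s0) (h1 : 96 / 5 * n1 ≤ s1)
    (hX : X ≤ 33 / 10 * s0 - 931 / 50 * n0) (hX0 : 0 ≤ X) (hD01 : D01 ^ 2 ≤ s1 * X)
    (hD11 : |D11| ≤ s1) (hc0 : 2467 / 1000 ≤ c0) (hc1 : c0 ≤ 2468 / 1000)
    (hst : 4 * c0 * (n0 + n1) * (s0 + s1) - 4 * c0 ^ 2 * (n0 + n1) ^ 2 ≤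
      (s0 + s1) ^ 2 - (2 * D01 + D11) ^ 2) :
    (2 * D01 + D11) ^ 2 ≤ (s0 + s1) * (s0 + s1 - lam * (n0 + n1)) := by
  have _ := hlam0
  rcases le_total (564 / 100) lam with h | h
  · exact alg_even_aux hn0 hn1 hlam h h0 h1 hX hD01 hD11 hc0 hc1 hst
  · have h0' : 564 / 100 * n0 ≤ s0 := by linarith
    have hmain := alg_even_aux (lam := 564 / 100) hn0 hn1 (by norm_num) le_rfl h0' h1 hX hD01
      hD11 hc0 hc1 hst
    refine hmain.trans ?_
    have hs1 : 0 ≤ s1 := le_trans (by positivity) h1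
    have hs0 : 0 ≤ s0 := le_trans (by positivity) h0'
    apply mul_le_mul_of_nonneg_left _ (by linarith)
    have : lam * (n0 + n1) ≤ 564 / 100 * (n0 + n1) := mul_le_mul_of_nonneg_right h (by linarith)
    linarith

theorem alg_odd {lam n s D c0 : ℝ} (hn : 0 ≤ n) (hlam : lam ≤ 29 / 5) (h1 : 12 * n ≤ s)
    (hc0 : 2467 / 1000 ≤ c0) (hc1 : c0 ≤ 2468 / 1000)
    (hst : 4 * c0 * n * s - 4 * c0 ^ 2 * n ^ 2 ≤ s ^ 2 - D ^ 2) :
    D ^ 2 ≤ s * (s - lam * n) := by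
  have hs : 0 ≤ s := le_trans (by positivity) h1
  have h2 : c0 ^ 2 ≤ 7 := by nlinarith
  have h3 : 4 * c0 ^ 2 * n ≤ 28 * n := by nlinarith
  have h4 : 4 * s ≤ (4 * c0 - lam) * s := mul_le_mul_of_nonneg_right (by linarith) hs
  have h5 : 4 * c0 ^ 2 * n ≤ (4 * c0 - lam) * s := by linarith
  have h6 := mul_le_mul_of_nonneg_left h5 hn
  nlinarith

end Pool.Agent.Lib.MP_9c48c1_an.Disk
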