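import Mathlib
import Pool.Agent.Lib.MP_9c48c1_an_disk.Defs

/-! Strips: the one-dimensional inequality on all lines of one direction (module L, seat 8). -/

set_option autoImplicit false

namespace Pool.Agent.Lib.MP_9c48c1_an.Disk

open MeasureTheory Set Pool.Agent.Lib.MP_9c48c1_an

lemma DAdm.le_L {G : ℝ × ℝ → ℝ} (hG : DAdm G) {p : ℝ × ℝ} (hp : G p ≠ 0) :
    p.1 ^ 2 + p.2 ^ 2 ≤ 1 := (hG.2.2 p (subset_tsupport G hp)).le

lemma chord_L {τ s x1 x2 : ℝ} (h1 : x1 ^ 2 + (s - τ * x1) ^ 2 ≤ 1)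
    (h2 : x2 ^ 2 + (s - τ * x2) ^ 2 ≤ 1) : x2 - x1 ≤ 2 / Real.sqrt (1 + τ ^ 2) := by
  have hpos : 0 < 1 + τ ^ 2 := by positivity
  have hs : 0 < Real.sqrt (1 + τ ^ 2) := Real.sqrt_pos.2 hpos
  rw [le_div_iff₀ hs]
  refine le_of_sq_le_sq ?_ (by norm_num)
  rw [mul_pow, Real.sq_sqrt hpos.le]
  nlinarith [sq_nonneg (x1 + x2), sq_nonneg ((s - τ * x1) + (s - τ * x2))]

lemma quad_L {G : ℝ × ℝ → ℝ} (hG : DAdm G) (τ : ℝ) :
    ∫ p, (dx G p - τ * dy G p) ^ 2 = q11 G - 2 * τ * q12 G + τ ^ 2 * q22 G := by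
  have cx := continuous_dx hG.1
  have cy := continuous_dy hG.1
  have sx := hcs_dx hG.2.1
  have sy := hcs_dy hG.2.1
  have e : ∀ p, (dx G p - τ * dy G p) ^ 2 = dx G p ^ 2 +
      ((-(2 * τ)) * (dx G p * dy G p) + τ ^ 2 * dy G p ^ 2) := by intro p; ring
  simp_rw [e]
  have i1 : Integrable (fun p => dx G p ^ 2) := int_sq cx sx
  have i2 : Integrable (fun p => (-(2 * τ)) * (dx G p * dy G p)) :=
    (int_prod cx cy sx).const_mul _
  have i3 : Integrable (fun p => τ ^ 2 * dy G p ^ 2) := (int_sq cy sy).const_mul _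
  rw [integral_add3 i1 i2 i3, integral_const_mul, integral_const_mul]
  rw [q11, q12, q22]; ring

lemma lines_L {G : ℝ × ℝ → ℝ} (hG : DAdm G) (τ : ℝ) :
    Real.pi ^ 2 / 4 * (1 + τ ^ 2) * qN G ≤ q11 G - 2 * τ * q12 G + τ ^ 2 * q22 G := by
  rw [← quad_L hG τ]
  have hpos : 0 < 1 + τ ^ 2 := by positivity
  have hs : 0 < Real.sqrt (1 + τ ^ 2) := Real.sqrt_pos.2 hpos
  have h := sum_lines hG.1 hG.2.1 τ (c := fun _ => Real.pi ^ 2 / 4 * (1 + τ ^ 2))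
    continuous_const ?_
  · rw [integral_const_mul] at h
    exact h
  · intro s
    have hw := wirtinger (line_contDiff hG.1 τ s) (l := 2 / Real.sqrt (1 + τ ^ 2)) (by positivity)
      (fun x y hx hy => chord_L (hG.le_L hx) (hG.le_L hy))
    have : (Real.pi / (2 / Real.sqrt (1 + τ ^ 2))) ^ 2 = Real.pi ^ 2 / 4 * (1 + τ ^ 2) := by
      rw [div_div_eq_mul_div, div_pow, mul_pow, Real.sq_sqrt hpos.le]
      ring
    rw [this] at hw
    exact hw

lemma form_L {G : ℝ × ℝ → ℝ} (hG : DAdm G) (t : ℝ) :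
    0 ≤ (q22 G - Real.pi ^ 2 / 4 * qN G) * (t * t) + (-2 * q12 G) * t +
      (q11 G - Real.pi ^ 2 / 4 * qN G) := by
  have := lines_L hG t
  nlinarith

lemma disc_L {G : ℝ × ℝ → ℝ} (hG : DAdm G) :
    q12 G ^ 2 ≤ (q11 G - Real.pi ^ 2 / 4 * qN G) * (q22 G - Real.pi ^ 2 / 4 * qN G) := by
  have h := discrim_le_zero (form_L hG)
  rw [discrim] at h
  nlinarith

lemma dJ_L {G : ℝ × ℝ → ℝ} (hG : DAdm G) (c s : ℝ) :
    dJ c s G G = c * (q11 G - q22 G) + 2 * s * q12 G := by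
  have cx := continuous_dx hG.1
  have cy := continuous_dy hG.1
  have sx := hcs_dx hG.2.1
  have sy := hcs_dy hG.2.1
  unfold dJ
  have e : ∀ p, c * (dx G p * dx G p - dy G p * dy G p) +
      s * (dx G p * dy G p + dy G p * dx G p) = c * dx G p ^ 2 +
      ((-c) * dy G p ^ 2 + (2 * s) * (dx G p * dy G p)) := by intro p; ring
  simp_rw [e]
  have i1 : Integrable (fun p => c * dx G p ^ 2) := (int_sq cx sx).const_mul _
  have i2 : Integrable (fun p => (-c) * dy G p ^ 2) := (int_sq cy sy).const_mul _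
  have i3 : Integrable (fun p => (2 * s) * (dx G p * dy G p)) := (int_prod cx cy sx).const_mul _
  rw [integral_add3 i1 i2 i3, integral_const_mul, integral_const_mul, integral_const_mul]
  rw [q11, q12, q22]; ring

theorem strip11 {G : ℝ × ℝ → ℝ} (hG : DAdm G) : Real.pi ^ 2 / 4 * qN G ≤ q11 G := by
  have := lines_L hG 0
  linarith

theorem strip22 {G : ℝ × ℝ → ℝ} (hG : DAdm G) : Real.pi ^ 2 / 4 * qN G ≤ q22 G := by
  by_contra hcon
  push Not at hcon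
  have h1 := strip11 hG
  have h2 := disc_L hG
  have h3 := form_L hG 1
  have h4 : (q11 G - Real.pi ^ 2 / 4 * qN G) * (q22 G - Real.pi ^ 2 / 4 * qN G) ≤ 0 :=
    mul_nonpos_of_nonneg_of_nonpos (by linarith) (by linarith)
  have h5 : q12 G ^ 2 = 0 := le_antisymm (h2.trans h4) (sq_nonneg _)
  have h6 : q12 G = 0 := by simpa using h5
  rw [h5] at h2
  have h7 : q11 G - Real.pi ^ 2 / 4 * qN G = 0 := by
    have h8 : (q11 G - Real.pi ^ 2 / 4 * qN G) * (q22 G - Real.pi ^ 2 / 4 * qN G) = 0 :=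
      le_antisymm h4 h2
    rcases mul_eq_zero.1 h8 with h | h
    · exact h
    · linarith
  rw [h6, h7] at h3
  linarith

theorem strips {G : ℝ × ℝ → ℝ} (hG : DAdm G) {c s : ℝ} (hcs : c ^ 2 + s ^ 2 = 1) :
    4 * (Real.pi ^ 2 / 4) * qN G * sG G - 4 * (Real.pi ^ 2 / 4) ^ 2 * qN G ^ 2 ≤
      sG G ^ 2 - dJ c s G G ^ 2 := by
  rw [dJ_L hG, sG]
  have h := disc_L hG
  obtain ⟨A, hA⟩ : ∃ A, A = q11 G - Real.pi ^ 2 / 4 * qN G := ⟨_, rfl⟩
  obtain ⟨B, hB⟩ : ∃ B, B = q22 G - Real.pi ^ 2 / 4 * qN G := ⟨_, rfl⟩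
  rw [← hA, ← hB] at h
  have h1 : (c * (A - B) + 2 * s * q12 G) ^ 2 ≤ (A + B) ^ 2 := by
    have h2 : (c * (A - B) + s * (2 * q12 G)) ^ 2 + (s * (A - B) - c * (2 * q12 G)) ^ 2 =
        (c ^ 2 + s ^ 2) * ((A - B) ^ 2 + (2 * q12 G) ^ 2) := by ring
    rw [hcs, one_mul] at h2
    nlinarith [sq_nonneg (s * (A - B) - c * (2 * q12 G))]
  have e1 : q11 G - q22 G = A - B := by rw [hA, hB]; ring
  have e2 : q11 G + q22 G = A + B + 2 * (Real.pi ^ 2 / 4 * qN G) := by rw [hA, hB]; ring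
  rw [e1, e2]
  nlinarith

end Pool.Agent.Lib.MP_9c48c1_an.Disk
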