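import Mathlib
import Pool.Agent.Lib.MP_9c48c1_an_disk.Defs
import Pool.Agent.Lib.MP_9c48c1_an_disk.D2
import Pool.Agent.Lib.MP_9c48c1_an_disk.F
import Pool.Agent.Lib.MP_9c48c1_an_disk.G1
import Pool.Agent.Lib.MP_9c48c1_an_disk.G2
import Pool.Agent.Lib.MP_9c48c1_an_disk.H1
import Pool.Agent.Lib.MP_9c48c1_an_disk.H2
import Pool.Agent.Lib.MP_9c48c1_an_disk.I
import Pool.Agent.Lib.MP_9c48c1_an_disk.J
import Pool.Agent.Lib.MP_9c48c1_an_disk.L

set_option autoImplicit false

/-! The main inequality for the disk. -/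

namespace Pool.Agent.Lib.MP_9c48c1_an.Disk

open MeasureTheory Set Pool.Agent.Lib.MP_9c48c1_an

lemma DAdm.comb {G H : ℝ × ℝ → ℝ} (hG : DAdm G) (hH : DAdm H) (a b : ℝ) :
    DAdm (fun p => a * G p + b * H p) := by
  obtain ⟨g1, g2, g3⟩ := hG
  obtain ⟨h1, h2, h3⟩ := hH
  refine ⟨by fun_prop, ?_, ?_⟩
  · exact (g2.mul_left (f := fun _ => a)).add (h2.mul_left (f := fun _ => b))
  · intro p hp
    have h4 : p ∈ tsupport (fun p => a * G p) ∪ tsupport (fun p => b * H p) :=
      tsupport_add (fun p => a * G p) (fun p => b * H p) hp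
    rcases h4 with h | h
    · exact g3 p (tsupport_mul_subset_right h)
    · exact h3 p (tsupport_mul_subset_right h)

lemma DAdm.neg_comp {G : ℝ × ℝ → ℝ} (hG : DAdm G) : DAdm (fun p => G (-p)) := by
  obtain ⟨g1, g2, g3⟩ := hG
  refine ⟨by fun_prop, g2.comp_homeomorph (Homeomorph.neg _), ?_⟩
  intro p hp
  have h1 : tsupport (fun p => G (-p)) = (Homeomorph.neg (ℝ × ℝ)) ⁻¹' tsupport G := by
    have := tsupport_comp_eq_preimage G (Homeomorph.neg (ℝ × ℝ))
    exact this
  rw [h1] at hp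
  have := g3 _ hp
  simpa using this

lemma dx_neg_comp {G : ℝ × ℝ → ℝ} (hG : ContDiff ℝ 1 G) (p : ℝ × ℝ) :
    dx (fun p => G (-p)) p = - dx G (-p) := by
  unfold dx
  have h := (hG.differentiable one_ne_zero (-p)).hasFDerivAt.comp p
    ((hasFDerivAt_id p).neg)
  have h2 : fderiv ℝ (fun p => G (-p)) p = (fderiv ℝ G (-p)).comp (-(ContinuousLinearMap.id ℝ (ℝ × ℝ))) := h.fderiv
  rw [h2]; simp

lemma dy_neg_comp {G : ℝ × ℝ → ℝ} (hG : ContDiff ℝ 1 G) (p : ℝ × ℝ) :
    dy (fun p => G (-p)) p = - dy G (-p) := by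
  unfold dy
  have h := (hG.differentiable one_ne_zero (-p)).hasFDerivAt.comp p
    ((hasFDerivAt_id p).neg)
  have h2 : fderiv ℝ (fun p => G (-p)) p = (fderiv ℝ G (-p)).comp (-(ContinuousLinearMap.id ℝ (ℝ × ℝ))) := h.fderiv
  rw [h2]; simp

lemma dx_comb {G H : ℝ × ℝ → ℝ} (hG : ContDiff ℝ 1 G) (hH : ContDiff ℝ 1 H) (a b : ℝ) (p : ℝ × ℝ) :
    dx (fun p => a * G p + b * H p) p = a * dx G p + b * dx H p := by
  unfold dx
  have h := (((hG.differentiable one_ne_zero p).hasFDerivAt.const_mul a).add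
    ((hH.differentiable one_ne_zero p).hasFDerivAt.const_mul b))
  have h2 : fderiv ℝ (fun p => a * G p + b * H p) p = a • fderiv ℝ G p + b • fderiv ℝ H p := h.fderiv
  rw [h2]; simp

lemma dy_comb {G H : ℝ × ℝ → ℝ} (hG : ContDiff ℝ 1 G) (hH : ContDiff ℝ 1 H) (a b : ℝ) (p : ℝ × ℝ) :
    dy (fun p => a * G p + b * H p) p = a * dy G p + b * dy H p := by
  unfold dy
  have h := (((hG.differentiable one_ne_zero p).hasFDerivAt.const_mul a).add
    ((hH.differentiable one_ne_zero p).hasFDerivAt.const_mul b))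
  have h2 : fderiv ℝ (fun p => a * G p + b * H p) p = a • fderiv ℝ G p + b • fderiv ℝ H p := h.fderiv
  rw [h2]; simp

/-- The parallelogram identity for a quadratic quantity. -/
lemma par {u v : ℝ × ℝ → ℝ} (hu : Continuous u) (hv : Continuous v)
    (su : HasCompactSupport u) {A B : ℝ × ℝ → ℝ} (hA : Continuous A) (hB : Continuous B)
    (sA : HasCompactSupport A) (sB : HasCompactSupport B)
    (h : ∀ p, A p + B p = (u p * v p + u (-p) * v (-p)) / 2) :
    (∫ p, A p) + ∫ p, B p = ∫ p, u p * v p := by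
  have iA : Integrable A := hA.integrable_of_hasCompactSupport sA
  have iB : Integrable B := hB.integrable_of_hasCompactSupport sB
  have i1 : Integrable (fun p => u p * v p) := int_prod hu hv su
  have i2 : Integrable (fun p => u (-p) * v (-p)) := i1.comp_neg
  rw [← integral_add iA iB]
  simp_rw [h]
  rw [integral_div, integral_add i1 i2]
  have : ∫ p, u (-p) * v (-p) = ∫ p, u p * v p :=
    integral_neg_eq_self (fun p => u p * v p) volume
  rw [this]; ring

theorem even_part {lam : ℝ} (hlam0 : 0 ≤ lam) (hlam : lam ≤ 29 / 5)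
    (hb : ∀ G, DAdm G → lam * qN G ≤ sG G)
    {G : ℝ × ℝ → ℝ} (hG : DAdm G) (he : ∀ p, G (-p) = G p) {c s : ℝ} (hcs : c ^ 2 + s ^ 2 = 1) :
    dJ c s G G ^ 2 ≤ sG G * (sG G - lam * qN G) := by
  have hA := avg_DAdm hG
  have hR : DAdm (fun p => G p - avg G p) := by
    have := hG.comb hA 1 (-1)
    have h2 : (fun p => 1 * G p + (-1) * avg G p) = fun p => G p - avg G p := by
      funext p; ring
    rwa [h2] at this
  have hRe : ∀ p, (fun p => G p - avg G p) (-p) = (fun p => G p - avg G p) p := by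
    intro p
    simp only [he p, avg, Prod.fst_neg, Prod.snd_neg, neg_sq]
  have e1 := even_gap hR hRe (rest_mean hG)
  have n0 : 0 ≤ qN (avg G) := integral_nonneg fun p => sq_nonneg _
  have n1 : 0 ≤ qN (fun p => G p - avg G p) := integral_nonneg fun p => sq_nonneg _
  have hX0 := X_nonneg hA
  have hcr := cross_bound hA hR hcs
  have hdb := diag_bound hR hcs
  have hrad := radialIneq (fun r => prof_deriv hG r) (prof'_cont hG) (prof'_zero hG)
    (prof_one hG 1 (by simp))
  have pi0 := Real.pi_pos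
  have hX : sG (avg G) - 8 / Real.pi * (∫ p, avg G p) ^ 2 ≤
      33 / 10 * sG (avg G) - 931 / 50 * qN (avg G) := by
    rw [avg_sG hG, avg_qN hG, avg_int hG]
    have h3 : 8 / Real.pi * (2 * Real.pi * ∫ r in (0:ℝ)..1, prof G r * r) ^ 2 =
        2 * Real.pi * (16 * (∫ r in (0:ℝ)..1, prof G r * r) ^ 2) := by
      field_simp; ring
    rw [h3]
    have := mul_le_mul_of_nonneg_left hrad (by positivity : 0 ≤ 2 * Real.pi)
    linarith
  have hst := strips hG hcs
  have hq := qN_split hG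
  have hs := sG_split hG
  have hd : dJ c s G G = 2 * dJ c s (avg G) (fun p => G p - avg G p) +
      dJ c s (fun p => G p - avg G p) (fun p => G p - avg G p) := by
    have h1 := dJ_add hA hR c s
    have h2 : (fun p => avg G p + (fun p => G p - avg G p) p) = G := by funext p; simp
    rw [h2, avg_dJ hG] at h1
    linarith
  have p1 := Real.pi_gt_d4
  have p2 := Real.pi_lt_d4
  rw [hq, hs, hd] at hst ⊢
  refine alg_even (c0 := Real.pi ^ 2 / 4) n0 n1 hlam hlam0 (hb _ hA) e1 hX hX0 ?_ hdb ?_ ?_ ?_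
  · exact hcr
  · nlinarith
  · nlinarith
  · linarith

lemma cs_add {a b c d x y : ℝ} (ha : 0 ≤ a) (hb : 0 ≤ b) (hc : 0 ≤ c) (hd : 0 ≤ d)
    (hx : x ^ 2 ≤ a * b) (hy : y ^ 2 ≤ c * d) : (x + y) ^ 2 ≤ (a + c) * (b + d) := by
  have h1 : (x * y) ^ 2 ≤ ((a * d + b * c) / 2) ^ 2 := by
    have h2 : (x * y) ^ 2 ≤ (a * b) * (c * d) := by
      rw [mul_pow]; exact mul_le_mul hx hy (sq_nonneg _) (by positivity)
    nlinarith [sq_nonneg (a * d - b * c)]
  have h3 : x * y ≤ (a * d + b * c) / 2 := by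
    have h4 : 0 ≤ (a * d + b * c) / 2 := by positivity
    exact (abs_le_of_sq_le_sq' h1 h4).2
  nlinarith

theorem main_disk {lam : ℝ} (hlam0 : 0 ≤ lam) (hlam : lam ≤ 29 / 5)
    (hb : ∀ G, DAdm G → lam * qN G ≤ sG G)
    {G : ℝ × ℝ → ℝ} (hG : DAdm G) :
    lam * qN G * sG G ≤ 4 * (q11 G * q22 G - q12 G ^ 2) := by
  obtain ⟨g1, g2, g3⟩ := id hG
  have hM := hG.neg_comp
  have hE : DAdm (fun p => (1/2) * G p + (1/2) * G (-p)) := hG.comb hM _ _
  have hO : DAdm (fun p => (1/2) * G p + (-(1/2)) * G (-p)) := hG.comb hM _ _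
  have he : ∀ p, (fun p => (1/2) * G p + (1/2) * G (-p)) (-p) = (fun p => (1/2) * G p + (1/2) * G (-p)) p := by
    intro p; simp only [neg_neg]; ring
  have ho : ∀ p, (fun p => (1/2) * G p + (-(1/2)) * G (-p)) (-p) = -(fun p => (1/2) * G p + (-(1/2)) * G (-p)) p := by
    intro p; simp only [neg_neg]; ring
  set Ge := fun p => (1/2) * G p + (1/2) * G (-p) with hGe
  set Go := fun p => (1/2) * G p + (-(1/2)) * G (-p) with hGo
  have xe : ∀ p, dx Ge p = (1/2) * dx G p + (1/2) * (- dx G (-p)) := by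
    intro p; rw [hGe, dx_comb g1 hM.1, dx_neg_comp g1]
  have xo : ∀ p, dx Go p = (1/2) * dx G p + (-(1/2)) * (- dx G (-p)) := by
    intro p; rw [hGo, dx_comb g1 hM.1, dx_neg_comp g1]
  have ye : ∀ p, dy Ge p = (1/2) * dy G p + (1/2) * (- dy G (-p)) := by
    intro p; rw [hGe, dy_comb g1 hM.1, dy_neg_comp g1]
  have yo : ∀ p, dy Go p = (1/2) * dy G p + (-(1/2)) * (- dy G (-p)) := by
    intro p; rw [hGo, dy_comb g1 hM.1, dy_neg_comp g1]
  have cG := g1.continuous
  have cx := continuous_dx g1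
  have cy := continuous_dy g1
  have sx := hcs_dx g2
  have sy := hcs_dy g2
  have cE := hE.1.continuous
  have cO := hO.1.continuous
  have cEx := continuous_dx hE.1
  have cEy := continuous_dy hE.1
  have cOx := continuous_dx hO.1
  have cOy := continuous_dy hO.1
  have sEx := hcs_dx hE.2.1
  have sEy := hcs_dy hE.2.1
  have sOx := hcs_dx hO.2.1
  have sOy := hcs_dy hO.2.1
  have hq : qN Ge + qN Go = qN G := by
    have := par (u := G) (v := G) cG cG g2 (A := fun p => Ge p ^ 2) (B := fun p => Go p ^ 2)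
      (by fun_prop) (by fun_prop) (hcs_sq hE.2.1) (hcs_sq hO.2.1)
      (by intro p; simp only [hGe, hGo]; ring)
    simp only [qN]; rw [this]; congr 1; funext p; ring
  have h11 : q11 Ge + q11 Go = q11 G := by
    have := par (u := dx G) (v := dx G) cx cx sx (A := fun p => dx Ge p ^ 2) (B := fun p => dx Go p ^ 2)
      (by fun_prop) (by fun_prop) (hcs_sq sEx) (hcs_sq sOx)
      (by intro p; simp only [xe, xo]; ring)
    simp only [q11]; rw [this]; congr 1; funext p; ring
  have h22 : q22 Ge + q22 Go = q22 G := by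
    have := par (u := dy G) (v := dy G) cy cy sy (A := fun p => dy Ge p ^ 2) (B := fun p => dy Go p ^ 2)
      (by fun_prop) (by fun_prop) (hcs_sq sEy) (hcs_sq sOy)
      (by intro p; simp only [ye, yo]; ring)
    simp only [q22]; rw [this]; congr 1; funext p; ring
  have h12 : q12 Ge + q12 Go = q12 G := by
    have := par (u := dx G) (v := dy G) cx cy sx (A := fun p => dx Ge p * dy Ge p)
      (B := fun p => dx Go p * dy Go p)
      (by fun_prop) (by fun_prop) sEx.mul_right sOx.mul_right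
      (by intro p; simp only [xe, xo, ye, yo]; ring)
    simp only [q12]; rw [this]
  have dJq : ∀ (c s : ℝ) (H : ℝ × ℝ → ℝ), DAdm H → dJ c s H H = c * (q11 H - q22 H) + s * (2 * q12 H) := by
    intro c s H hH
    have c1 := continuous_dx hH.1
    have c2 := continuous_dy hH.1
    have s1 := hcs_dx hH.2.1
    have s2 := hcs_dy hH.2.1
    have i1 := int_sq c1 s1
    have i2 := int_sq c2 s2
    have i3 := int_prod c1 c2 s1
    simp only [dJ, q11, q22, q12]
    have i4 : Integrable (fun p => c * (dx H p ^ 2 - dy H p ^ 2)) := (i1.sub i2).const_mul c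
    have i5 : Integrable (fun p => s * (2 * (dx H p * dy H p))) := (i3.const_mul 2).const_mul s
    rw [← integral_sub i1 i2, ← integral_const_mul, ← integral_const_mul, ← integral_const_mul,
      ← integral_add i4 i5]
    congr 1; funext p; ring
  have key : ∀ c s : ℝ, c ^ 2 + s ^ 2 = 1 →
      (c * (q11 G - q22 G) + s * (2 * q12 G)) ^ 2 ≤ sG G * (sG G - lam * qN G) := by
    intro c s hcs
    have a1 := even_part hlam0 hlam hb hE he hcs
    have p1 := Real.pi_gt_d4
    have p2 := Real.pi_lt_d4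
    have hst := strips hO hcs
    have a2 : dJ c s Go Go ^ 2 ≤ sG Go * (sG Go - lam * qN Go) := by
      refine alg_odd (c0 := Real.pi ^ 2 / 4) (integral_nonneg fun p => sq_nonneg _) hlam
        (odd_gap hO ho) (by nlinarith) (by nlinarith) ?_
      linarith
    have s1 : 0 ≤ sG Ge := add_nonneg (integral_nonneg fun p => sq_nonneg _) (integral_nonneg fun p => sq_nonneg _)
    have s2 : 0 ≤ sG Go := add_nonneg (integral_nonneg fun p => sq_nonneg _) (integral_nonneg fun p => sq_nonneg _)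
    have t1 := hb _ hE
    have t2 := hb _ hO
    have a3 := cs_add s1 (sub_nonneg.2 t1) s2 (sub_nonneg.2 t2) a1 a2
    rw [dJq c s Ge hE, dJq c s Go hO] at a3
    have e1 : sG Ge + sG Go = sG G := by simp only [sG]; linarith
    have e2 : (sG Ge - lam * qN Ge) + (sG Go - lam * qN Go) = sG G - lam * qN G := by
      rw [← e1, ← hq]; ring
    rw [e1, e2] at a3
    have e3 : c * (q11 Ge - q22 Ge) + s * (2 * q12 Ge) + (c * (q11 Go - q22 Go) + s * (2 * q12 Go)) =
        c * (q11 G - q22 G) + s * (2 * q12 G) := by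
      rw [← h11, ← h22, ← h12]; ring
    rwa [e3] at a3
  have hs0 : 0 ≤ sG G := add_nonneg (integral_nonneg fun p => sq_nonneg _) (integral_nonneg fun p => sq_nonneg _)
  have ht := hb _ hG
  have hsum : sG G ^ 2 = (q11 G + q22 G) ^ 2 := rfl
  set d1 := q11 G - q22 G with hd1
  set d2 := 2 * q12 G with hd2
  rcases eq_or_ne (d1 ^ 2 + d2 ^ 2) 0 with h0 | h0
  · have : 4 * (q11 G * q22 G - q12 G ^ 2) = sG G ^ 2 := by
      rw [hsum]; nlinarith [h0, hd1, hd2]
    rw [this]; nlinarith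
  · have hpos : 0 < d1 ^ 2 + d2 ^ 2 := lt_of_le_of_ne (by positivity) (Ne.symm h0)
    set D := Real.sqrt (d1 ^ 2 + d2 ^ 2) with hD
    have hDpos : 0 < D := Real.sqrt_pos.2 hpos
    have hDsq : D ^ 2 = d1 ^ 2 + d2 ^ 2 := Real.sq_sqrt hpos.le
    have h5 := key (d1 / D) (d2 / D) (by field_simp; linarith)
    have h6 : d1 / D * d1 + d2 / D * d2 = D := by field_simp; linarith
    rw [h6, hDsq] at h5
    have : 4 * (q11 G * q22 G - q12 G ^ 2) = sG G ^ 2 - (d1 ^ 2 + d2 ^ 2) := by
      rw [hsum, hd1, hd2]; ring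
    rw [this]; nlinarith

end Pool.Agent.Lib.MP_9c48c1_an.Disk
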