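import Mathlib
import Pool.Agent.Lib.MP_9c48c1_an_disk.Defs
import Pool.Agent.Lib.MP_9c48c1_an.Test1D

set_option autoImplicit false

/-! Module M (helper14): a test function with Rayleigh quotient at most `29 / 5` in the unit disk. -/

namespace Pool.Agent.Lib.MP_9c48c1_an.Disk

open MeasureTheory Set Filter Topology Pool.Agent.Lib.MP_9c48c1_an

namespace ModM

/-- A function of `x ^ 2 + y ^ 2`, cut off outside the unit disk. -/
noncomputable def cut (q : ℝ → ℝ) (p : ℝ × ℝ) : ℝ :=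
  {p : ℝ × ℝ | p.1 ^ 2 + p.2 ^ 2 < 1}.indicator (fun p => q (p.1 ^ 2 + p.2 ^ 2)) p

lemma measS : MeasurableSet {p : ℝ × ℝ | p.1 ^ 2 + p.2 ^ 2 < 1} :=
  (isOpen_lt (by fun_prop) continuous_const).measurableSet

lemma integrable_cut {q : ℝ → ℝ} (hq : Continuous q) : Integrable (cut q) := by
  unfold cut
  rw [integrable_indicator_iff measS]
  have h1 : IntegrableOn (fun p : ℝ × ℝ => q (p.1 ^ 2 + p.2 ^ 2))
      (Icc (-1 : ℝ) 1 ×ˢ Icc (-1 : ℝ) 1) :=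
    (by fun_prop : Continuous fun p : ℝ × ℝ => q (p.1 ^ 2 + p.2 ^ 2)).continuousOn.integrableOn_compact
      (isCompact_Icc.prod isCompact_Icc)
  refine h1.mono_set ?_
  rintro ⟨x, y⟩ h
  simp only [mem_ofPred_eq] at h
  refine ⟨⟨?_, ?_⟩, ⟨?_, ?_⟩⟩ <;> simp only <;> nlinarith [sq_nonneg x, sq_nonneg y]

lemma integral_cut (q : ℝ → ℝ) :
    ∫ p, cut q p = (∫ r in (0 : ℝ)..1, r * q (r ^ 2)) * (2 * Real.pi) := by
  rw [← integral_comp_polarCoord_symm]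
  have h1 : ∀ z ∈ polarCoord.target, z.1 • cut q (polarCoord.symm z) =
      ((Iio (1 : ℝ)).indicator (fun r => r * q (r ^ 2)) z.1) * (1 : ℝ) := by
    intro z hz
    have hz0 : 0 < z.1 := by
      rw [polarCoord_target] at hz
      exact hz.1
    have h2 : (z.1 * Real.cos z.2) ^ 2 + (z.1 * Real.sin z.2) ^ 2 = z.1 ^ 2 := by
      have := Real.sin_sq_add_cos_sq z.2
      calc _ = z.1 ^ 2 * (Real.sin z.2 ^ 2 + Real.cos z.2 ^ 2) := by ring
        _ = _ := by rw [this, mul_one]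
    rw [mul_one, smul_eq_mul]
    simp only [cut, polarCoord_symm_apply, indicator, mem_ofPred_eq, mem_Iio, h2]
    by_cases h : z.1 < 1
    · have h3 : z.1 ^ 2 < 1 := by nlinarith
      rw [if_pos h3, if_pos h]
    · have h3 : ¬ z.1 ^ 2 < 1 := by push Not at h ⊢; nlinarith
      rw [if_neg h3, if_neg h, mul_zero]
  have hm : MeasurableSet (polarCoord.target) := polarCoord.open_target.measurableSet
  rw [setIntegral_congr_fun hm h1, polarCoord_target, Measure.volume_eq_prod,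
    setIntegral_prod_mul (fun r => (Iio (1 : ℝ)).indicator (fun r => r * q (r ^ 2)) r)
      (fun _ => (1 : ℝ))]
  congr 1
  · rw [setIntegral_indicator measurableSet_Iio, Ioi_inter_Iio,
      intervalIntegral.integral_of_le zero_le_one, integral_Ioc_eq_integral_Ioo]
  · simp [Real.pi_pos.le]
    ring

/-- The profile, a cubic polynomial close to the first eigenfunction. -/
noncomputable def P (t : ℝ) : ℝ := 1 - 3 / 2 * t + 3 / 5 * t ^ 2 - 1 / 10 * t ^ 3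

noncomputable def Pd (t : ℝ) : ℝ := -(3 / 2) + 6 / 5 * t - 3 / 10 * t ^ 2

lemma P_hasDerivAt (t : ℝ) : HasDerivAt P (Pd t) t := by
  unfold P Pd
  have h := ((((hasDerivAt_const t (1 : ℝ)).sub ((hasDerivAt_id t).const_mul (3 / 2 : ℝ))).add
    (((hasDerivAt_id t).pow 2).const_mul (3 / 5 : ℝ))).sub
    (((hasDerivAt_id t).pow 3).const_mul (1 / 10 : ℝ)))
  exact h.congr_deriv (by simp only [id]; ring)

lemma P_factor (t : ℝ) : P t = (1 - t) * (1 - t / 2 + t ^ 2 / 10) := by unfold P; ring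

lemma P_pos_iff {t : ℝ} : 0 < P t ↔ t < 1 := by
  have h : 0 < 1 - t / 2 + t ^ 2 / 10 := by nlinarith [sq_nonneg (t - 5 / 2)]
  rw [P_factor]
  constructor
  · intro h1
    by_contra h2
    push Not at h2
    have : (1 - t) * (1 - t / 2 + t ^ 2 / 10) ≤ 0 := mul_nonpos_of_nonpos_of_nonneg (by linarith) h.le
    linarith
  · intro h1
    exact mul_pos (by linarith) h

lemma P_le_one {t : ℝ} (ht : 0 ≤ t) : P t ≤ 1 := by
  unfold P
  nlinarith [mul_nonneg ht (sq_nonneg (t - 3)), mul_nonneg ht (sq_nonneg t)]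

noncomputable def G (δ : ℝ) (p : ℝ × ℝ) : ℝ := HH δ (P (p.1 ^ 2 + p.2 ^ 2))

lemma G_contDiff {δ : ℝ} (hδ : 0 < δ) : ContDiff ℝ 1 (G δ) := by
  unfold G
  refine (HH_contDiff hδ).comp ?_
  unfold P
  fun_prop

lemma G_supp {δ : ℝ} {p : ℝ × ℝ} (hp : p ∈ tsupport (G δ)) :
    δ ≤ P (p.1 ^ 2 + p.2 ^ 2) := by
  have hcl : IsClosed {p : ℝ × ℝ | δ ≤ P (p.1 ^ 2 + p.2 ^ 2)} := by
    refine isClosed_le continuous_const ?_
    unfold P
    fun_prop
  have hsub : Function.support (G δ) ⊆ {p : ℝ × ℝ | δ ≤ P (p.1 ^ 2 + p.2 ^ 2)} := by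
    intro p hp
    simp only [mem_ofPred_eq]
    by_contra h
    push Not at h
    exact hp (HH_zero h.le)
  exact closure_minimal hsub hcl hp

lemma G_adm {δ : ℝ} (hδ : 0 < δ) : DAdm (G δ) := by
  have hin : ∀ p ∈ tsupport (G δ), p.1 ^ 2 + p.2 ^ 2 < 1 := fun p hp =>
    P_pos_iff.1 (lt_of_lt_of_le hδ (G_supp hp))
  refine ⟨G_contDiff hδ, ?_, hin⟩
  refine IsCompact.of_isClosed_subset (isCompact_Icc.prod isCompact_Icc :
    IsCompact (Icc (-1 : ℝ) 1 ×ˢ Icc (-1 : ℝ) 1)) (isClosed_tsupport _) ?_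
  rintro ⟨x, y⟩ hp
  have h := hin _ hp
  simp only at h
  refine ⟨⟨?_, ?_⟩, ⟨?_, ?_⟩⟩ <;> simp only <;> nlinarith [sq_nonneg x, sq_nonneg y]

lemma G_deriv {δ : ℝ} (hδ : 0 < δ) (p : ℝ × ℝ) :
    dx (G δ) p ^ 2 + dy (G δ) p ^ 2 ≤ cut (fun t => 4 * t * Pd t ^ 2) p := by
  have hρ : HasFDerivAt (fun p : ℝ × ℝ => p.1 ^ 2 + p.2 ^ 2)
      ((2 * p.1) • ContinuousLinearMap.fst ℝ ℝ ℝ + (2 * p.2) • ContinuousLinearMap.snd ℝ ℝ ℝ) p := by
    have h1 := (hasFDerivAt_fst (𝕜 := ℝ) (p := p)).pow 2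
    have h2 := (hasFDerivAt_snd (𝕜 := ℝ) (p := p)).pow 2
    refine (h1.add h2).congr_fderiv ?_
    ext <;> simp
  set c := 1 - δ ^ 2 / (max (P (p.1 ^ 2 + p.2 ^ 2)) δ) ^ 2 with hc
  have hG : HasFDerivAt (G δ) ((c * Pd (p.1 ^ 2 + p.2 ^ 2)) •
      ((2 * p.1) • ContinuousLinearMap.fst ℝ ℝ ℝ + (2 * p.2) • ContinuousLinearMap.snd ℝ ℝ ℝ)) p := by
    have h3 : HasDerivAt (fun t => HH δ (P t)) (c * Pd (p.1 ^ 2 + p.2 ^ 2)) (p.1 ^ 2 + p.2 ^ 2) :=
      (HH_hasDerivAt hδ _).comp _ (P_hasDerivAt _)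
    have h4 : HasFDerivAt ((fun t => HH δ (P t)) ∘ (fun p : ℝ × ℝ => p.1 ^ 2 + p.2 ^ 2))
        ((c * Pd (p.1 ^ 2 + p.2 ^ 2)) • ((2 * p.1) • ContinuousLinearMap.fst ℝ ℝ ℝ +
          (2 * p.2) • ContinuousLinearMap.snd ℝ ℝ ℝ)) p := h3.comp_hasFDerivAt p hρ
    exact h4
  have hx : dx (G δ) p = c * Pd (p.1 ^ 2 + p.2 ^ 2) * (2 * p.1) := by
    unfold dx
    rw [hG.fderiv]
    simp
  have hy : dy (G δ) p = c * Pd (p.1 ^ 2 + p.2 ^ 2) * (2 * p.2) := by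
    unfold dy
    rw [hG.fderiv]
    simp
  rw [hx, hy]
  have hc1 : c ^ 2 ≤ 1 := HHd_sq hδ _
  have e : (c * Pd (p.1 ^ 2 + p.2 ^ 2) * (2 * p.1)) ^ 2 + (c * Pd (p.1 ^ 2 + p.2 ^ 2) * (2 * p.2)) ^ 2
      = c ^ 2 * (4 * (p.1 ^ 2 + p.2 ^ 2) * Pd (p.1 ^ 2 + p.2 ^ 2) ^ 2) := by ring
  rw [e]
  unfold cut
  by_cases h : p.1 ^ 2 + p.2 ^ 2 < 1
  · rw [indicator_of_mem (by exact h)]
    have h0 : 0 ≤ 4 * (p.1 ^ 2 + p.2 ^ 2) * Pd (p.1 ^ 2 + p.2 ^ 2) ^ 2 := by positivity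
    calc _ ≤ 1 * (4 * (p.1 ^ 2 + p.2 ^ 2) * Pd (p.1 ^ 2 + p.2 ^ 2) ^ 2) :=
          mul_le_mul_of_nonneg_right hc1 h0
      _ = _ := one_mul _
  · rw [indicator_of_notMem (by exact h)]
    have h1 : P (p.1 ^ 2 + p.2 ^ 2) ≤ δ := by
      have : ¬ 0 < P (p.1 ^ 2 + p.2 ^ 2) := fun h2 => h (P_pos_iff.1 h2)
      linarith [not_lt.1 this]
    have h2 : c = 0 := by
      rw [hc, max_eq_right h1, div_self (by positivity), sub_self]
    rw [h2]
    simp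

lemma G_lower {δ : ℝ} (hδ : 0 < δ) (p : ℝ × ℝ) :
    cut (fun t => P t ^ 2 - 4 * δ) p ≤ G δ p ^ 2 := by
  unfold cut
  by_cases h : p.1 ^ 2 + p.2 ^ 2 < 1
  · rw [indicator_of_mem (by exact h)]
    exact HH_lower hδ _ (P_pos_iff.2 h).le (P_le_one (by positivity))
  · rw [indicator_of_notMem (by exact h)]
    positivity

lemma sG_le {δ : ℝ} (hδ : 0 < δ) : sG (G δ) ≤ 381 / 500 * (2 * Real.pi) := by
  have hcd := G_contDiff hδ
  have hcs := (G_adm hδ).2.1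
  have h1 : sG (G δ) = ∫ p, (dx (G δ) p ^ 2 + dy (G δ) p ^ 2) := by
    unfold sG q11 q22
    rw [← integral_add (int_sq (continuous_dx hcd) (hcs_dx hcs)) (int_sq (continuous_dy hcd) (hcs_dy hcs))]
  rw [h1]
  have hq : Continuous (fun t : ℝ => 4 * t * Pd t ^ 2) := by unfold Pd; fun_prop
  refine (integral_mono ((int_sq (continuous_dx hcd) (hcs_dx hcs)).add
    (int_sq (continuous_dy hcd) (hcs_dy hcs))) (integrable_cut hq) (G_deriv hδ)).trans ?_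
  rw [integral_cut]
  refine mul_le_mul_of_nonneg_right (le_of_eq ?_) (by positivity)
  have h2 : ∀ r : ℝ, HasDerivAt (fun r : ℝ => 9 / 4 * r ^ 4 - 12 / 5 * r ^ 6 + 117 / 100 * r ^ 8
      - 36 / 125 * r ^ 10 + 3 / 100 * r ^ 12) (r * (4 * r ^ 2 * Pd (r ^ 2) ^ 2)) r := by
    intro r
    have h := ((((((hasDerivAt_id r).pow 4).const_mul (9 / 4 : ℝ)).sub
      (((hasDerivAt_id r).pow 6).const_mul (12 / 5 : ℝ))).add
      (((hasDerivAt_id r).pow 8).const_mul (117 / 100 : ℝ))).sub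
      (((hasDerivAt_id r).pow 10).const_mul (36 / 125 : ℝ))).add
      (((hasDerivAt_id r).pow 12).const_mul (3 / 100 : ℝ))
    exact h.congr_deriv (by simp only [id, Pd]; ring)
  rw [intervalIntegral.integral_eq_sub_of_hasDerivAt (fun r _ => h2 r)
    ((by unfold Pd; fun_prop : Continuous fun r : ℝ => r * (4 * r ^ 2 * Pd (r ^ 2) ^ 2)).intervalIntegrable _ _)]
  norm_num

lemma qN_ge {δ : ℝ} (hδ : 0 < δ) : (461 / 3500 - 2 * δ) * (2 * Real.pi) ≤ qN (G δ) := by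
  have hcd := G_contDiff hδ
  have hcs := (G_adm hδ).2.1
  have hq : Continuous (fun t : ℝ => P t ^ 2 - 4 * δ) := by unfold P; fun_prop
  unfold qN
  refine le_trans ?_ (integral_mono (integrable_cut hq) (int_sq hcd.continuous hcs) (G_lower hδ))
  rw [integral_cut]
  refine mul_le_mul_of_nonneg_right (le_of_eq ?_) (by positivity)
  have h2 : ∀ r : ℝ, HasDerivAt (fun r : ℝ => 1 / 2 * r ^ 2 - 3 / 4 * r ^ 4 + 23 / 40 * r ^ 6
      - 1 / 4 * r ^ 8 + 33 / 500 * r ^ 10 - 1 / 100 * r ^ 12 + 1 / 1400 * r ^ 14 - 2 * δ * r ^ 2)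
      (r * (P (r ^ 2) ^ 2 - 4 * δ)) r := by
    intro r
    have h := (((((((((hasDerivAt_id r).pow 2).const_mul (1 / 2 : ℝ)).sub
      (((hasDerivAt_id r).pow 4).const_mul (3 / 4 : ℝ))).add
      (((hasDerivAt_id r).pow 6).const_mul (23 / 40 : ℝ))).sub
      (((hasDerivAt_id r).pow 8).const_mul (1 / 4 : ℝ))).add
      (((hasDerivAt_id r).pow 10).const_mul (33 / 500 : ℝ))).sub
      (((hasDerivAt_id r).pow 12).const_mul (1 / 100 : ℝ))).add
      (((hasDerivAt_id r).pow 14).const_mul (1 / 1400 : ℝ))).sub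
      (((hasDerivAt_id r).pow 2).const_mul (2 * δ))
    exact h.congr_deriv (by simp only [id, P]; ring)
  rw [intervalIntegral.integral_eq_sub_of_hasDerivAt (fun r _ => h2 r)
    ((by unfold P; fun_prop : Continuous fun r : ℝ => r * (P (r ^ 2) ^ 2 - 4 * δ)).intervalIntegrable _ _)]
  ring

end ModM

theorem test_fun : ∃ G : ℝ × ℝ → ℝ, DAdm G ∧ 0 < qN G ∧ sG G ≤ 29 / 5 * qN G := by
  have hδ : (0 : ℝ) < 1 / 10000 := by norm_num
  have h1 := ModM.sG_le hδ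
  have h2 := ModM.qN_ge hδ
  have hπ := Real.pi_pos
  refine ⟨ModM.G (1 / 10000), ModM.G_adm hδ, ?_, ?_⟩
  · refine lt_of_lt_of_le ?_ h2
    norm_num
    positivity
  · nlinarith

end Pool.Agent.Lib.MP_9c48c1_an.Disk
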