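import Mathlib
import Pool.Agent.Lib.MP_9c48c1_an.Sharp
import Pool.Agent.Lib.MP_9c48c1_an_disk.Defs
import Pool.Agent.Lib.MP_9c48c1_an_disk.L
import Pool.Agent.Lib.MP_9c48c1_an_disk.M
import Pool.Agent.Lib.MP_9c48c1_an_disk.K

set_option autoImplicit false

/-! The best constant of the disk. -/

namespace Pool.Agent.Lib.MP_9c48c1_an.Disk

open MeasureTheory Set Pool.Agent.Lib.MP_9c48c1_an

variable {f : E 2 → ℝ}

lemma isOpen_disk : IsOpen disk :=
  isOpen_lt (by fun_prop : Continuous fun x : E 2 => x 0 ^ 2 + x 1 ^ 2) continuous_const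

lemma disk_bounded : Bornology.IsBounded disk := by
  rw [isBounded_iff_forall_norm_le]
  refine ⟨1, fun x hx => ?_⟩
  have h : x 0 ^ 2 + x 1 ^ 2 < 1 := hx
  have h2 : ‖x‖ ^ 2 = x 0 * x 0 + x 1 * x 1 := norm_sq_two x
  have h3 : ‖x‖ ^ 2 ≤ 1 := by rw [h2]; nlinarith
  nlinarith [norm_nonneg x]

lemma GG_DAdm (hf : Adm disk f) : DAdm (GG f) := by
  refine ⟨GG_contDiff hf.1, GG_compact disk_bounded hf, fun p hp => ?_⟩
  have h1 : p ∈ LL ⁻¹' tsupport f := tsupport_comp_subset_preimage f LL.continuous hp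
  have h2 : LL p ∈ disk := hf.2 h1
  have h3 : (LL p) 0 ^ 2 + (LL p) 1 ^ 2 < 1 := h2
  rw [LL_apply] at h3
  simpa using h3

/-- The function on Euclidean space belonging to `G`. -/
noncomputable def UU (G : ℝ × ℝ → ℝ) (x : E 2) : ℝ := G (x 0, x 1)

lemma GG_UU (G : ℝ × ℝ → ℝ) : GG (UU G) = G := by
  funext p
  show UU G (LL p) = G p
  rw [LL_apply]; simp [UU]

lemma UU_adm {G : ℝ × ℝ → ℝ} (hG : DAdm G) : Adm disk (UU G) := by
  have hc : ContDiff ℝ 1 (fun x : E 2 => ((x 0, x 1) : ℝ × ℝ)) := by fun_prop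
  refine ⟨hG.1.comp hc, fun x hx => ?_⟩
  have h1 : x ∈ (fun x : E 2 => ((x 0, x 1) : ℝ × ℝ)) ⁻¹' tsupport G :=
    tsupport_comp_subset_preimage G hc.continuous hx
  exact hG.2.2 _ h1

lemma int_grad (hf : Adm disk f) : ∫ x, ‖gradient f x‖ ^ 2 = sG (GG f) := by
  have hg : MemLp (gradient f) 2 := adm_grad_memLp disk_bounded hf
  have h3 : ∫ x, (gradient f x 0 * gradient f x 0 + gradient f x 1 * gradient f x 1) =
      mom 0 0 (gradient f) + mom 1 1 (gradient f) :=
    integral_add (integrable_comp hg 0 0) (integrable_comp hg 1 1)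
  rw [sG, ← mom00_eq hf.1, ← mom11_eq hf.1, ← h3]
  refine integral_congr_ae ?_
  filter_upwards with x
  rw [norm_sq_two]

lemma int_sq_f : ∫ x, |f x| ^ 2 = qN (GG f) := by
  rw [← msq_eq]; unfold msq
  refine integral_congr_ae ?_
  filter_upwards with x
  rw [sq_abs]

lemma qN_pos_of_ne (hf : Adm disk f) (h0 : f ≠ 0) : 0 < qN (GG f) := by
  rw [← msq_eq]
  refine msq_pos (adm_memLp disk_bounded hf) fun h => h0 ?_
  exact (Continuous.ae_eq_iff_eq volume hf.1.continuous continuous_zero).1 h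

lemma mem_ge {c : ℝ} (hc : c ∈ {c : ℝ | ∃ f : E 2 → ℝ, Adm disk f ∧ f ≠ 0 ∧
    c = (∫ x, ‖gradient f x‖ ^ 2) / ∫ x, |f x| ^ 2}) : Real.pi ^ 2 / 2 ≤ c := by
  obtain ⟨f, hf, h0, rfl⟩ := hc
  rw [int_grad hf, int_sq_f, le_div_iff₀ (qN_pos_of_ne hf h0), sG]
  have h1 := strip11 (GG_DAdm hf)
  have h2 := strip22 (GG_DAdm hf)
  linarith

lemma bdd : BddBelow {c : ℝ | ∃ f : E 2 → ℝ, Adm disk f ∧ f ≠ 0 ∧
    c = (∫ x, ‖gradient f x‖ ^ 2) / ∫ x, |f x| ^ 2} := ⟨Real.pi ^ 2 / 2, fun _ hc => mem_ge hc⟩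

lemma UU_ne {G : ℝ × ℝ → ℝ} (h : 0 < qN G) : UU G ≠ 0 := by
  intro h0
  have h1 : G = 0 := by
    have h2 := GG_UU G
    rw [h0] at h2
    rw [← h2]; rfl
  rw [h1] at h
  simp [qN] at h

lemma lambda1_le {G : ℝ × ℝ → ℝ} (hG : DAdm G) (h : 0 < qN G) : lambda1 disk ≤ sG G / qN G := by
  refine csInf_le bdd ⟨UU G, UU_adm hG, UU_ne h, ?_⟩
  rw [int_grad (UU_adm hG), int_sq_f, GG_UU]

lemma lambda1_mul {G : ℝ × ℝ → ℝ} (hG : DAdm G) : lambda1 disk * qN G ≤ sG G := by
  have h0 : 0 ≤ qN G := integral_nonneg fun p => sq_nonneg _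
  rcases h0.eq_or_lt with h | h
  · rw [← h, mul_zero]
    exact add_nonneg (integral_nonneg fun p => sq_nonneg _) (integral_nonneg fun p => sq_nonneg _)
  · have := lambda1_le hG h
    rwa [le_div_iff₀ h] at this

theorem lambda1_bounds : Real.pi ^ 2 / 2 ≤ lambda1 disk ∧ lambda1 disk ≤ 29 / 5 := by
  obtain ⟨G, hG, h1, h2⟩ := test_fun
  constructor
  · exact le_csInf ⟨_, UU G, UU_adm hG, UU_ne h1, rfl⟩ fun c hc => mem_ge hc
  · refine (lambda1_le hG h1).trans ?_
    rw [div_le_iff₀ h1]; exact h2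

theorem disk_best : IsBestConst 2 disk (lambda1 disk ^ ((1:ℝ) / 4)) := by
  obtain ⟨hl, hu⟩ := lambda1_bounds
  have hpi : 0 < Real.pi ^ 2 / 2 := by positivity
  have hlpos : 0 < lambda1 disk := lt_of_lt_of_le hpi hl
  have h4 : (lambda1 disk ^ ((1:ℝ) / 4)) ^ 4 = lambda1 disk := by
    rw [← Real.rpow_natCast, ← Real.rpow_mul hlpos.le]; norm_num
  have hr0 : 0 ≤ lambda1 disk ^ ((1:ℝ) / 4) := Real.rpow_nonneg hlpos.le _
  -- facts on a nonzero admissible function
  have facts : ∀ f : E 2 → ℝ, Adm disk f → f ≠ 0 →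
      0 < msq f ∧ 0 < mom 0 0 (gradient f) ∧ 0 < mom 0 0 (gradient f) + mom 1 1 (gradient f) ∧
      lambda1 disk * (msq f * (mom 0 0 (gradient f) + mom 1 1 (gradient f))) ≤
        4 * mdet (gradient f) ∧ 0 < mdet (gradient f) := by
    intro f hf h0
    have hG := GG_DAdm hf
    have hn := qN_pos_of_ne hf h0
    have h1 := strip11 hG
    have h2 := strip22 hG
    have h3 := main_disk hlpos.le hu (fun G hG => lambda1_mul hG) hG
    have e1 : msq f = qN (GG f) := msq_eq f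
    have e2 : mom 0 0 (gradient f) = q11 (GG f) := mom00_eq hf.1
    have e3 : mom 1 1 (gradient f) = q22 (GG f) := mom11_eq hf.1
    have e4 : mom 0 1 (gradient f) = q12 (GG f) := mom01_eq hf.1
    have p1 : 0 < Real.pi ^ 2 / 4 * qN (GG f) := by positivity
    have h5 : lambda1 disk * (msq f * (mom 0 0 (gradient f) + mom 1 1 (gradient f))) ≤
        4 * mdet (gradient f) := by
      unfold mdet
      rw [e1, e2, e3, e4]
      have : sG (GG f) = q11 (GG f) + q22 (GG f) := rfl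
      rw [this] at h3
      linarith
    have h6 : 0 < msq f := by rw [e1]; exact hn
    have h7 : 0 < mom 0 0 (gradient f) := by rw [e2]; linarith
    have h8 : 0 < mom 0 0 (gradient f) + mom 1 1 (gradient f) := by rw [e2, e3]; linarith
    refine ⟨h6, h7, h8, h5, ?_⟩
    have : 0 < lambda1 disk * (msq f * (mom 0 0 (gradient f) + mom 1 1 (gradient f))) := by positivity
    linarith
  constructor
  · intro f hf
    have hg : MemLp (gradient f) 2 := adm_grad_memLp disk_bounded hf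
    by_cases h0 : f = 0
    · have h2 : msq f = 0 := by rw [h0]; simp [msq]
      rw [rhs_two _ hg, h2]
      simp only [Real.sqrt_zero, zero_mul, mul_zero]
      unfold affEnergy cnp
      refine mul_nonneg ?_ (Real.rpow_nonneg (integral_nonneg fun ξ => ?_) _)
      · have h3 : ((2 : ℕ) : ℝ) = 2 := by norm_num
        rw [h3]
        have e1 : (2 : ℝ) - 1 = 1 := by norm_num
        have e2 : (2 : ℝ) + 2 - 2 = 2 := by norm_num
        rw [e1, e2, omega_two, omega_one]
        have := Real.pi_pos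
        positivity
      · refine Real.rpow_nonneg ?_ _
        exact Real.rpow_nonneg (integral_nonneg fun x => Real.rpow_nonneg (abs_nonneg _) _) _
    · obtain ⟨h1, h2, h3, h5, h6⟩ := facts f hf h0
      have a1 := rhs_pow (lambda1 disk ^ ((1:ℝ) / 4)) f hg
      have a2 := energy_pow hg h2 h6
      rw [h4] at a1
      have a3 : 0 ≤ affEnergy 2 (gradient f) := by rw [affEnergy_two hg h2 h6]; positivity
      refine le_of_pow_le_pow_left₀ (n := 4) (by norm_num) a3 ?_
      rw [a1, a2]; exact h5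
  · intro A hA
    rcases le_or_gt A 0 with hA0 | hA0
    · exact hA0.trans hr0
    · refine le_of_pow_le_pow_left₀ (n := 4) (by norm_num) hr0 ?_
      rw [h4]
      obtain ⟨G, hG, hG1, hG2⟩ := test_fun
      refine le_csInf ⟨_, UU G, UU_adm hG, UU_ne hG1, rfl⟩ ?_
      rintro c ⟨f, hf, h0, rfl⟩
      have hg : MemLp (gradient f) 2 := adm_grad_memLp disk_bounded hf
      obtain ⟨h1, h2, h3, h5, h6⟩ := facts f hf h0
      have b1 := hA f hf
      have b2 : (A * rhs 2 f (gradient f)) ^ 4 ≤ (affEnergy 2 (gradient f)) ^ 4 := by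
        refine pow_le_pow_left₀ ?_ b1 4
        rw [rhs_two _ hg]; positivity
      rw [rhs_pow A _ hg, energy_pow hg h2 h6] at b2
      have b3 : 4 * mdet (gradient f) ≤ (mom 0 0 (gradient f) + mom 1 1 (gradient f)) ^ 2 := by
        unfold mdet
        nlinarith [sq_nonneg (mom 0 1 (gradient f)),
          sq_nonneg (mom 0 0 (gradient f) - mom 1 1 (gradient f))]
      rw [int_grad hf, int_sq_f, ← msq_eq, sG, ← mom00_eq hf.1, ← mom11_eq hf.1, le_div_iff₀ h1]
      have b4 : A ^ 4 * msq f * (mom 0 0 (gradient f) + mom 1 1 (gradient f)) ≤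
          (mom 0 0 (gradient f) + mom 1 1 (gradient f)) *
          (mom 0 0 (gradient f) + mom 1 1 (gradient f)) := by nlinarith
      exact le_of_mul_le_mul_right b4 h3

end Pool.Agent.Lib.MP_9c48c1_an.Disk
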