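import Mathlib
import Pool.Agent.Lib.MP_9c48c1_an_disk.BDefs

set_option autoImplicit false

/-! Module P (helper14): the Bessel function `J₀` through its power series. -/

namespace Pool.Agent.Lib.MP_9c48c1_an.Disk

open Filter Topology

namespace Bes

/-- The sum of a power series. -/
noncomputable def ps (c : ℕ → ℝ) (t : ℝ) : ℝ := ∑' k, c k * t ^ k

def Small (c : ℕ → ℝ) : Prop := ∀ k, |c k| ≤ 1 / (k.factorial : ℝ)

lemma summable_ps {c : ℕ → ℝ} (hc : Small c) (t : ℝ) : Summable (fun k => c k * t ^ k) := by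
  refine Summable.of_norm_bounded (g := fun k => |t| ^ k / (k.factorial : ℝ))
    (Real.summable_pow_div_factorial |t|) ?_
  intro k
  rw [norm_mul, norm_pow, Real.norm_eq_abs, Real.norm_eq_abs]
  calc |c k| * |t| ^ k ≤ 1 / (k.factorial : ℝ) * |t| ^ k := by gcongr; exact hc k
    _ = _ := by ring

/-- The coefficients of the derivative. -/
noncomputable def sh (c : ℕ → ℝ) (k : ℕ) : ℝ := ((k : ℝ) + 1) * c (k + 1)

lemma summable_aux (R : ℝ) :
    Summable (fun k : ℕ => 1 / (k.factorial : ℝ) * ((k : ℝ) * R ^ (k - 1))) := by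
  refine (summable_nat_add_iff 1).1 ?_
  refine (Real.summable_pow_div_factorial R).congr fun k => ?_
  rw [Nat.factorial_succ]
  push_cast
  have : (k.factorial : ℝ) ≠ 0 := by positivity
  have h2 : (k : ℝ) + 1 ≠ 0 := by positivity
  field_simp

lemma ps_deriv {c : ℕ → ℝ} (hc : Small c) (t : ℝ) : HasDerivAt (ps c) (ps (sh c) t) t := by
  have hb : ∀ (n : ℕ) (y : ℝ), y ∈ Metric.ball (0 : ℝ) (|t| + 1) →
      ‖c n * ((n : ℝ) * y ^ (n - 1))‖ ≤ 1 / (n.factorial : ℝ) * ((n : ℝ) * (|t| + 1) ^ (n - 1)) := by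
    intro n y hy
    rw [mem_ball_zero_iff, Real.norm_eq_abs] at hy
    rw [norm_mul, norm_mul, norm_pow, Real.norm_eq_abs, Real.norm_eq_abs, Real.norm_eq_abs,
      abs_of_nonneg (by positivity : (0 : ℝ) ≤ (n : ℝ))]
    exact mul_le_mul (hc n) (mul_le_mul_of_nonneg_left (pow_le_pow_left₀ (abs_nonneg _) hy.le _)
      (by positivity)) (by positivity) (by positivity)
  have ht : t ∈ Metric.ball (0 : ℝ) (|t| + 1) := by
    rw [mem_ball_zero_iff, Real.norm_eq_abs]; linarith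
  have h := hasDerivAt_tsum_of_isPreconnected (g := fun k t => c k * t ^ k)
    (g' := fun k t => c k * ((k : ℝ) * t ^ (k - 1))) (summable_aux (|t| + 1)) Metric.isOpen_ball
    (convex_ball (0 : ℝ) (|t| + 1)).isPreconnected
    (fun n y _ => (hasDerivAt_pow n y).const_mul (c n)) hb ht (summable_ps hc t) ht
  refine h.congr_deriv ?_
  have hs : Summable (fun n => c n * ((n : ℝ) * t ^ (n - 1))) :=
    Summable.of_norm_bounded (summable_aux (|t| + 1)) fun n => hb n t ht
  rw [hs.tsum_eq_zero_add]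
  unfold ps sh
  simp only [Nat.cast_zero, zero_mul, mul_zero, zero_add, Nat.add_sub_cancel, Nat.cast_add,
    Nat.cast_one]
  refine tsum_congr fun k => ?_
  ring

/-- The coefficients of `J₀(√t)`. -/
noncomputable def cB (k : ℕ) : ℝ := (-1 / 4) ^ k / ((k.factorial : ℝ) ^ 2)

lemma cB_succ (k : ℕ) : 4 * ((k : ℝ) + 1) ^ 2 * cB (k + 1) = -cB k := by
  unfold cB
  rw [Nat.factorial_succ]
  push_cast
  have : (k.factorial : ℝ) ≠ 0 := by positivity
  have h2 : (k : ℝ) + 1 ≠ 0 := by positivity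
  field_simp
  ring

lemma fact_ge (k : ℕ) : (1 : ℝ) ≤ (k.factorial : ℝ) := by exact_mod_cast Nat.succ_le_of_lt k.factorial_pos

lemma cB_abs (k : ℕ) : |cB k| ≤ 1 / (k.factorial : ℝ) ^ 2 := by
  unfold cB
  rw [abs_div, abs_pow, abs_of_nonneg (by positivity : (0 : ℝ) ≤ (k.factorial : ℝ) ^ 2)]
  gcongr
  refine pow_le_one₀ (abs_nonneg _) ?_
  rw [abs_div]; norm_num

lemma small_cB : Small cB := by
  intro k
  refine (cB_abs k).trans ?_
  have := fact_ge k
  gcongr
  nlinarith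

lemma small_sh : Small (sh cB) := by
  intro k
  unfold sh
  rw [abs_mul, abs_of_nonneg (by positivity : (0 : ℝ) ≤ (k : ℝ) + 1)]
  have h1 := cB_abs (k + 1)
  have h2 : ((k + 1).factorial : ℝ) = ((k : ℝ) + 1) * k.factorial := by
    rw [Nat.factorial_succ]; push_cast; ring
  rw [h2] at h1
  have h3 := fact_ge k
  have h4 : (0 : ℝ) < (k : ℝ) + 1 := by positivity
  calc ((k : ℝ) + 1) * |cB (k + 1)| ≤ ((k : ℝ) + 1) * (1 / (((k : ℝ) + 1) * k.factorial) ^ 2) := by
        gcongr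
    _ = 1 / (((k : ℝ) + 1) * k.factorial ^ 2) := by field_simp
    _ ≤ 1 / (k.factorial : ℝ) := by
        gcongr
        have h5 : (1 : ℝ) ≤ (k : ℝ) + 1 := by linarith [(Nat.cast_nonneg k : (0 : ℝ) ≤ k)]
        nlinarith [mul_le_mul h5 h3 zero_le_one (by positivity : (0 : ℝ) ≤ (k : ℝ) + 1)]

lemma small_sh2 : Small (sh (sh cB)) := by
  intro k
  unfold sh
  have h1 := cB_abs (k + 2)
  have h2 : ((k + 2).factorial : ℝ) = ((k : ℝ) + 2) * (((k : ℝ) + 1) * k.factorial) := by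
    rw [Nat.factorial_succ, Nat.factorial_succ]; push_cast; ring
  rw [h2] at h1
  have h3 := fact_ge k
  have e : ((k : ℝ) + 1) * ((((k + 1 : ℕ) : ℝ) + 1) * cB (k + 1 + 1)) =
      (((k : ℝ) + 1) * ((k : ℝ) + 2)) * cB (k + 2) := by push_cast; ring
  rw [e, abs_mul, abs_of_nonneg (by positivity : (0 : ℝ) ≤ ((k : ℝ) + 1) * ((k : ℝ) + 2))]
  calc ((k : ℝ) + 1) * ((k : ℝ) + 2) * |cB (k + 2)| ≤ ((k : ℝ) + 1) * ((k : ℝ) + 2) *
        (1 / (((k : ℝ) + 2) * (((k : ℝ) + 1) * k.factorial)) ^ 2) := by gcongr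
    _ = 1 / ((((k : ℝ) + 1) * ((k : ℝ) + 2)) * k.factorial ^ 2) := by field_simp
    _ ≤ 1 / (k.factorial : ℝ) := by
        gcongr
        have h6 : (0 : ℝ) ≤ k := Nat.cast_nonneg k
        have h5 : (1 : ℝ) ≤ ((k : ℝ) + 1) * ((k : ℝ) + 2) := by nlinarith
        nlinarith [mul_le_mul h5 h3 zero_le_one (by positivity : (0 : ℝ) ≤ ((k : ℝ) + 1) * ((k : ℝ) + 2))]

/-- `b t = J₀(√t)` and its derivatives. -/
noncomputable def b (t : ℝ) : ℝ := ps cB t
noncomputable def b1 (t : ℝ) : ℝ := ps (sh cB) t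
noncomputable def b2 (t : ℝ) : ℝ := ps (sh (sh cB)) t

lemma b_deriv (t : ℝ) : HasDerivAt b (b1 t) t := ps_deriv small_cB t
lemma b1_deriv (t : ℝ) : HasDerivAt b1 (b2 t) t := ps_deriv small_sh t
lemma b2_deriv (t : ℝ) : ∃ d, HasDerivAt b2 d t := ⟨_, ps_deriv small_sh2 t⟩

lemma b_cont : Continuous b := continuous_iff_continuousAt.2 fun t => (b_deriv t).continuousAt
lemma b1_cont : Continuous b1 := continuous_iff_continuousAt.2 fun t => (b1_deriv t).continuousAt
lemma b2_cont : Continuous b2 := continuous_iff_continuousAt.2 fun t =>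
  (b2_deriv t).choose_spec.continuousAt

lemma b_zero : b 0 = 1 := by
  unfold b ps
  rw [tsum_eq_single 0]
  · simp [cB]
  · intro k hk
    simp [hk]

/-- The Bessel equation. -/
lemma ode (t : ℝ) : 4 * (b1 t + t * b2 t) = -b t := by
  -- `t b'(t) = ∑ k c_k t^k`
  have hsm : Small (fun k => (k : ℝ) * cB k) := by
    intro k
    rw [abs_mul, abs_of_nonneg (Nat.cast_nonneg k)]
    have h3 := fact_ge k
    have h4 : (k : ℝ) ≤ k.factorial := by exact_mod_cast Nat.self_le_factorial k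
    calc (k : ℝ) * |cB k| ≤ (k.factorial : ℝ) * (1 / (k.factorial : ℝ) ^ 2) :=
          mul_le_mul h4 (cB_abs k) (abs_nonneg _) (by positivity)
      _ = 1 / (k.factorial : ℝ) := by field_simp
  have h1 : ∀ s : ℝ, s * b1 s = ps (fun k => (k : ℝ) * cB k) s := by
    intro s
    unfold ps
    rw [(summable_ps hsm s).tsum_eq_zero_add]
    unfold b1 ps sh
    rw [← tsum_mul_left]
    simp only [Nat.cast_zero, zero_mul, zero_add, Nat.cast_add, Nat.cast_one]
    refine tsum_congr fun k => ?_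
    ring
  have h2 : HasDerivAt (fun s => s * b1 s) (ps (sh (fun k => (k : ℝ) * cB k)) t) t := by
    have : (fun s => s * b1 s) = ps (fun k => (k : ℝ) * cB k) := funext h1
    rw [this]
    exact ps_deriv hsm t
  have h3 : HasDerivAt (fun s => s * b1 s) (1 * b1 t + t * b2 t) t :=
    (hasDerivAt_id t).mul (b1_deriv t)
  have h4 := h2.unique h3
  rw [one_mul] at h4
  rw [← h4]
  unfold ps b ps
  rw [← tsum_mul_left, ← tsum_neg]
  refine tsum_congr fun k => ?_
  unfold sh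
  have := cB_succ k
  push_cast
  calc 4 * (((k : ℝ) + 1) * (((k : ℝ) + 1) * cB (k + 1)) * t ^ k) =
      4 * ((k : ℝ) + 1) ^ 2 * cB (k + 1) * t ^ k := by ring
    _ = _ := by rw [this]; ring

end Bes

open Bes

theorem bes_eq (t : ℝ) : bes t = b (4 * t) := by
  unfold bes b ps cB
  refine tsum_congr fun k => ?_
  have h : (-1 / 4 : ℝ) ^ k * (4 * t) ^ k = (-1) ^ k * t ^ k := by
    rw [← mul_pow, ← mul_pow]
    congr 1
    ring
  rw [div_mul_eq_mul_div, h]

theorem bes'_eq (t : ℝ) : bes' t = 4 * b1 (4 * t) := by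
  unfold bes' b1 ps
  rw [← tsum_mul_left]
  refine tsum_congr fun k => ?_
  unfold sh cB
  have h : (-1 / 4 : ℝ) ^ (k + 1) * (4 * t) ^ k * 4 = (-1) ^ (k + 1) * t ^ k := by
    rw [pow_succ (-1 / 4 : ℝ) k, pow_succ (-1 : ℝ) k]
    have : (-1 / 4 : ℝ) ^ k * (4 * t) ^ k = (-1) ^ k * t ^ k := by
      rw [← mul_pow, ← mul_pow]
      congr 1
      ring
    calc (-1 / 4 : ℝ) ^ k * (-1 / 4) * (4 * t) ^ k * 4 = -((-1 / 4 : ℝ) ^ k * (4 * t) ^ k) := by ring
      _ = _ := by rw [this]; ring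
  have hk : (k.factorial : ℝ) ≠ 0 := by positivity
  have h2 : (k : ℝ) + 1 ≠ 0 := by positivity
  rw [← h, Nat.factorial_succ]
  push_cast
  field_simp

theorem bes_deriv (t : ℝ) : HasDerivAt bes (bes' t) t := by
  have h0 : bes = fun t => b (4 * t) := funext bes_eq
  have h1 : HasDerivAt (fun t : ℝ => 4 * t) 4 t := by
    simpa using (hasDerivAt_id t).const_mul (4 : ℝ)
  have h2 : HasDerivAt (b ∘ fun t : ℝ => 4 * t) (b1 (4 * t) * 4) t := (b_deriv (4 * t)).comp t h1
  rw [h0, bes'_eq, mul_comm]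
  exact h2

theorem bes'_deriv (t : ℝ) : HasDerivAt bes' (16 * b2 (4 * t)) t := by
  have h0 : bes' = fun t => 4 * b1 (4 * t) := funext bes'_eq
  have h1 : HasDerivAt (fun t : ℝ => 4 * t) 4 t := by
    simpa using (hasDerivAt_id t).const_mul (4 : ℝ)
  have h2 : HasDerivAt (b1 ∘ fun t : ℝ => 4 * t) (b2 (4 * t) * 4) t := (b1_deriv (4 * t)).comp t h1
  have h3 := h2.const_mul (4 : ℝ)
  rw [h0]
  exact h3.congr_deriv (by ring)

theorem bes'_cont : Continuous bes' :=
  continuous_iff_continuousAt.2 fun t => (bes'_deriv t).continuousAt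

theorem bes_cont : Continuous bes :=
  continuous_iff_continuousAt.2 fun t => (bes_deriv t).continuousAt

theorem bes_ode (t : ℝ) : HasDerivAt (fun t : ℝ => t * bes' t) (-(bes t)) t := by
  have h := (hasDerivAt_id t).mul (bes'_deriv t)
  refine h.congr_deriv ?_
  rw [bes'_eq, bes_eq, ← ode (4 * t)]
  simp only [id]
  ring

theorem bes_zero : bes 0 = 1 := by
  rw [bes_eq, mul_zero]
  exact b_zero

theorem besselJ0_eq (x : ℝ) : besselJ0 x = bes (x ^ 2 / 4) := by
  unfold besselJ0 bes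
  refine tsum_congr fun k => ?_
  have h : (x / 2) ^ (2 * k) = (x ^ 2 / 4) ^ k := by
    rw [pow_mul]
    congr 1
    ring
  rw [h]

end Pool.Agent.Lib.MP_9c48c1_an.Disk
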