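import Mathlib
import Pool.Agent.Lib.MP_9c48c1_an_disk.Defs
import Pool.Agent.Lib.MP_9c48c1_an_disk.P

set_option autoImplicit false

/-! Module Q (helper14): Picone's inequality with `J₀` in the disk. -/

namespace Pool.Agent.Lib.MP_9c48c1_an.Disk

open MeasureTheory Set Filter Topology Pool.Agent.Lib.MP_9c48c1_an

namespace Bes

/-- The logarithmic derivative of `b`. -/
noncomputable def lq (s : ℝ) : ℝ := b1 s / b s
noncomputable def lq' (s : ℝ) : ℝ := b2 s / b s - (b1 s / b s) ^ 2

lemma lq_deriv {s : ℝ} (hs : b s ≠ 0) : HasDerivAt lq (lq' s) s := by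
  have h := (b1_deriv s).div (b_deriv s) hs
  refine h.congr_deriv ?_
  unfold lq'
  field_simp

lemma lq_cont {s : ℝ} (hs : b s ≠ 0) : ContinuousAt lq s := (lq_deriv hs).continuousAt

lemma lq'_cont {s : ℝ} (hs : b s ≠ 0) : ContinuousAt lq' s := by
  unfold lq'
  exact (b2_cont.continuousAt.div b_cont.continuousAt hs).sub
    ((b1_cont.continuousAt.div b_cont.continuousAt hs).pow 2)

/-- `x² + y²`. -/
def rho (p : ℝ × ℝ) : ℝ := p.1 ^ 2 + p.2 ^ 2

lemma rho_cont : Continuous rho := by unfold rho; fun_prop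

lemma rho_deriv (p : ℝ × ℝ) : HasFDerivAt rho
    ((2 * p.1) • ContinuousLinearMap.fst ℝ ℝ ℝ + (2 * p.2) • ContinuousLinearMap.snd ℝ ℝ ℝ) p := by
  have h1 := (hasFDerivAt_fst (𝕜 := ℝ) (p := p)).pow 2
  have h2 := (hasFDerivAt_snd (𝕜 := ℝ) (p := p)).pow 2
  refine (h1.add h2).congr_fderiv ?_
  ext <;> simp

noncomputable def wx (L : ℝ) (p : ℝ × ℝ) : ℝ := 2 * L * (p.1 * lq (L * rho p))
noncomputable def wy (L : ℝ) (p : ℝ × ℝ) : ℝ := 2 * L * (p.2 * lq (L * rho p))

lemma lqr_deriv {L : ℝ} {p : ℝ × ℝ} (hp : b (L * rho p) ≠ 0) :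
    HasFDerivAt (fun p => lq (L * rho p)) ((lq' (L * rho p) * L) •
      ((2 * p.1) • ContinuousLinearMap.fst ℝ ℝ ℝ + (2 * p.2) • ContinuousLinearMap.snd ℝ ℝ ℝ)) p := by
  have h1 : HasFDerivAt (fun p => L * rho p) (L • ((2 * p.1) • ContinuousLinearMap.fst ℝ ℝ ℝ +
    (2 * p.2) • ContinuousLinearMap.snd ℝ ℝ ℝ)) p := (rho_deriv p).const_mul L
  have h2 : HasFDerivAt (lq ∘ fun p => L * rho p) (lq' (L * rho p) • (L •
    ((2 * p.1) • ContinuousLinearMap.fst ℝ ℝ ℝ + (2 * p.2) • ContinuousLinearMap.snd ℝ ℝ ℝ))) p :=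
    (lq_deriv hp).comp_hasFDerivAt p h1
  rw [smul_smul] at h2
  exact h2

lemma wx_deriv {L : ℝ} {p : ℝ × ℝ} (hp : b (L * rho p) ≠ 0) :
    DifferentiableAt ℝ (wx L) p ∧ fderiv ℝ (wx L) p (1, 0) =
      2 * L * (lq (L * rho p) + p.1 * (lq' (L * rho p) * L * (2 * p.1))) := by
  have h := ((hasFDerivAt_fst (𝕜 := ℝ) (p := p)).mul (lqr_deriv hp)).const_mul (2 * L)
  refine ⟨h.differentiableAt, ?_⟩
  have h2 : fderiv ℝ (wx L) p = _ := h.fderiv
  rw [h2]
  simp
  ring

lemma wy_deriv {L : ℝ} {p : ℝ × ℝ} (hp : b (L * rho p) ≠ 0) :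
    DifferentiableAt ℝ (wy L) p ∧ fderiv ℝ (wy L) p (0, 1) =
      2 * L * (lq (L * rho p) + p.2 * (lq' (L * rho p) * L * (2 * p.2))) := by
  have h := ((hasFDerivAt_snd (𝕜 := ℝ) (p := p)).mul (lqr_deriv hp)).const_mul (2 * L)
  refine ⟨h.differentiableAt, ?_⟩
  have h2 : fderiv ℝ (wy L) p = _ := h.fderiv
  rw [h2]
  simp
  ring

/-- Products with `G ^ 2` of functions continuous in the support of `G` are integrable. -/
lemma int_supp {G φ : ℝ × ℝ → ℝ} (hG : DAdm G) (hφ : ∀ p ∈ tsupport G, ContinuousAt φ p) :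
    Integrable (fun p => G p ^ 2 * φ p) := by
  have hsub : tsupport (fun p => G p ^ 2 * φ p) ⊆ tsupport G := by
    refine closure_mono ?_
    intro p hp
    by_contra h
    have : G p = 0 := by simpa using h
    exact hp (by simp [this])
  have hc : Continuous (fun p => G p ^ 2 * φ p) := continuous_of_tsupport fun p hp =>
    ((hG.1.continuous.continuousAt).pow 2).mul (hφ p (hsub hp))
  exact hc.integrable_of_hasCompactSupport
    (IsCompact.of_isClosed_subset hG.2.1 (isClosed_tsupport _) hsub)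

lemma int_supp1 {G H φ : ℝ × ℝ → ℝ} (hG : DAdm G) (hH : Continuous H)
    (hφ : ∀ p ∈ tsupport G, ContinuousAt φ p) :
    Integrable (fun p => 2 * G p * H p * φ p) := by
  have hsub : tsupport (fun p => 2 * G p * H p * φ p) ⊆ tsupport G := by
    refine closure_mono ?_
    intro p hp
    by_contra h
    have : G p = 0 := by simpa using h
    exact hp (by simp [this])
  have hc : Continuous (fun p => 2 * G p * H p * φ p) := continuous_of_tsupport fun p hp =>
    ((continuousAt_const.mul hG.1.continuous.continuousAt).mul hH.continuousAt).mul (hφ p (hsub hp))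
  exact hc.integrable_of_hasCompactSupport
    (IsCompact.of_isClosed_subset hG.2.1 (isClosed_tsupport _) hsub)

/-- **Picone's inequality.** -/
lemma picone {L : ℝ} (hL : 0 < L) (hb : ∀ s ∈ Ico 0 L, 0 < b s) {G : ℝ × ℝ → ℝ} (hG : DAdm G) :
    L * qN G ≤ sG G := by
  have hin : ∀ p ∈ tsupport G, b (L * rho p) ≠ 0 := by
    intro p hp
    have h1 : rho p < 1 := hG.2.2 p hp
    have h0 : 0 ≤ rho p := by unfold rho; positivity
    exact (hb _ ⟨by positivity, by nlinarith⟩).ne'
  have gx := continuous_dx hG.1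
  have gy := continuous_dy hG.1
  have sgx := hcs_dx hG.2.1
  have sgy := hcs_dy hG.2.1
  have hLr : Continuous fun p => L * rho p := by have := rho_cont; fun_prop
  have clq : ∀ p ∈ tsupport G, ContinuousAt (fun p => lq (L * rho p)) p := fun p hp =>
    ContinuousAt.comp (f := fun p => L * rho p) (lq_cont (hin p hp)) hLr.continuousAt
  have clq' : ∀ p ∈ tsupport G, ContinuousAt (fun p => lq' (L * rho p)) p := fun p hp =>
    ContinuousAt.comp (f := fun p => L * rho p) (lq'_cont (hin p hp)) hLr.continuousAt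
  have cwx : ∀ p ∈ tsupport G, ContinuousAt (wx L) p := fun p hp =>
    (wx_deriv (hin p hp)).1.continuousAt
  have cwy : ∀ p ∈ tsupport G, ContinuousAt (wy L) p := fun p hp =>
    (wy_deriv (hin p hp)).1.continuousAt
  -- derivative of G ^ 2
  have hsq : ∀ p v, fderiv ℝ (fun p => G p ^ 2) p v = 2 * G p * fderiv ℝ G p v := by
    intro p v
    have h := ((hG.1.differentiable one_ne_zero p).hasFDerivAt).pow 2
    rw [h.fderiv]
    simp
  have hsub2 : tsupport (fun p => G p ^ 2) ⊆ tsupport G := by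
    refine closure_mono ?_
    intro p hp
    by_contra h
    have : G p = 0 := by simpa using h
    exact hp (by simp [this])
  -- the integrability of `G ^ 2 * ∂ w`
  have open_b : ∀ p ∈ tsupport G, ∀ᶠ q in 𝓝 p, b (L * rho q) ≠ 0 := fun p hp =>
    (b_cont.comp hLr).continuousAt.eventually_ne (hin p hp)
  have cdx : ∀ p ∈ tsupport G, ContinuousAt (fun p => fderiv ℝ (wx L) p (1, 0)) p := by
    intro p hp
    have h1 : ContinuousAt (fun p : ℝ × ℝ =>
        2 * L * (lq (L * rho p) + p.1 * (lq' (L * rho p) * L * (2 * p.1)))) p := by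
      have := clq p hp
      have := clq' p hp
      fun_prop
    refine h1.congr ?_
    filter_upwards [open_b p hp] with q hq
    exact (wx_deriv hq).2.symm
  have cdy : ∀ p ∈ tsupport G, ContinuousAt (fun p => fderiv ℝ (wy L) p (0, 1)) p := by
    intro p hp
    have h1 : ContinuousAt (fun p : ℝ × ℝ =>
        2 * L * (lq (L * rho p) + p.2 * (lq' (L * rho p) * L * (2 * p.2)))) p := by
      have := clq p hp
      have := clq' p hp
      fun_prop
    refine h1.congr ?_
    filter_upwards [open_b p hp] with q hq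
    exact (wy_deriv hq).2.symm
  have ix := int_supp hG cdx
  have iy := int_supp hG cdy
  have jx : Integrable (fun p => 2 * G p * dx G p * wx L p) := int_supp1 hG gx cwx
  have jy : Integrable (fun p => 2 * G p * dy G p * wy L p) := int_supp1 hG gy cwy
  have hG2 : ∀ x ∈ tsupport (wx L), DifferentiableAt ℝ (fun p => G p ^ 2) x := fun x _ =>
    ((hG.1.differentiable one_ne_zero x).pow 2)
  have hG2' : ∀ x ∈ tsupport (wy L), DifferentiableAt ℝ (fun p => G p ^ 2) x := fun x _ =>
    ((hG.1.differentiable one_ne_zero x).pow 2)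
  have px := integral_mul_fderiv_eq_neg_fderiv_mul_of_integrable (μ := (volume : Measure (ℝ × ℝ)))
    (f := fun p => G p ^ 2) (g := wx L) (v := ((1, 0) : ℝ × ℝ))
    (by simp only [hsq]; exact jx) ix (int_supp hG cwx) hG2
    (fun x hx => (wx_deriv (hin x (hsub2 hx))).1)
  have py := integral_mul_fderiv_eq_neg_fderiv_mul_of_integrable (μ := (volume : Measure (ℝ × ℝ)))
    (f := fun p => G p ^ 2) (g := wy L) (v := ((0, 1) : ℝ × ℝ))
    (by simp only [hsq]; exact jy) iy (int_supp hG cwy) hG2'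
    (fun x hx => (wy_deriv (hin x (hsub2 hx))).1)
  simp only [hsq] at px py
  -- the pointwise inequality
  have hpt : ∀ p, L * G p ^ 2 ≤ (dx G p ^ 2 + dy G p ^ 2) -
      ((G p ^ 2 * fderiv ℝ (wx L) p (1, 0) + 2 * G p * dx G p * wx L p) +
       (G p ^ 2 * fderiv ℝ (wy L) p (0, 1) + 2 * G p * dy G p * wy L p)) := by
    intro p
    by_cases hp : p ∈ tsupport G
    · have hbp := hin p hp
      rw [(wx_deriv hbp).2, (wy_deriv hbp).2]
      have hode := ode (L * rho p)
      have e1 : 2 * L * (lq (L * rho p) + p.1 * (lq' (L * rho p) * L * (2 * p.1))) +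
          2 * L * (lq (L * rho p) + p.2 * (lq' (L * rho p) * L * (2 * p.2))) +
          (wx L p ^ 2 + wy L p ^ 2) = -L := by
        have e2 : 2 * L * (lq (L * rho p) + p.1 * (lq' (L * rho p) * L * (2 * p.1))) +
          2 * L * (lq (L * rho p) + p.2 * (lq' (L * rho p) * L * (2 * p.2))) +
          (wx L p ^ 2 + wy L p ^ 2) = 4 * L * (lq (L * rho p) + (L * rho p) * (lq' (L * rho p) +
            lq (L * rho p) ^ 2)) := by
          unfold wx wy
          have : rho p = p.1 ^ 2 + p.2 ^ 2 := rfl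
          generalize lq (L * rho p) = A
          generalize lq' (L * rho p) = B
          rw [this]
          ring
        rw [e2]
        unfold lq lq'
        have e3 : b1 (L * rho p) / b (L * rho p) + L * rho p * (b2 (L * rho p) / b (L * rho p) -
            (b1 (L * rho p) / b (L * rho p)) ^ 2 + (b1 (L * rho p) / b (L * rho p)) ^ 2) =
            (b1 (L * rho p) + L * rho p * b2 (L * rho p)) / b (L * rho p) := by
          field_simp
          ring
        rw [e3]
        have e4 : b1 (L * rho p) + L * rho p * b2 (L * rho p) = -b (L * rho p) / 4 := by linarith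
        rw [e4]
        field_simp
      have h1 : 0 ≤ (dx G p - G p * wx L p) ^ 2 + (dy G p - G p * wy L p) ^ 2 := by positivity
      nlinarith [h1, e1, congrArg (fun z => G p ^ 2 * z) e1]
    · have h0 : G p = 0 := image_eq_zero_of_notMem_tsupport hp
      rw [h0]
      have : 0 ≤ dx G p ^ 2 + dy G p ^ 2 := by positivity
      simp only [ne_eq, OfNat.ofNat_ne_zero, not_false_eq_true, zero_pow, mul_zero, zero_mul, add_zero,
        sub_zero]
      exact this
  have kx := int_sq gx sgx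
  have ky := int_sq gy sgy
  have h1 := integral_mono ((int_sq hG.1.continuous hG.2.1).const_mul L)
    ((kx.add ky).sub ((ix.add jx).add (iy.add jy))) hpt
  rw [integral_const_mul] at h1
  refine h1.trans (le_of_eq ?_)
  have i1 : Integrable (fun p => G p ^ 2 * fderiv ℝ (wx L) p (1, 0) + 2 * G p * dx G p * wx L p) :=
    ix.add jx
  have i2 : Integrable (fun p => G p ^ 2 * fderiv ℝ (wy L) p (0, 1) + 2 * G p * dy G p * wy L p) :=
    iy.add jy
  have i3 : Integrable (fun p => dx G p ^ 2 + dy G p ^ 2) := kx.add ky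
  have i4 : Integrable (fun p => (G p ^ 2 * fderiv ℝ (wx L) p (1, 0) + 2 * G p * dx G p * wx L p) +
      (G p ^ 2 * fderiv ℝ (wy L) p (0, 1) + 2 * G p * dy G p * wy L p)) := i1.add i2
  have e5 : ∫ p, ((dx G p ^ 2 + dy G p ^ 2) -
      ((G p ^ 2 * fderiv ℝ (wx L) p (1, 0) + 2 * G p * dx G p * wx L p) +
       (G p ^ 2 * fderiv ℝ (wy L) p (0, 1) + 2 * G p * dy G p * wy L p))) =
      ((∫ p, dx G p ^ 2) + ∫ p, dy G p ^ 2) -
      (((∫ p, G p ^ 2 * fderiv ℝ (wx L) p (1, 0)) + ∫ p, 2 * G p * dx G p * wx L p) +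
      ((∫ p, G p ^ 2 * fderiv ℝ (wy L) p (0, 1)) + ∫ p, 2 * G p * dy G p * wy L p)) := by
    rw [integral_sub i3 i4, integral_add kx ky, integral_add i1 i2, integral_add ix jx,
      integral_add iy jy]
  have e6 : (∫ p, G p ^ 2 * fderiv ℝ (wx L) p (1, 0)) = -∫ p, 2 * G p * dx G p * wx L p := px
  have e7 : (∫ p, G p ^ 2 * fderiv ℝ (wy L) p (0, 1)) = -∫ p, 2 * G p * dy G p * wy L p := py
  refine e5.trans ?_
  rw [e6, e7]
  unfold sG q11 q22
  ring

end Bes

theorem bes_gap {G : ℝ × ℝ → ℝ} (hG : DAdm G) {T : ℝ} (hT : 0 < T)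
    (hB : ∀ t ∈ Icc (0:ℝ) T, 0 < bes t) : 4 * T * qN G ≤ sG G := by
  refine Bes.picone (by positivity) (fun s hs => ?_) hG
  have h := hB (s / 4) ⟨by linarith [hs.1], by linarith [hs.2]⟩
  rw [bes_eq] at h
  have e : 4 * (s / 4) = s := by ring
  rwa [e] at h

end Pool.Agent.Lib.MP_9c48c1_an.Disk
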