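import Mathlib
import Pool.Agent.Lib.MP_9c48c1_an_disk.BDefs
import Pool.Agent.Lib.MP_9c48c1_an_disk.M
import Pool.Agent.Lib.MP_9c48c1_an_disk.P
import Pool.Agent.Lib.MP_9c48c1_an_disk.Q

set_option autoImplicit false

/-! Module Z (helper14): the first zero of `J₀`. -/

namespace Pool.Agent.Lib.MP_9c48c1_an.Disk

open MeasureTheory Set Filter Topology Pool.Agent.Lib.MP_9c48c1_an

namespace ModZ

lemma exists_zero : ∃ t, 0 < t ∧ bes t = 0 := by
  have hneg : ∃ s ∈ Ico (0 : ℝ) (59 / 10), Bes.b s ≤ 0 := by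
    by_contra hcon
    push Not at hcon
    obtain ⟨G, hG, hpos, hle⟩ := test_fun
    have h := Bes.picone (L := 59 / 10) (by norm_num) hcon hG
    nlinarith
  obtain ⟨s, hs, hbs⟩ := hneg
  have h1 : bes (s / 4) ≤ 0 := by
    rw [bes_eq]
    have e : 4 * (s / 4) = s := by ring
    rwa [e]
  have h2 : (0 : ℝ) ∈ bes '' Icc 0 (s / 4) := by
    refine intermediate_value_Icc' (by linarith [hs.1]) bes_cont.continuousOn ⟨h1, ?_⟩
    rw [bes_zero]; exact zero_le_one
  obtain ⟨t, ht, hbt⟩ := h2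
  refine ⟨t, ?_, hbt⟩
  rcases ht.1.eq_or_lt with h | h
  · rw [← h, bes_zero] at hbt
    norm_num at hbt
  · exact h

lemma near_zero : ∃ ε > 0, ∀ t, 0 ≤ t → t < ε → 0 < bes t := by
  have h : ∀ᶠ t in 𝓝 (0 : ℝ), 0 < bes t :=
    bes_cont.continuousAt.eventually_const_lt (by rw [bes_zero]; exact zero_lt_one)
  obtain ⟨ε, hε, h⟩ := Metric.eventually_nhds_iff.1 h
  refine ⟨ε, hε, fun t h0 h1 => h ?_⟩
  rw [Real.dist_eq, sub_zero, abs_of_nonneg h0]
  exact h1

lemma mem : 0 < t0 ∧ bes t0 = 0 := by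
  obtain ⟨ε, hε, hne⟩ := near_zero
  have e : {t : ℝ | 0 < t ∧ bes t = 0} = {t : ℝ | ε ≤ t ∧ bes t = 0} := by
    ext t
    constructor
    · rintro ⟨h1, h2⟩
      refine ⟨?_, h2⟩
      by_contra h
      push Not at h
      have := hne t h1.le h
      linarith
    · rintro ⟨h1, h2⟩
      exact ⟨lt_of_lt_of_le hε h1, h2⟩
  have hcl : IsClosed {t : ℝ | ε ≤ t ∧ bes t = 0} :=
    (isClosed_le continuous_const continuous_id).inter (isClosed_eq bes_cont continuous_const)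
  have hne' : {t : ℝ | ε ≤ t ∧ bes t = 0}.Nonempty := by
    rw [← e]; exact exists_zero
  have hb : BddBelow {t : ℝ | ε ≤ t ∧ bes t = 0} := ⟨ε, fun t ht => ht.1⟩
  have hm := hcl.csInf_mem hne' hb
  have ht0 : t0 = sInf {t : ℝ | ε ≤ t ∧ bes t = 0} := by unfold t0; rw [e]
  rw [← ht0] at hm
  exact ⟨lt_of_lt_of_le hε hm.1, hm.2⟩

lemma t0_le {t : ℝ} (h0 : 0 < t) (h : bes t = 0) : t0 ≤ t :=
  csInf_le ⟨0, fun _ hs => hs.1.le⟩ ⟨h0, h⟩

end ModZ

theorem t0_pos : 0 < t0 := ModZ.mem.1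

theorem bes_t0 : bes t0 = 0 := ModZ.mem.2

theorem bes_pos {t : ℝ} (h0 : 0 ≤ t) (h1 : t < t0) : 0 < bes t := by
  by_contra hcon
  push Not at hcon
  have h2 : (0 : ℝ) ∈ bes '' Icc 0 t := by
    refine intermediate_value_Icc' h0 bes_cont.continuousOn ⟨hcon, ?_⟩
    rw [bes_zero]; exact zero_le_one
  obtain ⟨s, hs, hbs⟩ := h2
  rcases hs.1.eq_or_lt with h | h
  · rw [← h, bes_zero] at hbs
    norm_num at hbs
  · have := ModZ.t0_le h hbs
    linarith [hs.2]

theorem bes'_t0 : bes' t0 ≤ 0 := by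
  have hanti : AntitoneOn (fun t : ℝ => t * bes' t) (Icc 0 t0) := by
    refine antitoneOn_of_deriv_nonpos (convex_Icc 0 t0)
      (fun t _ => (bes_ode t).continuousAt.continuousWithinAt)
      (fun t _ => (bes_ode t).differentiableAt.differentiableWithinAt) ?_
    intro t ht
    rw [interior_Icc] at ht
    rw [(bes_ode t).deriv]
    linarith [bes_pos ht.1.le ht.2]
  have h := hanti (left_mem_Icc.2 t0_pos.le) (right_mem_Icc.2 t0_pos.le) t0_pos.le
  simp only [zero_mul] at h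
  by_contra hcon
  push Not at hcon
  have := mul_pos t0_pos hcon
  linarith

theorem t0_gap {G : ℝ × ℝ → ℝ} (hG : DAdm G) : 4 * t0 * qN G ≤ sG G := by
  refine Bes.picone (by have := t0_pos; positivity) (fun s hs => ?_) hG
  have h := bes_pos (t := s / 4) (by linarith [hs.1]) (by linarith [hs.2])
  rw [bes_eq] at h
  have e : 4 * (s / 4) = s := by ring
  rwa [e] at h

namespace ModZ

lemma j01_eq : j01 = 2 * Real.sqrt t0 := by
  have ht := t0_pos
  have hsq : Real.sqrt t0 ^ 2 = t0 := Real.sq_sqrt ht.le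
  have hsp : 0 < Real.sqrt t0 := Real.sqrt_pos.2 ht
  refine IsLeast.csInf_eq ⟨⟨by positivity, ?_⟩, ?_⟩
  · rw [besselJ0_eq]
    have : (2 * Real.sqrt t0) ^ 2 / 4 = t0 := by rw [mul_pow, hsq]; ring
    rw [this]
    exact bes_t0
  · rintro x ⟨hx, hx0⟩
    rw [besselJ0_eq] at hx0
    have h := t0_le (by positivity) hx0
    by_contra hcon
    push Not at hcon
    have : x ^ 2 < (2 * Real.sqrt t0) ^ 2 := pow_lt_pow_left₀ hcon hx.le two_ne_zero
    rw [mul_pow, hsq] at this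
    linarith

end ModZ

theorem j01_pos : 0 < j01 := by
  rw [ModZ.j01_eq]
  have := Real.sqrt_pos.2 t0_pos
  positivity

theorem j01_sq : j01 ^ 2 = 4 * t0 := by
  rw [ModZ.j01_eq, mul_pow, Real.sq_sqrt t0_pos.le]
  norm_num

theorem besselJ0_j01 : besselJ0 j01 = 0 := by
  rw [besselJ0_eq, j01_sq]
  have : 4 * t0 / 4 = t0 := by ring
  rw [this]
  exact bes_t0

theorem besselJ0_pos {x : ℝ} (h0 : 0 ≤ x) (h1 : x < j01) : 0 < besselJ0 x := by
  rw [besselJ0_eq]
  refine bes_pos (by positivity) ?_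
  have h2 : x ^ 2 < j01 ^ 2 := pow_lt_pow_left₀ h1 h0 two_ne_zero
  rw [j01_sq] at h2
  linarith

theorem besselDisk_eq : besselDisk = extF := by
  unfold besselDisk extF
  congr 1
  funext x
  rw [besselJ0_eq, mul_pow, j01_sq]
  congr 1
  ring

end Pool.Agent.Lib.MP_9c48c1_an.Disk
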