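import Mathlib
import Pool.Agent.Lib.MP_9c48c1_an.Sharp
import Pool.Agent.Lib.MP_9c48c1_an.BoxConv
import Pool.Agent.Lib.MP_9c48c1_an.Test1D
import Pool.Agent.Lib.MP_9c48c1_an_disk.BDefs
import Pool.Agent.Lib.MP_9c48c1_an_disk.P
import Pool.Agent.Lib.MP_9c48c1_an_disk.Z

set_option autoImplicit false

/-! Module R (seat 15): the extremal of the disk belongs to `W^{1,2}_0`. -/

namespace Pool.Agent.Lib.MP_9c48c1_an.Disk

open MeasureTheory Set Filter Topology Pool.Agent.Lib.MP_9c48c1_an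

namespace ModR15

/-- The profile, continued linearly beyond `1`, and its derivative. -/
noncomputable def pb (s : ℝ) : ℝ := bes (t0 * min s 1) + t0 * bes' t0 * max (s - 1) 0

noncomputable def pd (s : ℝ) : ℝ := t0 * bes' (t0 * min s 1)

lemma bes_cont : Continuous bes :=
  continuous_iff_continuousAt.2 fun t => (bes_deriv t).continuousAt

lemma pb_cont : Continuous pb := by
  have := bes_cont
  unfold pb
  fun_prop

lemma pd_cont : Continuous pd := by
  have := bes'_cont
  unfold pd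
  fun_prop

lemma pb_hasDerivAt (s : ℝ) : HasDerivAt pb (pd s) s := by
  refine hasDerivAt_of_hasDerivAt_of_ne' (x := 1) (g := pd) ?_
    pb_cont.continuousAt pd_cont.continuousAt s
  intro y hy
  rcases lt_or_gt_of_ne hy with h | h
  · have e1 : pb =ᶠ[𝓝 y] fun z => bes (t0 * z) := by
      filter_upwards [Iio_mem_nhds h] with z hz
      have hz' : z < 1 := hz
      unfold pb
      rw [min_eq_left hz'.le, max_eq_right (by linarith : z - 1 ≤ 0), mul_zero, add_zero]
    have h1 : HasDerivAt (fun z : ℝ => t0 * z) t0 y := by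
      simpa using (hasDerivAt_id y).const_mul t0
    have h2 : HasDerivAt (fun z : ℝ => bes (t0 * z)) (bes' (t0 * y) * t0) y :=
      (bes_deriv (t0 * y)).comp y h1
    refine (h2.congr_of_eventuallyEq e1).congr_deriv ?_
    unfold pd
    rw [min_eq_left h.le]
    ring
  · have e1 : pb =ᶠ[𝓝 y] fun z => bes (t0 * 1) + t0 * bes' t0 * (z - 1) := by
      filter_upwards [Ioi_mem_nhds h] with z hz
      have hz' : 1 < z := hz
      unfold pb
      rw [min_eq_right hz'.le, max_eq_left (by linarith : 0 ≤ z - 1)]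
    have h2 : HasDerivAt (fun z : ℝ => bes (t0 * 1) + t0 * bes' t0 * (z - 1))
        (t0 * bes' t0) y := by
      simpa using (((hasDerivAt_id y).sub_const 1).const_mul (t0 * bes' t0)).const_add
        (bes (t0 * 1))
    refine (h2.congr_of_eventuallyEq e1).congr_deriv ?_
    unfold pd
    rw [min_eq_right h.le, mul_one]

lemma pb_nonpos {s : ℝ} (h : 1 ≤ s) : pb s ≤ 0 := by
  unfold pb
  rw [min_eq_right h, mul_one, bes_t0, zero_add]
  exact mul_nonpos_of_nonpos_of_nonneg
    (mul_nonpos_of_nonneg_of_nonpos t0_pos.le bes'_t0) (le_max_right _ _)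

lemma pb_eq {s : ℝ} (h : s < 1) : pb s = bes (t0 * s) := by
  unfold pb
  rw [min_eq_left h.le, max_eq_right (by linarith : s - 1 ≤ 0), mul_zero, add_zero]

lemma pb_pos {s : ℝ} (h0 : 0 ≤ s) (h : s < 1) : 0 < pb s := by
  rw [pb_eq h]
  have := t0_pos
  exact bes_pos (by positivity) (by nlinarith)

lemma pd_eq {s : ℝ} (h : s < 1) : pd s = t0 * bes' (t0 * s) := by
  unfold pd
  rw [min_eq_left h.le]

lemma mem_disk (x : E 2) : x ∈ disk ↔ ‖x‖ ^ 2 < 1 := by
  rw [EuclideanSpace.norm_sq_eq, Fin.sum_univ_two]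
  simp only [Real.norm_eq_abs, sq_abs]
  rfl

lemma disk_open : IsOpen disk := by
  have h : disk = {x : E 2 | ‖x‖ ^ 2 < 1} := by
    ext x
    exact mem_disk x
  rw [h]
  exact isOpen_lt (by fun_prop) continuous_const

lemma extF_eq : extF = disk.indicator (fun x => pb (‖x‖ ^ 2)) := by
  unfold extF
  ext x
  by_cases h : x ∈ disk
  · rw [indicator_of_mem h, indicator_of_mem h, pb_eq ((mem_disk x).1 h)]
  · rw [indicator_of_notMem h, indicator_of_notMem h]

lemma extG_eq : extG = disk.indicator (fun x => (2 * pd (‖x‖ ^ 2)) • x) := by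
  unfold extG
  funext x
  by_cases h : x ∈ disk
  · rw [indicator_of_mem h, indicator_of_mem h, pd_eq ((mem_disk x).1 h), ← mul_assoc]
  · rw [indicator_of_notMem h, indicator_of_notMem h]

noncomputable def u (δ : ℝ) (x : E 2) : ℝ := HH δ (pb (‖x‖ ^ 2))

noncomputable def cf (δ t : ℝ) : ℝ := 1 - δ ^ 2 / (max t δ) ^ 2

lemma u_contDiff {δ : ℝ} (hδ : 0 < δ) : ContDiff ℝ 1 (u δ) := by
  unfold u
  have h1 : ContDiff ℝ 1 pb := by
    rw [contDiff_one_iff_deriv]
    refine ⟨fun s => (pb_hasDerivAt s).differentiableAt, ?_⟩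
    have : deriv pb = pd := funext fun s => (pb_hasDerivAt s).deriv
    rw [this]
    exact pd_cont
  exact (HH_contDiff hδ).comp (h1.comp (contDiff_norm_sq ℝ))

lemma u_zero {δ : ℝ} (hδ : 0 < δ) {x : E 2} (h : x ∉ disk) : u δ x = 0 := by
  unfold u
  refine HH_zero (le_trans (pb_nonpos ?_) hδ.le)
  rw [mem_disk] at h
  exact not_lt.1 h

lemma u_adm {δ : ℝ} (hδ : 0 < δ) : Adm disk (u δ) := by
  refine ⟨u_contDiff hδ, ?_⟩
  have hcl : IsClosed {x : E 2 | δ ≤ pb (‖x‖ ^ 2)} := by
    have := pb_cont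
    exact isClosed_le continuous_const (by fun_prop)
  have hsub : Function.support (u δ) ⊆ {x : E 2 | δ ≤ pb (‖x‖ ^ 2)} := by
    intro x hx
    simp only [mem_ofPred_eq]
    by_contra h
    push Not at h
    exact hx (HH_zero h.le)
  intro x hx
  have h1 : δ ≤ pb (‖x‖ ^ 2) := closure_minimal hsub hcl hx
  rw [mem_disk]
  by_contra h
  have h2 := pb_nonpos (not_lt.1 h)
  linarith

lemma u_grad {δ : ℝ} (hδ : 0 < δ) (x : E 2) :
    gradient (u δ) x = cf δ (pb (‖x‖ ^ 2)) • ((2 * pd (‖x‖ ^ 2)) • x) := by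
  have h1 : HasFDerivAt (fun x : E 2 => ‖x‖ ^ 2) (2 • innerSL ℝ x) x :=
    (hasStrictFDerivAt_norm_sq x).hasFDerivAt
  have h2 : HasDerivAt (fun t => HH δ (pb t)) (cf δ (pb (‖x‖ ^ 2)) * pd (‖x‖ ^ 2)) (‖x‖ ^ 2) :=
    (HH_hasDerivAt hδ _).comp _ (pb_hasDerivAt _)
  have h3 : HasFDerivAt ((fun t => HH δ (pb t)) ∘ (fun x : E 2 => ‖x‖ ^ 2))
      ((cf δ (pb (‖x‖ ^ 2)) * pd (‖x‖ ^ 2)) • (2 • innerSL ℝ x)) x := h2.comp_hasFDerivAt x h1
  have h4 : HasGradientAt (u δ) (cf δ (pb (‖x‖ ^ 2)) • ((2 * pd (‖x‖ ^ 2)) • x)) x := by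
    rw [hasGradientAt_iff_hasFDerivAt]
    refine h3.congr_fderiv ?_
    ext y
    simp
    ring
  exact h4.gradient

lemma cf_zero {δ t : ℝ} (hδ : 0 < δ) (h : t ≤ δ) : cf δ t = 0 := by
  unfold cf
  rw [max_eq_right h, div_self (by positivity), sub_self]

lemma cf_abs {δ : ℝ} (hδ : 0 < δ) (t : ℝ) : |cf δ t| ≤ 1 := by
  have h : cf δ t ^ 2 ≤ 1 := HHd_sq hδ t
  have h2 : cf δ t ^ 2 ≤ 1 ^ 2 := by linarith
  exact abs_le_of_sq_le_sq h2 zero_le_one

lemma cf_cont {δ : ℝ} (hδ : 0 < δ) : Continuous (cf δ) := HHd_continuous hδ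

lemma HH_abs {δ : ℝ} (hδ : 0 < δ) (t : ℝ) : |HH δ t| ≤ |t| := by
  rcases le_or_gt t δ with h | h
  · rw [HH_zero h, abs_zero]
    exact abs_nonneg t
  · have ht : 0 < t := hδ.trans h
    unfold HH
    rw [max_eq_left (by linarith : 0 ≤ t - δ), max_eq_left h.le,
      abs_of_nonneg (by positivity), abs_of_pos ht, div_le_iff₀ ht]
    nlinarith

lemma HH_lim {t : ℝ} (ht : 0 < t) : Tendsto (fun k => HH (dk k) t) atTop (𝓝 t) := by
  have e : ∀ᶠ k in atTop, HH (dk k) t = (t - dk k) ^ 2 / t := by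
    filter_upwards [dk_tendsto.eventually_lt_const ht] with k hk
    unfold HH
    rw [max_eq_left (by linarith : 0 ≤ t - dk k), max_eq_left hk.le]
  refine Tendsto.congr' (EventuallyEq.symm e) ?_
  have h1 : Tendsto (fun k => (t - dk k) ^ 2 / t) atTop (𝓝 ((t - 0) ^ 2 / t)) :=
    ((dk_tendsto.const_sub _).pow 2).div_const _
  have e2 : (t - 0) ^ 2 / t = t := by
    field_simp
    ring
  rwa [e2] at h1

lemma cf_lim {t : ℝ} (ht : 0 < t) : Tendsto (fun k => cf (dk k) t) atTop (𝓝 1) := by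
  have e : ∀ᶠ k in atTop, cf (dk k) t = 1 - dk k ^ 2 / t ^ 2 := by
    filter_upwards [dk_tendsto.eventually_lt_const ht] with k hk
    unfold cf
    rw [max_eq_left hk.le]
  refine Tendsto.congr' (EventuallyEq.symm e) ?_
  have h1 : Tendsto (fun k => 1 - dk k ^ 2 / t ^ 2) atTop (𝓝 (1 - 0 ^ 2 / t ^ 2)) :=
    ((dk_tendsto.pow 2).div_const _).const_sub 1
  simpa using h1

end ModR15

open ModR15 in
theorem ext_memW0 : MemW0 2 disk extF extG := by
  have e2 : ENNReal.ofReal (2 : ℝ) = 2 := ENNReal.ofReal_ofNat 2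
  have cF : Continuous (fun x : E 2 => pb (‖x‖ ^ 2)) := by
    have := pb_cont
    fun_prop
  have cG : Continuous (fun x : E 2 => (2 * pd (‖x‖ ^ 2)) • x) := by
    have := pd_cont
    fun_prop
  have hK : MeasurableSet (Metric.closedBall (0 : E 2) 1) := measurableSet_closedBall
  have hKf : volume (Metric.closedBall (0 : E 2) 1) ≠ ⊤ := measure_closedBall_lt_top.ne
  obtain ⟨B1, hB1⟩ := (isCompact_closedBall (0 : E 2) 1).exists_bound_of_continuousOn
    cF.continuousOn
  obtain ⟨B2, hB2⟩ := (isCompact_closedBall (0 : E 2) 1).exists_bound_of_continuousOn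
    cG.continuousOn
  have hd : ∀ x ∈ disk, x ∈ Metric.closedBall (0 : E 2) 1 := by
    intro x hx
    rw [mem_closedBall_zero_iff]
    have h := (mem_disk x).1 hx
    nlinarith [norm_nonneg x]
  have hB10 : 0 ≤ B1 := (norm_nonneg _).trans (hB1 0 (Metric.mem_closedBall_self zero_le_one))
  have hB20 : 0 ≤ B2 := (norm_nonneg _).trans (hB2 0 (Metric.mem_closedBall_self zero_le_one))
  have mF : AEStronglyMeasurable extF (volume : Measure (E 2)) := by
    rw [extF_eq]
    exact cF.aestronglyMeasurable.indicator disk_open.measurableSet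
  have mG : AEStronglyMeasurable extG (volume : Measure (E 2)) := by
    rw [extG_eq]
    exact cG.aestronglyMeasurable.indicator disk_open.measurableSet
  have bF : ∀ x, ‖extF x‖ ≤ (Metric.closedBall (0 : E 2) 1).indicator (fun _ => B1) x := by
    intro x
    rw [extF_eq]
    by_cases h : x ∈ disk
    · rw [indicator_of_mem h, indicator_of_mem (hd x h)]
      exact hB1 x (hd x h)
    · rw [indicator_of_notMem h, norm_zero]
      exact indicator_nonneg (fun _ _ => hB10) x
  have bG : ∀ x, ‖extG x‖ ≤ (Metric.closedBall (0 : E 2) 1).indicator (fun _ => B2) x := by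
    intro x
    rw [extG_eq]
    by_cases h : x ∈ disk
    · rw [indicator_of_mem h, indicator_of_mem (hd x h)]
      exact hB2 x (hd x h)
    · rw [indicator_of_notMem h, norm_zero]
      exact indicator_nonneg (fun _ _ => hB20) x
  have gz : ∀ δ : ℝ, 0 < δ → ∀ x : E 2, x ∉ disk → cf δ (pb (‖x‖ ^ 2)) = 0 := by
    intro δ hδ x hx
    refine cf_zero hδ (le_trans (pb_nonpos ?_) hδ.le)
    rw [mem_disk] at hx
    exact not_lt.1 hx
  have cu : ∀ k, Continuous (u (dk k)) := fun k => (u_contDiff (dk_pos k)).continuous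
  have cg : ∀ k, Continuous (gradient (u (dk k))) := by
    intro k
    have h1 : gradient (u (dk k)) = fun x : E 2 =>
        cf (dk k) (pb (‖x‖ ^ 2)) • ((2 * pd (‖x‖ ^ 2)) • x) :=
      funext fun x => u_grad (dk_pos k) x
    rw [h1]
    exact ((cf_cont (dk_pos k)).comp cF).smul cG
  refine ⟨?_, ?_, fun k => u (dk k), fun k => u_adm (dk_pos k), ?_, ?_⟩
  · rw [e2]
    exact memLp_dom hK hKf mF bF
  · rw [e2]
    exact memLp_dom hK hKf mG bG
  · rw [e2]
    refine tendsto_dom hK hKf (fun k => (cu k).aestronglyMeasurable) mF (fun k x => ?_) bF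
      (fun x => ?_)
    · by_cases h : x ∈ disk
      · rw [indicator_of_mem (hd x h)]
        refine le_trans ?_ (hB1 x (hd x h))
        exact HH_abs (dk_pos k) _
      · rw [u_zero (dk_pos k) h, norm_zero]
        exact indicator_nonneg (fun _ _ => hB10) x
    · rw [extF_eq]
      by_cases h : x ∈ disk
      · rw [indicator_of_mem h]
        exact HH_lim (pb_pos (by positivity) ((mem_disk x).1 h))
      · rw [indicator_of_notMem h]
        refine tendsto_const_nhds.congr fun k => ?_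
        exact (u_zero (dk_pos k) h).symm
  · rw [e2]
    refine tendsto_dom hK hKf (fun k => (cg k).aestronglyMeasurable) mG (fun k x => ?_) bG
      (fun x => ?_)
    · rw [u_grad (dk_pos k)]
      by_cases h : x ∈ disk
      · rw [indicator_of_mem (hd x h), norm_smul]
        have h1 := hB2 x (hd x h)
        have h2 := cf_abs (dk_pos k) (pb (‖x‖ ^ 2))
        calc ‖cf (dk k) (pb (‖x‖ ^ 2))‖ * ‖(2 * pd (‖x‖ ^ 2)) • x‖ ≤ 1 * B2 :=
              mul_le_mul h2 h1 (norm_nonneg _) zero_le_one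
          _ = B2 := one_mul _
      · rw [gz _ (dk_pos k) x h, zero_smul, norm_zero]
        exact indicator_nonneg (fun _ _ => hB20) x
    · rw [extG_eq]
      by_cases h : x ∈ disk
      · rw [indicator_of_mem h]
        have h1 := (cf_lim (pb_pos (by positivity) ((mem_disk x).1 h))).smul_const
          ((2 * pd (‖x‖ ^ 2)) • x)
        rw [one_smul] at h1
        refine h1.congr fun k => ?_
        exact (u_grad (dk_pos k) x).symm
      · rw [indicator_of_notMem h]
        refine tendsto_const_nhds.congr fun k => ?_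
        rw [u_grad (dk_pos k), gz _ (dk_pos k) x h, zero_smul]

end Pool.Agent.Lib.MP_9c48c1_an.Disk
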