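import Mathlib
import Pool.Agent.Lib.MP_9c48c1_an.Sharp
import Pool.Agent.Lib.MP_9c48c1_an_disk.BDefs
import Pool.Agent.Lib.MP_9c48c1_an_disk.P
import Pool.Agent.Lib.MP_9c48c1_an_disk.Z
import Pool.Agent.Lib.MP_9c48c1_an_disk.M

set_option autoImplicit false

/-! Module S (helper92): the moments of the extremal of the disk. -/

namespace Pool.Agent.Lib.MP_9c48c1_an.Disk

open MeasureTheory Set Filter Topology Pool.Agent.Lib.MP_9c48c1_an

namespace SAux

lemma nrm (p : ℝ × ℝ) : ‖(!₂[p.1, p.2] : E 2)‖ ^ 2 = p.1 ^ 2 + p.2 ^ 2 := by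
  rw [EuclideanSpace.real_norm_sq_eq, Fin.sum_univ_two]
  rfl

lemma mem_iff (p : ℝ × ℝ) : (!₂[p.1, p.2] : E 2) ∈ disk ↔ p.1 ^ 2 + p.2 ^ 2 < 1 := Iff.rfl

/-- the square of the factor of the field -/
noncomputable def K (s : ℝ) : ℝ := (2 * t0 * bes' (t0 * s)) ^ 2

lemma K_cont : Continuous K := by
  unfold K
  exact (continuous_const.mul (bes'_cont.comp (continuous_const.mul continuous_id))).pow 2

lemma bes_cont : Continuous bes := continuous_iff_continuousAt.2 fun t => (bes_deriv t).continuousAt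

lemma msq_cut : msq extF = ∫ p, ModM.cut (fun s => bes (t0 * s) ^ 2) p := by
  unfold msq
  rw [integral_E2]
  refine integral_congr_ae (Eventually.of_forall fun p => ?_)
  simp only [extF, ModM.cut, indicator, mem_iff, nrm, mem_ofPred_eq]
  split_ifs
  · rfl
  · ring

lemma prod_eq (i j : Fin 2) (p : ℝ × ℝ) : extG (!₂[p.1, p.2]) i * extG (!₂[p.1, p.2]) j =
    {p : ℝ × ℝ | p.1 ^ 2 + p.2 ^ 2 < 1}.indicator (fun p => K (p.1 ^ 2 + p.2 ^ 2) *
      ((!₂[p.1, p.2] : E 2) i * (!₂[p.1, p.2] : E 2) j)) p := by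
  simp only [extG, indicator, mem_iff, nrm, mem_ofPred_eq, K]
  split_ifs
  · simp only [PiLp.smul_apply, smul_eq_mul]
    ring
  · simp

lemma mom_eq (i j : Fin 2) : mom i j extG = ∫ p,
    {p : ℝ × ℝ | p.1 ^ 2 + p.2 ^ 2 < 1}.indicator (fun p => K (p.1 ^ 2 + p.2 ^ 2) *
      ((!₂[p.1, p.2] : E 2) i * (!₂[p.1, p.2] : E 2) j)) p := by
  unfold mom
  rw [integral_E2]
  exact integral_congr_ae (Eventually.of_forall fun p => prod_eq i j p)

lemma mom00 : mom 0 0 extG = ∫ p,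
    {p : ℝ × ℝ | p.1 ^ 2 + p.2 ^ 2 < 1}.indicator (fun p => K (p.1 ^ 2 + p.2 ^ 2) *
      (p.1 * p.1)) p := mom_eq 0 0

lemma mom11 : mom 1 1 extG = ∫ p,
    {p : ℝ × ℝ | p.1 ^ 2 + p.2 ^ 2 < 1}.indicator (fun p => K (p.1 ^ 2 + p.2 ^ 2) *
      (p.2 * p.2)) p := mom_eq 1 1

lemma mom01 : mom 0 1 extG = ∫ p,
    {p : ℝ × ℝ | p.1 ^ 2 + p.2 ^ 2 < 1}.indicator (fun p => K (p.1 ^ 2 + p.2 ^ 2) *
      (p.1 * p.2)) p := mom_eq 0 1

lemma int_gen {f : ℝ × ℝ → ℝ} (hf : Continuous f) :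
    Integrable ({p : ℝ × ℝ | p.1 ^ 2 + p.2 ^ 2 < 1}.indicator f) := by
  rw [integrable_indicator_iff ModM.measS]
  have h1 : IntegrableOn f (Icc (-1 : ℝ) 1 ×ˢ Icc (-1 : ℝ) 1) :=
    hf.continuousOn.integrableOn_compact (isCompact_Icc.prod isCompact_Icc)
  refine h1.mono_set ?_
  rintro ⟨x, y⟩ h
  simp only [mem_ofPred_eq] at h
  refine ⟨⟨?_, ?_⟩, ⟨?_, ?_⟩⟩ <;> simp only <;> nlinarith [sq_nonneg x, sq_nonneg y]

lemma sum_eq : mom 0 0 extG + mom 1 1 extG = ∫ p, ModM.cut (fun s => s * K s) p := by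
  rw [mom00, mom11, ← integral_add (int_gen ?_) (int_gen ?_)]
  · refine integral_congr_ae (Eventually.of_forall fun p => ?_)
    simp only [ModM.cut, indicator, mem_ofPred_eq]
    split_ifs
    · ring
    · ring
  · have := K_cont
    fun_prop
  · have := K_cont
    fun_prop

lemma radial : ∫ r in (0:ℝ)..1, r * (r ^ 2 * K (r ^ 2)) =
    4 * t0 * ∫ r in (0:ℝ)..1, r * bes (t0 * r ^ 2) ^ 2 := by
  have hb := bes_cont
  have hb' := bes'_cont
  have hK := K_cont
  have hd : ∀ r : ℝ, HasDerivAt (fun r : ℝ => (t0 * r ^ 2 * bes' (t0 * r ^ 2)) * bes (t0 * r ^ 2))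
      ((-(bes (t0 * r ^ 2)) * (t0 * (2 * r))) * bes (t0 * r ^ 2) +
        (t0 * r ^ 2 * bes' (t0 * r ^ 2)) * (bes' (t0 * r ^ 2) * (t0 * (2 * r)))) r := by
    intro r
    have h1 : HasDerivAt (fun r : ℝ => t0 * r ^ 2) (t0 * (2 * r)) r := by
      have := (hasDerivAt_pow 2 r).const_mul t0
      simpa using this
    exact ((bes_ode (t0 * r ^ 2)).comp r h1).mul ((bes_deriv (t0 * r ^ 2)).comp r h1)
  have hc : Continuous fun r : ℝ => ((-(bes (t0 * r ^ 2)) * (t0 * (2 * r))) * bes (t0 * r ^ 2) +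
        (t0 * r ^ 2 * bes' (t0 * r ^ 2)) * (bes' (t0 * r ^ 2) * (t0 * (2 * r)))) := by
    fun_prop
  have h := intervalIntegral.integral_eq_sub_of_hasDerivAt (a := 0) (b := 1) (fun r _ => hd r)
    (hc.intervalIntegrable 0 1)
  have e1 : ∀ r : ℝ, ((-(bes (t0 * r ^ 2)) * (t0 * (2 * r))) * bes (t0 * r ^ 2) +
        (t0 * r ^ 2 * bes' (t0 * r ^ 2)) * (bes' (t0 * r ^ 2) * (t0 * (2 * r)))) =
      (1 / 2) * (r * (r ^ 2 * K (r ^ 2))) - (2 * t0) * (r * bes (t0 * r ^ 2) ^ 2) := by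
    intro r
    unfold K
    ring
  simp only [e1] at h
  rw [intervalIntegral.integral_sub (Continuous.intervalIntegrable (by fun_prop) _ _)
    (Continuous.intervalIntegrable (by fun_prop) _ _), intervalIntegral.integral_const_mul,
    intervalIntegral.integral_const_mul] at h
  rw [one_pow, mul_one, bes_t0] at h
  simp only [mul_zero, ne_eq, OfNat.ofNat_ne_zero, not_false_eq_true, zero_pow, zero_mul,
    sub_zero] at h
  linarith

end SAux

open SAux

theorem ext_mom : mom 0 0 extG = mom 1 1 extG ∧ mom 0 1 extG = 0 := by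
  constructor
  · rw [mom00, mom11, Measure.volume_eq_prod, ← integral_prod_swap]
    refine integral_congr_ae (Eventually.of_forall fun p => ?_)
    simp only [indicator, mem_ofPred_eq, Prod.fst_swap, Prod.snd_swap]
    rw [add_comm (p.2 ^ 2)]
  · have h1 : ∫ p : ℝ × ℝ, {p : ℝ × ℝ | p.1 ^ 2 + p.2 ^ 2 < 1}.indicator
        (fun p => K (p.1 ^ 2 + p.2 ^ 2) * (p.1 * p.2)) p =
        ∫ p : ℝ × ℝ, -{p : ℝ × ℝ | p.1 ^ 2 + p.2 ^ 2 < 1}.indicator
        (fun p => K (p.1 ^ 2 + p.2 ^ 2) * (p.1 * p.2)) p := by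
      have hmp : MeasurePreserving ((MeasurableEquiv.neg ℝ).prodCongr (MeasurableEquiv.refl ℝ))
          (volume : Measure (ℝ × ℝ)) volume := by
        rw [Measure.volume_eq_prod]
        exact (Measure.measurePreserving_neg (volume : Measure ℝ)).prod (MeasurePreserving.id _)
      rw [← hmp.integral_comp']
      refine integral_congr_ae (Eventually.of_forall fun p => ?_)
      obtain ⟨a, b⟩ := p
      have e : ((MeasurableEquiv.neg ℝ).prodCongr (MeasurableEquiv.refl ℝ)) (a, b) = (-a, b) := rfl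
      simp only [e, indicator, mem_ofPred_eq, neg_sq]
      split_ifs
      · ring
      · ring
    rw [integral_neg] at h1
    rw [mom01]
    linarith

theorem ext_energy : mom 0 0 extG + mom 1 1 extG = 4 * t0 * msq extF := by
  rw [sum_eq, msq_cut, ModM.integral_cut, ModM.integral_cut, radial]
  ring

theorem ext_msq_pos : 0 < msq extF := by
  rw [msq_cut, ModM.integral_cut]
  have hb := bes_cont
  refine mul_pos ?_ (by positivity)
  refine intervalIntegral.intervalIntegral_pos_of_pos_on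
    (Continuous.intervalIntegrable (by fun_prop) _ _) (fun r hr => ?_) one_pos
  have h0 : 0 < r := hr.1
  have h1 : r < 1 := hr.2
  have ht := t0_pos
  have h2 : t0 * r ^ 2 < t0 := by
    have h3 : r ^ 2 < 1 := by nlinarith
    nlinarith
  have h4 := bes_pos (t := t0 * r ^ 2) (by positivity) h2
  positivity

end Pool.Agent.Lib.MP_9c48c1_an.Disk
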