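import Mathlib
import Pool.Agent.Lib.MP_9c48c1_an.Sharp
import Pool.Agent.Lib.MP_9c48c1_an_disk.BDefs
import Pool.Agent.Lib.MP_9c48c1_an_disk.Z
import Pool.Agent.Lib.MP_9c48c1_an_disk.R
import Pool.Agent.Lib.MP_9c48c1_an_disk.S
import Pool.Agent.Lib.MP_9c48c1_an_disk.N

set_option autoImplicit false

/-! The first eigenvalue of the disk and the extremal. -/

namespace Pool.Agent.Lib.MP_9c48c1_an.Disk

open MeasureTheory Set Filter Topology Pool.Agent.Lib.MP_9c48c1_an

theorem lambda1_eq : lambda1 disk = j01 ^ 2 := by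
  rw [j01_sq]
  obtain ⟨G, hG, h1, h2⟩ := test_fun
  refine le_antisymm ?_ (le_csInf ⟨_, UU G, UU_adm hG, UU_ne h1, rfl⟩ ?_)
  · obtain ⟨hf, hg, u, hu, hlf, hlg⟩ := ext_memW0
    have e2 : ENNReal.ofReal 2 = 2 := by simp
    rw [e2] at hf hg
    simp only [e2] at hlf hlg
    have huf : ∀ k, MemLp (u k) 2 := fun k => adm_memLp disk_bounded (hu k)
    have hug : ∀ k, MemLp (gradient (u k)) 2 := fun k => adm_grad_memLp disk_bounded (hu k)
    have t1 : Tendsto (fun k => msq (u k)) atTop (𝓝 (msq extF)) := by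
      have := tendsto_prod hf hf huf huf hlf hlf
      simpa only [msq, sq] using this
    have hcomp : ∀ i : Fin 2, Tendsto (fun k => eLpNorm ((fun x => gradient (u k) x i) -
        fun x => extG x i) 2 volume) atTop (𝓝 0) := by
      intro i
      refine tendsto_of_tendsto_of_tendsto_of_le_of_le tendsto_const_nhds hlg
        (fun k => bot_le) fun k => ?_
      have := eLpNorm_comp_le (g := gradient (u k) - extG) i
      exact this
    have t2 : ∀ i : Fin 2, Tendsto (fun k => mom i i (gradient (u k))) atTop (𝓝 (mom i i extG)) := by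
      intro i
      exact tendsto_prod (memLp_comp hg i) (memLp_comp hg i) (fun k => memLp_comp (hug k) i)
        (fun k => memLp_comp (hug k) i) (hcomp i) (hcomp i)
    have key : ∀ k, lambda1 disk * msq (u k) ≤
        mom 0 0 (gradient (u k)) + mom 1 1 (gradient (u k)) := by
      intro k
      have := lambda1_mul (GG_DAdm (hu k))
      rw [sG, ← mom00_eq (hu k).1, ← mom11_eq (hu k).1, ← msq_eq] at this
      exact this
    have := le_of_tendsto_of_tendsto' (t1.const_mul (lambda1 disk)) ((t2 0).add (t2 1)) key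
    rw [ext_energy] at this
    exact le_of_mul_le_mul_right this ext_msq_pos
  · rintro c ⟨f, hf, h0, rfl⟩
    rw [int_grad hf, int_sq_f, le_div_iff₀ (qN_pos_of_ne hf h0)]
    exact t0_gap (GG_DAdm hf)

theorem ext_attained : ∃ g : E 2 → E 2,
    MemW0 2 disk besselDisk g ∧ ¬ besselDisk =ᵐ[volume] 0 ∧
    affEnergy 2 g = Real.sqrt j01 * rhs 2 besselDisk g := by
  rw [besselDisk_eq]
  refine ⟨extG, ext_memW0, ?_, ?_⟩
  · intro h
    have h1 : msq extF = 0 := by
      unfold msq
      refine integral_eq_zero_of_ae ?_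
      filter_upwards [h] with x hx
      rw [hx]; simp
    exact absurd ext_msq_pos (by rw [h1]; exact lt_irrefl _)
  · obtain ⟨hf, hg, -⟩ := ext_memW0
    have e2 : ENNReal.ofReal 2 = 2 := by simp
    rw [e2] at hg
    obtain ⟨m1, m2⟩ := ext_mom
    have hE := ext_energy
    have hp := ext_msq_pos
    have ht := t0_pos
    have h3 : mom 0 0 extG = 2 * t0 * msq extF := by linarith
    have h0 : 0 < mom 0 0 extG := by rw [h3]; positivity
    have hD : mdet extG = mom 0 0 extG ^ 2 := by unfold mdet; rw [m2, ← m1]; ring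
    have hDpos : 0 < mdet extG := by rw [hD]; positivity
    have a2 := energy_pow hg h0 hDpos
    have a1 := rhs_pow (Real.sqrt j01) extF hg
    have hj : Real.sqrt j01 ^ 4 = 4 * t0 := by
      have : Real.sqrt j01 ^ 4 = (Real.sqrt j01 ^ 2) ^ 2 := by ring
      rw [this, Real.sq_sqrt j01_pos.le, j01_sq]
    have h4 : (affEnergy 2 extG) ^ 4 = (Real.sqrt j01 * rhs 2 extF extG) ^ 4 := by
      rw [a1, a2, hj, hE, hD, h3]; ring
    have n1 : 0 ≤ affEnergy 2 extG := by rw [affEnergy_two hg h0 hDpos]; positivity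
    have n2 : 0 ≤ Real.sqrt j01 * rhs 2 extF extG := by rw [rhs_two _ hg]; positivity
    exact (pow_left_inj₀ n1 n2 (by norm_num)).1 h4

theorem disk_best_sqrt : IsBestConst 2 disk (Real.sqrt j01) := by
  have h := disk_best
  rw [lambda1_eq] at h
  have e : (j01 ^ 2) ^ ((1:ℝ) / 4) = Real.sqrt j01 := by
    rw [Real.sqrt_eq_rpow, ← Real.rpow_natCast, ← Real.rpow_mul j01_pos.le]
    norm_num
  rwa [e] at h

end Pool.Agent.Lib.MP_9c48c1_an.Disk
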